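import Pool.Agent.Lib.MP_fcebdf_lc.Gen

set_option autoImplicit false

namespace Pool.Agent.Lib.MP_fcebdf_lc

open Pool.Agent.Lib.helper81 Pool.Agent.Lib.helper81.Name Set

variable (P : Type) [Preorder P] {K : Type} [LinearOrder K] [WellFoundedLT K]

/-- the name of an ordinal -/
noncomputable def ordN : K → Name P :=
  (wellFounded_lt (α := K)).fix fun α f => setN (fun β : Iio α => f β.1 β.2)

noncomputable def ordH (α : K) : HN P := ⟨ordN P α, allHS _⟩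

/-- the name of a set of ordinals -/
noncomputable def oS (L : Set K) : HN P := setH (fun β : L => ordH P β.1) Filter.mem_bot

variable {P}

lemma ordH_eq (α : K) : ordH P α = oS P (Iio α) := by
  apply Subtype.ext
  show ordN P α = _
  rw [ordN, WellFounded.fix_eq]
  rfl

lemma oS_elim (gm : GN P) {L : Set K} (h : oS P L ∈ gm.S) {m : gm.M}
    (hm : gm.E m (gm.val (oS P L))) : ∃ β ∈ L, ordH P β ∈ gm.S ∧ gm.val (ordH P β) = m := by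
  obtain ⟨β, h1, h2⟩ := gm.std_setH h hm
  exact ⟨β.1, β.2, h1, h2⟩

lemma oS_intro (gm : GN P) {L : Set K} (h : oS P L ∈ gm.S) {β : K} (hβ : ordH P β ∈ gm.S)
    (hL : β ∈ L) : gm.E (gm.val (ordH P β)) (gm.val (oS P L)) :=
  gm.mem_setH (A := fun β : L => ordH P β.1) (i := ⟨β, hL⟩) h hβ

lemma ord_lt (gm : GN P) {α β : K} (hα : ordH P α ∈ gm.S) (hβ : ordH P β ∈ gm.S) (h : α < β) :
    gm.E (gm.val (ordH P α)) (gm.val (ordH P β)) := by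
  rw [ordH_eq β] at hβ ⊢
  exact oS_intro gm hβ hα h

lemma ord_inj (gm : GN P) {α β : K} (hα : ordH P α ∈ gm.S) (hβ : ordH P β ∈ gm.S)
    (h : gm.val (ordH P α) = gm.val (ordH P β)) : α = β := by
  have irr : ∀ x, ¬ gm.E x x := fun x => gm.wf.irrefl.irrefl x
  rcases lt_trichotomy α β with l | l | l
  · exact absurd (h ▸ ord_lt gm hα hβ l) (irr _)
  · exact l
  · exact absurd (h ▸ ord_lt gm hβ hα l) (irr _)

lemma mem_oS_iff (gm : GN P) {L : Set K} (h : oS P L ∈ gm.S) {β : K} (hβ : ordH P β ∈ gm.S) :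
    gm.E (gm.val (ordH P β)) (gm.val (oS P L)) ↔ β ∈ L := by
  refine ⟨fun hm => ?_, oS_intro gm h hβ⟩
  obtain ⟨γ, h1, h2, h3⟩ := oS_elim gm h hm
  exact ord_inj gm h2 hβ h3 ▸ h1

lemma ord_lt_iff (gm : GN P) {α β : K} (hα : ordH P α ∈ gm.S) (hβ : ordH P β ∈ gm.S) :
    gm.E (gm.val (ordH P α)) (gm.val (ordH P β)) ↔ α < β := by
  rw [ordH_eq β] at hβ ⊢
  exact mem_oS_iff gm hβ hα

lemma feq_ord {α β : K} {p : P} (h : Feq (ordH P α).1 (ordH P β).1 p) : α = β := by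
  obtain ⟨g, h1, h2, -⟩ := exists_gm' p (w2 (ordH P α) (ordH P β)) ∅ countable_empty
  exact ord_inj g (h2 0) (h2 1) (val_eq g (h2 0) (h2 1) h1 h)

omit [LinearOrder K] [WellFoundedLT K] in
lemma feq_nat {m n : ℕ} {p : P} (h : Feq (natH (Triv P) m).1 (natH (Triv P) n).1 p) : m = n := by
  obtain ⟨g, h1, -⟩ := exists_gm (G := Triv P) p ∅ countable_empty
  exact g.nat_inj (val_eq g (g.nat_mem m) (g.nat_mem n) h1 h)

lemma fmem_oS {L : Set K} {β : K} (h : β ∈ L) (p : P) : Fmem (ordH P β).1 (oS P L).1 p :=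
  fmem_setN (fun β : L => (ordH P β.1).1) ⟨β, h⟩ p

lemma fmem_oS_elim {L : Set K} {x : Name P} {p : P} (h : Fmem x (oS P L).1 p) :
    ∃ r ≤ p, ∃ β ∈ L, Feq x (ordH P β).1 r := by
  obtain ⟨r, h1, β, -, h2⟩ := h p le_rfl
  exact ⟨r, h1, β.1, β.2, h2⟩

lemma isOrd_oS (gm : GN P) {L : Set K} (hL : IsLowerSet L) (h : oS P L ∈ gm.S) :
    IsOrd gm.E (gm.val (oS P L)) := by
  constructor
  · intro x hx y hy
    obtain ⟨β, h1, h2, rfl⟩ := oS_elim gm h hx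
    rw [ordH_eq] at h2 hy
    obtain ⟨γ, h3, h4, rfl⟩ := oS_elim gm h2 hy
    exact oS_intro gm h h4 (hL (le_of_lt h3) h1)
  · intro x y hx hy
    obtain ⟨β, -, h2, rfl⟩ := oS_elim gm h hx
    obtain ⟨γ, -, h4, rfl⟩ := oS_elim gm h hy
    rcases lt_trichotomy β γ with l | l | l
    · exact Or.inl (ord_lt gm h2 h4 l)
    · exact Or.inr (Or.inl (l ▸ rfl))
    · exact Or.inr (Or.inr (ord_lt gm h4 h2 l))

/-- forcing an injection of a set of ordinals -/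
lemma fc_le_oS {T : Type} (L : Set K) (b : T → HN P) {Y : HN P} {p : P} (I : K → T → P → Prop)
    (hm : ∀ ξ t q r, I ξ t q → r ≤ q → I ξ t r)
    (hY : ∀ ξ t, ∀ q ≤ p, ξ ∈ L → I ξ t q → Fmem (b t).1 Y.1 q)
    (hd : ∀ ξ ∈ L, ∀ q ≤ p, ∃ r ≤ q, ∃ t, I ξ t r)
    (hf : ∀ ξ t t' q, I ξ t q → I ξ t' q → t = t')
    (hi : ∀ ξ ∈ L, ∀ ξ' ∈ L, ∀ t t' q, I ξ t q → I ξ' t' q → Feq (b t).1 (b t').1 q → ξ = ξ') :
    Fc (fun _ E v => Le E (v 0) (v 1)) (w2 (oS P L) Y) p := by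
  refine fc_le (ι := L × T) (fun t => ordH P t.1.1) (fun t => b t.2)
    (fun t => ⟨{q | I t.1.1 t.2 q}, fun _ _ h hq => hm _ _ _ _ hq h⟩)
    (fun t q hq h => ⟨fmem_oS t.1.2 q, hY _ _ q hq t.1.2 h⟩) (fun x q hq h => ?_) ?_ ?_
  · obtain ⟨r, h1, β, h2, h3⟩ := fmem_oS_elim h
    obtain ⟨s, h4, t, h5⟩ := hd β h2 r (h1.trans hq)
    exact ⟨s, h4.trans h1, (⟨β, h2⟩, t), h5, h3.mono h4⟩
  · rintro ⟨⟨ξ, h1⟩, t⟩ ⟨⟨ξ', h2⟩, t'⟩ q _ h3 h4 e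
    obtain rfl : ξ = ξ' := feq_ord e
    obtain rfl : t = t' := hf ξ t t' q h3 h4
    exact Feq.refl _ _
  · rintro ⟨⟨ξ, h1⟩, t⟩ ⟨⟨ξ', h2⟩, t'⟩ q _ h3 h4 e
    obtain rfl : ξ = ξ' := hi ξ h1 ξ' h2 t t' q h3 h4 e
    exact Feq.refl _ _

lemma le_omega (gm : GN P) {L : Set K} (hL : L.Countable) (h : oS P L ∈ gm.S) :
    Le gm.E (gm.val (oS P L)) gm.omega := by
  obtain ⟨e, he⟩ := countable_iff_exists_injOn.1 hL
  obtain ⟨p, hp⟩ := gm.nonempty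
  exact fc_le_oS L (natH (Triv P)) (Y := omegaH (Triv P)) (fun ξ t _ => e ξ = t)
    (fun _ _ _ _ h _ => h) (fun _ t q _ _ _ => fmem_setN (fun n => (natH (Triv P) n).1) t q)
    (fun ξ _ q _ => ⟨q, le_rfl, e ξ, rfl⟩) (fun _ _ _ _ h h' => h.symm.trans h')
    (fun ξ h1 ξ' h2 t t' q h3 h4 h5 => he h1 h2 (h3.trans ((feq_nat h5).trans h4.symm)))
    gm hp (mem2 h gm.omega_mem)

/-- `q` forces that the pair of `x` and `y` lies in `f` -/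
abbrev FR (f x y : HN P) (q : P) : Prop :=
  Fc (fun _ E v => Rel E (v 0) (v 1) (v 2)) (w3 f x y) q

lemma fr_inj {f X Y y : HN P} {p q : P}
    (h : Fc (fun _ E v => Inj E (v 0) (v 1) (v 2)) (w3 f X Y) p) (hq : q ≤ p) {γ γ' : K}
    (h1 : FR f (ordH P γ) y q) (h2 : FR f (ordH P γ') y q) : γ = γ' := by
  obtain ⟨g, k1, k2, k3⟩ := exists_gm' q (w3 f X Y) {y, ordH P γ, ordH P γ'} (to_countable _)
  have a1 : y ∈ g.S := k3 (by simp)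
  have a2 : ordH P γ ∈ g.S := k3 (by simp)
  have a3 : ordH P γ' ∈ g.S := k3 (by simp)
  exact ord_inj g a2 a3 ((h.mono hq g k1 k2).2.2 _ _ _ (h1 g k1 (mem3 (k2 0) a2 a1))
    (h2 g k1 (mem3 (k2 0) a3 a1)))

lemma fr_exists {f Y : HN P} {L : Set K} {p : P}
    (h : Fc (fun _ E v => Inj E (v 0) (v 1) (v 2)) (w3 f (oS P L) Y) p) {γ : K} (hγ : γ ∈ L) :
    ∃ q ≤ p, ∃ y : HN P, Fmem y.1 Y.1 q ∧ FR f (ordH P γ) y q := by
  obtain ⟨g, k1, k2, k3⟩ := exists_gm' p (w3 f (oS P L) Y) {ordH P γ} (to_countable _)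
  have h1 := h g k1 k2
  obtain ⟨y, h2, -⟩ := h1.2.1 _ (oS_intro g (k2 1) (k3 rfl) hγ)
  have h3 := (Inj.rel_mem g.isZF h1 h2).2
  obtain ⟨y, hy, rfl⟩ := g.surj y
  obtain ⟨q, -, h4, h5⟩ := g.truthDef_le ((Def.mem 3 0).and (Def.rel 1 2 3))
    (w := w4 Y f (ordH P γ) y) (mem4 (k2 2) (k2 0) (k3 rfl) hy) ⟨h3, h2⟩ k1
  refine ⟨q, h4, y, fmem_of_gm {f, ordH P γ} (to_countable _) fun g' a b c d => ?_,
    Fc.of_extra (Def.rel 0 1 2) {Y} (to_countable _) fun g' a b c => ?_⟩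
  · exact (h5 g' a (mem4 c (d (by simp)) (d (by simp)) b)).1
  · exact (h5 g' a (mem4 (c rfl) (b 0) (b 1) (b 2))).2

lemma FR.congr {f x y y' : HN P} {q : P} (h : FR f x y q) (e : Feq y.1 y'.1 q) : FR f x y' q := by
  refine Fc.congr (Def.rel 0 1 2) (fun i => ?_) h
  rcases i with _ | _ | i
  · exact Feq.refl _ _
  · exact Feq.refl _ _
  · exact e

lemma not_le_omega (hσ : ∀ c : ℕ → P, Antitone c → ∃ q, ∀ n, q ≤ c n) (gm : GN P) {L : Set K}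
    (hL : ¬ L.Countable) (h : oS P L ∈ gm.S) : ¬ Le gm.E (gm.val (oS P L)) gm.omega := by
  rintro ⟨f, hf⟩
  obtain ⟨f, hfS, rfl⟩ := gm.surj f
  obtain ⟨p, -, hp⟩ := gm.truthDef (Def.inj 0 1 2) (mem3 hfS h gm.omega_mem) hf
  obtain ⟨q, h1, h2⟩ := sigma_meet hσ (fun (n : ℕ) (q : P) =>
      (∃ ξ : K, FR f (ordH P ξ) (natH (Triv P) n) q) ∨
        ∀ ξ : K, ∀ r ≤ q, ¬ FR f (ordH P ξ) (natH (Triv P) n) r) p
    (fun n q r h hr => h.imp (fun ⟨ξ, h⟩ => ⟨ξ, h.mono hr⟩) fun h ξ s hs => h ξ s (hs.trans hr))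
    (fun n q _ => by
      by_cases h : ∃ r ≤ q, ∃ ξ : K, FR f (ordH P ξ) (natH (Triv P) n) r
      · obtain ⟨r, h1, h2⟩ := h
        exact ⟨r, h1, Or.inl h2⟩
      · exact ⟨q, le_rfl, Or.inr fun ξ r hr h' => h ⟨r, hr, ξ, h'⟩⟩)
  have h3 : (⋃ n : ℕ, {ξ : K | FR f (ordH P ξ) (natH (Triv P) n) q}).Countable :=
    countable_iUnion fun n => Set.Subsingleton.countable fun _ a _ b => fr_inj hp h1 a b
  refine hL (h3.mono fun ξ hξ => ?_)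
  obtain ⟨r, k1, y, k2, k3⟩ := fr_exists (hp.mono h1) hξ
  obtain ⟨s, k4, n, -, k5⟩ := k2 r le_rfl
  have k6 : FR f (ordH P ξ) (natH (Triv P) n) s := FR.congr (k3.mono k4) k5
  obtain ⟨ξ', k7⟩ := (h2 n).resolve_right fun h => h ξ s (k4.trans k1) k6
  rw [fr_inj hp ((k4.trans k1).trans h1) k6 (k7.mono (k4.trans k1))]
  exact mem_iUnion.2 ⟨n, k7⟩

lemma not_le_ord (hcc : ∀ S : K → P → Prop, (∀ β p q, S β p → q ≤ p → S β q) →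
      (∀ β β' p, S β p → S β' p → β = β') → ∃ δ, ∀ β p, S β p → β < δ)
    (hreg : ∀ (δ : K) (b : K → K), ∃ β, ∀ ξ < δ, b ξ < β) (gm : GN P) {β : K}
    (h : oS P (univ : Set K) ∈ gm.S) (hβ : ordH P β ∈ gm.S) :
    ¬ Le gm.E (gm.val (oS P (univ : Set K))) (gm.val (ordH P β)) := by
  rintro ⟨f, hf⟩
  obtain ⟨f, hfS, rfl⟩ := gm.surj f
  obtain ⟨p, -, hp⟩ := gm.truthDef (Def.inj 0 1 2) (mem3 hfS h hβ) hf
  choose b hb using fun ξ : K => hcc (fun γ q => q ≤ p ∧ FR f (ordH P γ) (ordH P ξ) q)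
    (fun _ _ _ h hq => ⟨hq.trans h.1, h.2.mono hq⟩) (fun _ _ _ a b => fr_inj hp a.1 a.2 b.2)
  obtain ⟨γ, hγ⟩ := hreg β b
  obtain ⟨r, k1, y, k2, k3⟩ := fr_exists hp (mem_univ γ)
  rw [ordH_eq] at k2
  obtain ⟨s, k4, ξ, k5, k6⟩ := fmem_oS_elim k2
  exact lt_asymm (hγ ξ k5) (hb ξ γ s ⟨k4.trans k1, FR.congr (k3.mono k4) k6⟩)

lemma exists_min_dec (S : K → P → Prop) {q : P} (h : ∃ β, ∃ r ≤ q, S β r) :
    ∃ r ≤ q, ∃ β, S β r ∧ ∀ β' < β, ∀ s ≤ r, ¬ S β' s := by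
  obtain ⟨β, ⟨r, h1, h2⟩, h3⟩ := (wellFounded_lt (α := K)).has_min {β | ∃ r ≤ q, S β r} h
  exact ⟨r, h1, β, h2, fun β' h4 s h5 h6 => h3 β' ⟨s, h5.trans h1, h6⟩ h4⟩

lemma fc_le_unb (hcc : ∀ S : K → P → Prop, (∀ β p q, S β p → q ≤ p → S β q) →
      (∀ β β' p, S β p → S β' p → β = β') → ∃ δ, ∀ β p, S β p → β < δ)
    (hclos : ∀ b : K → K, ∃ h : K → K, Function.Injective h ∧
      ∀ ξ ξ', h ξ < h ξ' → b (h ξ) < h ξ') {Y : HN P} {p : P}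
    (hu : ∀ q ≤ p, ∀ δ : K, ∃ r ≤ q, ∃ β, δ < β ∧ Fmem (ordH P β).1 Y.1 r) :
    Fc (fun _ E v => Le E (v 0) (v 1)) (w2 (oS P (univ : Set K)) Y) p := by
  let N : K → K → P → Prop := fun δ β q => (δ < β ∧ Fmem (ordH P β).1 Y.1 q) ∧
    ∀ β' < β, ∀ s ≤ q, ¬ (δ < β' ∧ Fmem (ordH P β').1 Y.1 s)
  have n1 : ∀ δ β q r, N δ β q → r ≤ q → N δ β r := fun δ β q r h hr =>
    ⟨⟨h.1.1, h.1.2.mono hr⟩, fun β' l s hs => h.2 β' l s (hs.trans hr)⟩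
  have n2 : ∀ δ β β' q, N δ β q → N δ β' q → β = β' := by
    intro δ β β' q h h'
    rcases lt_trichotomy β β' with l | l | l
    · exact absurd h.1 (h'.2 β l q le_rfl)
    · exact l
    · exact absurd h'.1 (h.2 β' l q le_rfl)
  choose b hb using fun δ => hcc (N δ) (n1 δ) (n2 δ)
  obtain ⟨h, h1, h2⟩ := hclos b
  refine fc_le_oS univ (ordH P) (fun ξ β q => N (h ξ) β q) (fun ξ => n1 (h ξ))
    (fun _ _ _ _ _ h => h.1.2) (fun ξ _ q hq => ?_) (fun ξ => n2 (h ξ)) ?_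
  · obtain ⟨r, k1, β, k2⟩ := hu q hq (h ξ)
    exact exists_min_dec (fun β q => h ξ < β ∧ Fmem (ordH P β).1 Y.1 q) ⟨β, r, k1, k2⟩
  · intro ξ _ ξ' _ β β' q k1 k2 e
    obtain rfl : β = β' := feq_ord e
    apply h1
    rcases lt_trichotomy (h ξ) (h ξ') with l | l | l
    · exact absurd ((hb _ _ _ k1).trans (h2 _ _ l)) (lt_asymm k2.1.1)
    · exact l
    · exact absurd ((hb _ _ _ k2).trans (h2 _ _ l)) (lt_asymm k1.1.1)

lemma le_collapse (gm : GN P) {w lam : K} (H : K → K → P → Prop)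
    (h1 : ∀ ξ η p q, H ξ η p → q ≤ p → H ξ η q) (h2 : ∀ ξ η η' p, H ξ η p → H ξ η' p → η = η')
    (h3 : ∀ η < lam, ∀ p, ∃ q ≤ p, ∃ ξ < w, H ξ η q) (hw : ordH P w ∈ gm.S)
    (hl : ordH P lam ∈ gm.S) : Le gm.E (gm.val (ordH P lam)) (gm.val (ordH P w)) := by
  obtain ⟨p, hp⟩ := gm.nonempty
  rw [ordH_eq lam] at hl ⊢
  refine fc_le_oS (Iio lam) (ordH P) (Y := ordH P w) (fun η ξ q => (ξ < w ∧ H ξ η q) ∧
      ∀ ξ' < ξ, ∀ s ≤ q, ¬ (ξ' < w ∧ H ξ' η s))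
    (fun _ _ _ _ h hr => ⟨⟨h.1.1, h1 _ _ _ _ h.1.2 hr⟩, fun β' l s hs => h.2 β' l s (hs.trans hr)⟩)
    (fun _ _ q _ _ h => by rw [ordH_eq w]; exact fmem_oS (L := Iio w) h.1.1 q) (fun η hη q _ => ?_)
    (fun η ξ ξ' q h h' => ?_) (fun η _ η' _ ξ ξ' q k1 k2 e => ?_) gm hp (mem2 hl hw)
  · obtain ⟨r, k1, ξ, k2⟩ := h3 η hη q
    exact exists_min_dec (fun ξ q => ξ < w ∧ H ξ η q) ⟨ξ, r, k1, k2⟩
  · rcases lt_trichotomy ξ ξ' with l | l | l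
    · exact absurd h.1 (h'.2 ξ l q le_rfl)
    · exact l
    · exact absurd h'.1 (h.2 ξ' l q le_rfl)
  · obtain rfl : ξ = ξ' := feq_ord e
    exact h2 ξ η η' q k1.1.2 k2.1.2

end Pool.Agent.Lib.MP_fcebdf_lc
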