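import Mathlib

set_option autoImplicit false

namespace Pool.Agent.Lib.MP_fcebdf_lc

open Filter Set

/-- a reflexive symmetric closeness relation -/
class Tol (F : Type) where
  r : F → F → Prop
  refl : ∀ u, r u u
  symm : ∀ u v, r u v → r v u

variable {K F : Type} [LinearOrder K] [Tol F]

lemma r_of_eq {u v : F} (h : u = v) : Tol.r u v := h ▸ Tol.refl u

/-- closeness at all but finitely many coordinates whose first entry satisfies `S` -/
def AC (S : K → Prop) (f g : K × ℕ → F) : Prop :=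
  ∀ᶠ c : K × ℕ in cofinite, S c.1 → Tol.r (f c) (g c)

omit [LinearOrder K] in
lemma AC.refl (S : K → Prop) (f : K × ℕ → F) : AC S f f :=
  Eventually.of_forall fun _ _ => Tol.refl _

omit [LinearOrder K] in
lemma AC.symm {S : K → Prop} {f g : K × ℕ → F} (h : AC S f g) : AC S g f :=
  h.mono fun _ h1 h2 => Tol.symm _ _ (h1 h2)

variable (K F) in
/-- forcing conditions -/
structure Cond where
  a : Set K
  x : K → K × ℕ → F
  ctbl : a.Countable
  close : ∀ α ∈ a, ∀ β ∈ a, AC (fun η => η ∈ a ∧ η < α ∧ η < β) (x α) (x β)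

namespace Cond

instance : Preorder (Cond K F) where
  le q p := p.a ⊆ q.a ∧ (∀ α ∈ p.a, ∀ c : K × ℕ, c.1 ∈ p.a → c.1 < α → q.x α c = p.x α c) ∧
    ∀ c : K × ℕ, c.1 ∈ q.a → c.1 ∉ p.a → ∀ α ∈ p.a, ∀ β ∈ p.a, c.1 < α → c.1 < β →
      q.x α c = q.x β c
  le_refl p := ⟨subset_rfl, fun _ _ _ _ _ => rfl, fun _ h1 h2 => absurd h1 h2⟩
  le_trans r q p h1 h2 := by
    refine ⟨h2.1.trans h1.1, fun α hα c hc hlt => ?_, fun c hc hn α hα β hβ l1 l2 => ?_⟩
    · rw [h1.2.1 α (h2.1 hα) c (h2.1 hc) hlt, h2.2.1 α hα c hc hlt]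
    · by_cases hq : c.1 ∈ q.a
      · rw [h1.2.1 α (h2.1 hα) c hq l1, h1.2.1 β (h2.1 hβ) c hq l2]
        exact h2.2.2 c hq hn α hα β hβ l1 l2
      · exact h1.2.2 c hc hq α (h2.1 hα) β (h2.1 hβ) l1 l2

lemma le_def {q p : Cond K F} : q ≤ p ↔ p.a ⊆ q.a ∧
    (∀ α ∈ p.a, ∀ c : K × ℕ, c.1 ∈ p.a → c.1 < α → q.x α c = p.x α c) ∧
    ∀ c : K × ℕ, c.1 ∈ q.a → c.1 ∉ p.a → ∀ α ∈ p.a, ∀ β ∈ p.a, c.1 < α → c.1 < β →
      q.x α c = q.x β c := Iff.rfl

lemma sub {q p : Cond K F} (h : q ≤ p) : p.a ⊆ q.a := h.1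

lemma agree {q p : Cond K F} (h : q ≤ p) {α : K} (hα : α ∈ p.a) {c : K × ℕ} (hc : c.1 ∈ p.a)
    (hlt : c.1 < α) : q.x α c = p.x α c := h.2.1 α hα c hc hlt

lemma newcol {q p : Cond K F} (h : q ≤ p) {c : K × ℕ} (hc : c.1 ∈ q.a) (hn : c.1 ∉ p.a)
    {α β : K} (hα : α ∈ p.a) (hβ : β ∈ p.a) (l1 : c.1 < α) (l2 : c.1 < β) :
    q.x α c = q.x β c := h.2.2 c hc hn α hα β hβ l1 l2

/-- the empty condition -/
def empty [Inhabited F] : Cond K F where
  a := ∅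
  x := fun _ _ => default
  ctbl := countable_empty
  close := fun _ h => absurd h (notMem_empty _)

/-- restriction below `β` -/
def res (p : Cond K F) (β : K) : Cond K F where
  a := p.a ∩ Iio β
  x := p.x
  ctbl := p.ctbl.mono inter_subset_left
  close := fun α hα γ hγ => (p.close α hα.1 γ hγ.1).mono fun _ h h' => h ⟨h'.1.1, h'.2⟩

lemma le_res (p : Cond K F) (β : K) : p ≤ p.res β := by
  refine ⟨inter_subset_left, fun _ _ _ _ _ => rfl, fun c hc hn α hα _ _ l1 _ => ?_⟩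
  exact absurd ⟨hc, l1.trans hα.2⟩ hn

end Cond

omit [LinearOrder K] in
/-- a common almost-close function for a countable compatible family -/
lemma exists_top [Inhabited F] {ι : Type} [Countable ι] (S : ι → K → Prop)
    (f : ι → K × ℕ → F) (h : ∀ i j, AC (fun η => S i η ∧ S j η) (f i) (f j)) :
    ∃ y : K × ℕ → F, ∀ i, AC (S i) y (f i) := by
  classical
  obtain ⟨e, he⟩ := exists_injective_nat ι
  have wf : WellFounded (fun i j => e i < e j) := InvImage.wf e wellFounded_lt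
  let y : K × ℕ → F := fun c =>
    if hc : ({i | S i c.1} : Set ι).Nonempty then f (wf.min _ hc) c else default
  refine ⟨y, fun i => ?_⟩
  have hfin : ({j | e j ≤ e i} : Set ι).Finite :=
    (Set.finite_Iic (e i)).preimage he.injOn
  have := (eventually_all_finite hfin).2 fun j _ => h j i
  filter_upwards [this] with c hc hi
  have hne : ({i | S i c.1} : Set ι).Nonempty := ⟨i, hi⟩
  have h1 : y c = f (wf.min _ hne) c := dif_pos hne
  rw [h1]
  exact hc _ (not_lt.1 (wf.not_lt_min _ (show i ∈ {i | S i c.1} from hi))) ⟨wf.min_mem _ hne, hi⟩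

namespace Cond

variable [Inhabited F]

lemma exists_toprow (p : Cond K F) :
    ∃ y : K × ℕ → F, ∀ α ∈ p.a, AC (fun η => η ∈ p.a ∧ η < α) y (p.x α) := by
  have := p.ctbl.to_subtype
  obtain ⟨y, hy⟩ := exists_top (ι := p.a) (fun α η => η ∈ p.a ∧ η < α.1) (fun α => p.x α.1)
    (fun α β => (p.close α.1 α.2 β.1 β.2).mono fun _ h h' => h ⟨h'.1.1, h'.1.2, h'.2.2⟩)
  exact ⟨y, fun α hα => hy ⟨α, hα⟩⟩

/-- adding countably many rows -/
lemma add_rows (p : Cond K F) (N : Set K) (hN : N.Countable) (t : K → K × ℕ → F)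
    (h1 : ∀ δ ∈ N, ∀ α ∈ p.a, AC (fun η => η ∈ p.a ∧ η < α) (t δ) (p.x α))
    (h2 : ∀ δ ∈ N, ∀ δ' ∈ N, AC (fun η => η ∈ p.a) (t δ) (t δ')) :
    ∃ q ≤ p, q.a = p.a ∪ N ∧ (∀ δ, δ ∉ p.a → ∀ c : K × ℕ, c.1 ∈ p.a → q.x δ c = t δ c) ∧
      ∀ δ (c : K × ℕ), c.1 ∉ p.a → q.x δ c = default := by
  classical
  let x : K → K × ℕ → F := fun α c =>
    if c.1 ∈ p.a then (if α ∈ p.a then p.x α c else t α c) else default
  have e1 : ∀ α ∈ p.a, ∀ c : K × ℕ, c.1 ∈ p.a → x α c = p.x α c := by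
    intro α hα c hc; simp only [x, if_pos hc, if_pos hα]
  have e2 : ∀ α, α ∉ p.a → ∀ c : K × ℕ, c.1 ∈ p.a → x α c = t α c := by
    intro α hα c hc; simp only [x, if_pos hc, if_neg hα]
  have e3 : ∀ α (c : K × ℕ), c.1 ∉ p.a → x α c = default := by
    intro α c hc; simp only [x, if_neg hc]
  refine ⟨⟨p.a ∪ N, x, p.ctbl.union hN, ?_⟩, ⟨subset_union_left, fun α hα c hc _ => e1 α hα c hc,
    fun c _ hn α _ β _ _ _ => (e3 α c hn).trans (e3 β c hn).symm⟩, rfl, e2, e3⟩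
  intro α hα β hβ
  by_cases ha : α ∈ p.a <;> by_cases hb : β ∈ p.a
  · filter_upwards [p.close α ha β hb] with c hc h
    by_cases hc' : c.1 ∈ p.a
    · rw [e1 α ha c hc', e1 β hb c hc']; exact hc ⟨hc', h.2⟩
    · rw [e3 α c hc', e3 β c hc']; exact Tol.refl _
  · filter_upwards [h1 β (hβ.resolve_left hb) α ha] with c hc h
    by_cases hc' : c.1 ∈ p.a
    · rw [e1 α ha c hc', e2 β hb c hc']; exact Tol.symm _ _ (hc ⟨hc', h.2.1⟩)
    · rw [e3 α c hc', e3 β c hc']; exact Tol.refl _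
  · filter_upwards [h1 α (hα.resolve_left ha) β hb] with c hc h
    by_cases hc' : c.1 ∈ p.a
    · rw [e2 α ha c hc', e1 β hb c hc']; exact hc ⟨hc', h.2.2⟩
    · rw [e3 α c hc', e3 β c hc']; exact Tol.refl _
  · filter_upwards [h2 α (hα.resolve_left ha) β (hβ.resolve_left hb)] with c hc _
    by_cases hc' : c.1 ∈ p.a
    · rw [e2 α ha c hc', e2 β hb c hc']; exact hc hc'
    · rw [e3 α c hc', e3 β c hc']; exact Tol.refl _

lemma add_points (p : Cond K F) (N : Set K) (hN : N.Countable) : ∃ q ≤ p, N ⊆ q.a := by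
  obtain ⟨y, hy⟩ := p.exists_toprow
  obtain ⟨q, h1, h2, -⟩ := p.add_rows N hN (fun _ => y) (fun _ _ => hy) (fun _ _ _ _ => AC.refl _ _)
  exact ⟨q, h1, h2 ▸ subset_union_right⟩

lemma add_point (p : Cond K F) (β : K) : ∃ q ≤ p, β ∈ q.a := by
  obtain ⟨q, h1, h2⟩ := p.add_points {β} (countable_singleton β)
  exact ⟨q, h1, h2 rfl⟩

/-- unions of descending sequences -/
lemma exists_lim (c : ℕ → Cond K F) (hc : Antitone c) :
    ∃ q : Cond K F, (∀ n, q ≤ c n) ∧ ∀ η ∈ q.a, ∃ n, η ∈ (c n).a := by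
  classical
  let x : K → K × ℕ → F := fun α d =>
    if h : ∃ n, α ∈ (c n).a ∧ d.1 ∈ (c n).a then (c (Nat.find h)).x α d else default
  have e1 : ∀ n, ∀ α ∈ (c n).a, ∀ d : K × ℕ, d.1 ∈ (c n).a → d.1 < α → x α d = (c n).x α d := by
    intro n α hα d hd hlt
    have h : ∃ n, α ∈ (c n).a ∧ d.1 ∈ (c n).a := ⟨n, hα, hd⟩
    simp only [x, dif_pos h]
    exact (agree (hc (Nat.find_min' h ⟨hα, hd⟩)) (Nat.find_spec h).1 (Nat.find_spec h).2 hlt).symm
  have e2 : ∀ n (d : K × ℕ), d.1 ∈ (⋃ n, (c n).a) → d.1 ∉ (c n).a → ∀ α ∈ (c n).a,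
      ∀ β ∈ (c n).a, d.1 < α → d.1 < β → x α d = x β d := by
    intro n d hd hn α hα β hβ l1 l2
    obtain ⟨m, hm⟩ := mem_iUnion.1 hd
    have k1 : c (max n m) ≤ c n := hc (le_max_left _ _)
    have k2 : c (max n m) ≤ c m := hc (le_max_right _ _)
    rw [e1 _ α (sub k1 hα) d (sub k2 hm) l1, e1 _ β (sub k1 hβ) d (sub k2 hm) l2]
    exact newcol k1 (sub k2 hm) hn hα hβ l1 l2
  refine ⟨⟨⋃ n, (c n).a, x, countable_iUnion fun n => (c n).ctbl, ?_⟩,
    fun n => ⟨subset_iUnion (fun n => (c n).a) n, e1 n, e2 n⟩, fun η h => mem_iUnion.1 h⟩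
  intro α hα β hβ
  obtain ⟨n, hn⟩ := mem_iUnion.1 hα
  obtain ⟨m, hm⟩ := mem_iUnion.1 hβ
  have k1 := sub (hc (le_max_left n m)) hn
  have k2 := sub (hc (le_max_right n m)) hm
  filter_upwards [(c (max n m)).close α k1 β k2] with d hd h
  by_cases hd' : d.1 ∈ (c (max n m)).a
  · rw [e1 _ α k1 d hd' h.2.1, e1 _ β k2 d hd' h.2.2]; exact hd ⟨hd', h.2⟩
  · exact r_of_eq (e2 _ d h.1 hd' α k1 β k2 h.2.1 h.2.2)

omit [Inhabited F] in
/-- amalgamation of `s`, living below `β`, with `p`, over the root `ρ` -/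
lemma amalg {p s ρ : Cond K F} {β : K} (y : K × ℕ → F) (hp : p ≤ ρ) (hs : s ≤ ρ)
    (hroot : ∀ η ∈ p.a, η < β → η ∈ ρ.a) (hsβ : ∀ η ∈ s.a, η < β)
    (hforced : ∀ c : K × ℕ, c.1 ∈ s.a → c.1 ∉ ρ.a → ∀ α ∈ ρ.a, c.1 < α → y c = s.x α c)
    (hrows : ∀ α ∈ p.a, β ≤ α → ∀ α' ∈ s.a, AC (fun η => η ∈ ρ.a ∧ η < α') (p.x α) (s.x α'))
    (hval : ∀ α' ∈ s.a, AC (fun η => η ∈ s.a ∧ η ∉ ρ.a ∧ η < α') y (s.x α')) :
    ∃ q, q ≤ p ∧ q ≤ s ∧ q.a = p.a ∪ s.a ∧
      ∀ α, β ≤ α → ∀ c : K × ℕ, c.1 ∉ p.a → q.x α c = y c := by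
  classical
  let x : K → K × ℕ → F := fun α c =>
    if α < β then s.x α c else if c.1 ∈ p.a then p.x α c else y c
  have e1 : ∀ α, α < β → ∀ c, x α c = s.x α c := by
    intro α h c; simp only [x, if_pos h]
  have e2 : ∀ α, β ≤ α → ∀ c : K × ℕ, c.1 ∈ p.a → x α c = p.x α c := by
    intro α h c hc; simp only [x, if_neg (not_lt.2 h), if_pos hc]
  have e3 : ∀ α, β ≤ α → ∀ c : K × ℕ, c.1 ∉ p.a → x α c = y c := by
    intro α h c hc; simp only [x, if_neg (not_lt.2 h), if_neg hc]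
  have hmem : ∀ η ∈ p.a ∪ s.a, η < β → η ∈ s.a := by
    rintro η (h | h) hlt
    · exact sub hs (hroot η h hlt)
    · exact h
  have hmem' : ∀ η ∈ p.a ∪ s.a, β ≤ η → η ∈ p.a := by
    rintro η (h | h) hlt
    · exact h
    · exact absurd (hsβ η h) (not_lt.2 hlt)
  have key : ∀ α ∈ p.a ∪ s.a, ∀ α' ∈ p.a ∪ s.a, β ≤ α → α' < β →
      AC (fun η => η ∈ p.a ∪ s.a ∧ η < α ∧ η < α') (x α) (x α') := by
    intro α hα α' hα' l1 l2
    filter_upwards [hrows α (hmem' α hα l1) l1 α' (hmem α' hα' l2), hval α' (hmem α' hα' l2)]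
      with c k1 k2 h
    rw [e1 α' l2]
    by_cases hc : c.1 ∈ p.a
    · rw [e2 α l1 c hc]; exact k1 ⟨hroot _ hc (h.2.2.trans l2), h.2.2⟩
    · rw [e3 α l1 c hc]
      exact k2 ⟨hmem _ h.1 (h.2.2.trans l2), fun h' => hc (sub hp h'), h.2.2⟩
  refine ⟨⟨p.a ∪ s.a, x, p.ctbl.union s.ctbl, ?_⟩, ⟨subset_union_left, ?_, ?_⟩,
    ⟨subset_union_right, ?_, ?_⟩, rfl, e3⟩
  · intro α hα α' hα'
    rcases lt_or_ge α β with l1 | l1 <;> rcases lt_or_ge α' β with l2 | l2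
    · filter_upwards [s.close α (hmem α hα l1) α' (hmem α' hα' l2)] with c k h
      rw [e1 α l1, e1 α' l2]
      exact k ⟨hmem _ h.1 (h.2.1.trans l1), h.2⟩
    · exact (key α' hα' α hα l2 l1).symm.mono fun _ k h => k ⟨h.1, h.2.2, h.2.1⟩
    · exact key α hα α' hα' l1 l2
    · filter_upwards [p.close α (hmem' α hα l1) α' (hmem' α' hα' l2)] with c k h
      by_cases hc : c.1 ∈ p.a
      · rw [e2 α l1 c hc, e2 α' l2 c hc]; exact k ⟨hc, h.2⟩
      · rw [e3 α l1 c hc, e3 α' l2 c hc]; exact Tol.refl _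
  · intro α hα c hc hlt
    show x α c = _
    rcases lt_or_ge α β with l1 | l1
    · have k1 := hroot α hα l1
      have k2 := hroot _ hc (hlt.trans l1)
      rw [e1 α l1, agree hs k1 k2 hlt, agree hp k1 k2 hlt]
    · exact e2 α l1 c hc
  · intro c hc hn α hα α' hα' l1 l2
    have hcs : c.1 ∈ s.a := hc.resolve_left hn
    have k : ∀ α ∈ p.a, c.1 < α → x α c = y c := by
      intro α hα l
      rcases lt_or_ge α β with l' | l'
      · rw [e1 α l']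
        exact (hforced c hcs (fun h => hn (sub hp h)) α (hroot α hα l') l).symm
      · exact e3 α l' c hn
    exact (k α hα l1).trans (k α' hα' l2).symm
  · intro α hα c _ _
    exact e1 α (hsβ α hα) c
  · intro c hc hn α hα _ _ l1 _
    exact absurd (hmem _ hc (l1.trans (hsβ α hα))) hn

end Cond

end Pool.Agent.Lib.MP_fcebdf_lc
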