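import Pool.Agent.Lib.helper81.ZF

set_option autoImplicit false

namespace Pool.Agent.Lib.MP_fcebdf_lc

open Pool.Agent.Lib.helper81

variable {M : Type} (E : M → M → Prop)

/-- The axiom of choice: every family of nonempty sets has a choice function. -/
def Choice : Prop :=
  ∀ a, (∀ x, E x a → ∃ y, E y x) → ∃ f, ∀ x, E x a → ∃ y, E y x ∧ ∀ z, Rel E f x z ↔ z = y

/-- `|A| ≤ |B|`. -/
def Le (A B : M) : Prop := ∃ f, Inj E f A B

/-- `a` is an ordinal. -/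
def IsOrd (a : M) : Prop :=
  (∀ x, E x a → Sub E x a) ∧ ∀ x y, E x a → E y a → E x y ∨ x = y ∨ E y x

/-- `b` is the successor cardinal of `a`. -/
def Next (a b : M) : Prop := IsOrd E b ∧ ¬ Le E b a ∧ ∀ x, E x b → Le E x a

/-- `u = {a, b}`. -/
def UP (u a b : M) : Prop := ∀ z, E z u ↔ z = a ∨ z = b

/-- `c` is a function from `[k]^2` to `w`. -/
def Col (c k w : M) : Prop :=
  (∀ p, E p c → ∃ a b u i, E a k ∧ E b k ∧ a ≠ b ∧ UP E u a b ∧ E i w ∧ OP E p u i) ∧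
    ∀ a b u, E a k → E b k → a ≠ b → UP E u a b → ∃! i, Rel E c u i

/-- There is an `i`-path for `c` of length `l` from `a` to `b` with all vertices in `A \ C`. -/
def Path (c i A C a b : M) (l : ℕ) : Prop :=
  ∃ γ : ℕ → M, γ 0 = a ∧ γ l = b ∧ (∀ j ≤ l, E (γ j) A ∧ ¬ E (γ j) C) ∧
    ∀ j < l, ∃ u, UP E u (γ j) (γ (j + 1)) ∧ Rel E c u i

/-- The relation `k →_{hc,<n} (k)^2_w`. -/
def HC (k w : M) (n : ℕ∞) : Prop :=
  ∀ c, Col E c k w → ∃ A i, Sub E A k ∧ Le E k A ∧ E i w ∧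
    ∀ C, Sub E C A → ¬ Le E k C → ∀ a b, E a A → ¬ E a C → E b A → ¬ E b C →
      ∃ l : ℕ, (l : ℕ∞) < n ∧ Path E c i A C a b l

end Pool.Agent.Lib.MP_fcebdf_lc
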