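import Pool.Agent.Lib.MP_fcebdf_lc.Defs
import Pool.Agent.Lib.helper81.Pairs

set_option autoImplicit false

namespace Pool.Agent.Lib.MP_fcebdf_lc

open Pool.Agent.Lib.helper81 Pool.Agent.Lib.helper81.Name

/-- the trivial group -/
def Triv (_ : Type) : Type := PUnit

instance (P : Type) : Group (Triv P) := inferInstanceAs (Group PUnit)

instance (P : Type) : MulAction (Triv P) P where
  smul _ p := p
  one_smul _ := rfl
  mul_smul _ _ _ := rfl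

instance (P : Type) [Preorder P] : SymSys P (Triv P) where
  F := ⊥
  mono _ _ _ h := h
  conj _ _ _ := Filter.mem_bot

variable {P : Type} [Preorder P]

lemma allHS (x : Name P) : IsHS (Triv P) x := by
  induction x with
  | mk ι A B ih => exact ⟨Filter.mem_bot, ih⟩

variable (P) in
abbrev HN : Type 1 := HS (P := P) (Triv P)

variable (P) in
abbrev GN : Type 1 := GM (P := P) (Triv P)

/-- general names -/
def mkH {ι : Type} (A : ι → HN P) (B : ι → LowerSet P) : HN P :=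
  ⟨Name.mk ι (fun i => (A i).1) B, allHS _⟩

lemma mkH_elim (gm : GN P) {ι : Type} {A : ι → HN P} {B : ι → LowerSet P} (h : mkH A B ∈ gm.S)
    {m : gm.M} (hm : gm.E m (gm.val (mkH A B))) :
    ∃ i, A i ∈ gm.S ∧ gm.val (A i) = m ∧ ∃ q ∈ gm.Γ, q ∈ B i := gm.std _ h m hm

lemma fmem_mkH {ι : Type} {A : ι → HN P} {B : ι → LowerSet P} {i : ι} {q : P} (h : q ∈ B i) :
    Fmem (A i).1 (mkH A B).1 q := Fmem.of_B (y := (mkH A B).1) (b := i) h

lemma transfer (gm : GN P) {Φ Ψ : Pred} (hΦ : Def Φ) (hΨ : Def Ψ) {w : ℕ → HN P}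
    (hw : ∀ i, w i ∈ gm.S) {p : P} (hp : p ∈ gm.Γ)
    (h : ∀ q ≤ p, Fc Φ w q → ∃ r ≤ q, Fc Ψ w r) (h1 : Φ gm.M gm.E fun i => gm.val (w i)) :
    Ψ gm.M gm.E fun i => gm.val (w i) := by
  obtain ⟨q, hq, h2, h3⟩ := gm.truthDef_le hΦ hw h1 hp
  exact Fc.reg hΨ (fun r hr => h r (hr.trans h2) (h3.mono hr)) gm hq hw

lemma dir3 (gm : GN P) {p q r : P} (hp : p ∈ gm.Γ) (hq : q ∈ gm.Γ) (hr : r ∈ gm.Γ) :
    ∃ s ∈ gm.Γ, s ≤ p ∧ s ≤ q ∧ s ≤ r := by
  obtain ⟨s, h1, h2, h3⟩ := gm.dir _ _ hp hq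
  obtain ⟨t, h4, h5, h6⟩ := gm.dir _ _ h1 hr
  exact ⟨t, h4, h5.trans h2, h5.trans h3, h6⟩

lemma dir_fin (gm : GN P) {p : P} (hp : p ∈ gm.Γ) (Q : ℕ → P → Prop)
    (hQ : ∀ k q r, Q k q → r ≤ q → Q k r) (m : ℕ) (h : ∀ k < m, ∃ q ∈ gm.Γ, Q k q) :
    ∃ q ≤ p, ∀ k < m, Q k q := by
  suffices ∃ q ∈ gm.Γ, q ≤ p ∧ ∀ k < m, Q k q from this.imp fun _ h => h.2
  induction m with
  | zero => exact ⟨p, hp, le_rfl, fun k hk => absurd hk (Nat.not_lt_zero k)⟩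
  | succ m ih =>
    obtain ⟨q, h1, h2, h3⟩ := ih fun k hk => h k (Nat.lt_succ_of_lt hk)
    obtain ⟨r, h4, h5⟩ := h m (Nat.lt_succ_self m)
    obtain ⟨s, h6, h7, h8⟩ := gm.dir _ _ h1 h4
    refine ⟨s, h6, h7.trans h2, fun k hk => ?_⟩
    rcases Nat.lt_succ_iff_lt_or_eq.1 hk with h | h
    · exact hQ _ _ _ (h3 k h) h7
    · exact h ▸ hQ _ _ _ h5 h8

/-- an assignment with two values -/
def w2 {X : Type*} (a b : X) : ℕ → X := cons a fun _ => b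

/-- an assignment with three values -/
def w3 {X : Type*} (a b c : X) : ℕ → X := cons a (w2 b c)

/-- an assignment with four values -/
def w4 {X : Type*} (a b c d : X) : ℕ → X := cons a (w3 b c d)

lemma mem2 {X : Type*} {S : Set X} {a b : X} (ha : a ∈ S) (hb : b ∈ S) : ∀ i, w2 a b i ∈ S :=
  forall_cons (Q := fun x => x ∈ S) ha fun _ => hb

lemma mem3 {X : Type*} {S : Set X} {a b c : X} (ha : a ∈ S) (hb : b ∈ S) (hc : c ∈ S) :
    ∀ i, w3 a b c i ∈ S := forall_cons (Q := fun x => x ∈ S) ha (mem2 hb hc)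

lemma mem4 {X : Type*} {S : Set X} {a b c d : X} (ha : a ∈ S) (hb : b ∈ S) (hc : c ∈ S)
    (hd : d ∈ S) : ∀ i, w4 a b c d i ∈ S := forall_cons (Q := fun x => x ∈ S) ha (mem3 hb hc hd)

lemma val_eq (gm : GN P) {a b : HN P} (ha : a ∈ gm.S) (hb : b ∈ gm.S) {q : P} (hq : q ∈ gm.Γ)
    (h : Feq a.1 b.1 q) : gm.val a = gm.val b := (gm.eq_iff ha hb).2 ⟨q, hq, h⟩

lemma val_mem (gm : GN P) {a b : HN P} (ha : a ∈ gm.S) (hb : b ∈ gm.S) {q : P} (hq : q ∈ gm.Γ)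
    (h : Fmem a.1 b.1 q) : gm.E (gm.val a) (gm.val b) := (gm.mem_iff ha hb).2 ⟨q, hq, h⟩

/-- names for relations -/
def relH {ι : Type} (a b : ι → HN P) (B : ι → LowerSet P) : HN P :=
  mkH (fun t => opH (a t) (b t)) B

lemma rel_iff (gm : GN P) {ι : Type} {a b : ι → HN P} {B : ι → LowerSet P}
    (hR : relH a b B ∈ gm.S) {x y : HN P} (hx : x ∈ gm.S) (hy : y ∈ gm.S) :
    Rel gm.E (gm.val (relH a b B)) (gm.val x) (gm.val y) ↔
      ∃ t, ∃ q ∈ gm.Γ, q ∈ B t ∧ Feq x.1 (a t).1 q ∧ Feq y.1 (b t).1 q := by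
  constructor
  · rintro ⟨z, h1, h2⟩
    obtain ⟨t, h3, rfl, q, h4, h5⟩ := mkH_elim gm hR h1
    obtain ⟨r, h6, h7, h8⟩ := gm.truthDef_le (Def.op 0 1 2) (mem3 h3 hx hy) h2 h4
    have key : ∀ g : GN P, r ∈ g.Γ → {x, y, a t, b t, opH (a t) (b t)} ⊆ g.S →
        g.val x = g.val (a t) ∧ g.val y = g.val (b t) := by
      intro g k1 k2
      have k3 : opH (a t) (b t) ∈ g.S := k2 (by simp)
      exact (h8 g k1 (mem3 k3 (k2 (by simp)) (k2 (by simp)))).inj g.isZF.pair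
        (g.op_spec (k2 (by simp)) (k2 (by simp)) k3)
    exact ⟨t, r, h6, lmono h5 h7,
      feq_of_gm _ (Set.to_countable _) fun g k1 _ _ k2 => (key g k1 k2).1,
      feq_of_gm _ (Set.to_countable _) fun g k1 _ _ k2 => (key g k1 k2).2⟩
  · rintro ⟨t, q, h1, h2, h3, h4⟩
    refine Fc.of_extra (Def.rel 0 1 2) (w := w3 (relH a b B) x y) {a t, b t, opH (a t) (b t)}
      (Set.to_countable _) ?_ gm h1 (mem3 hR hx hy)
    intro g k1 k2 k3
    have ka : a t ∈ g.S := k3 (by simp)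
    have kb : b t ∈ g.S := k3 (by simp)
    have kc : opH (a t) (b t) ∈ g.S := k3 (by simp)
    refine ⟨_, val_mem g kc (k2 0) k1 (fmem_mkH h2), ?_⟩
    show OP g.E _ (g.val x) (g.val y)
    rw [val_eq g (a := x) (k2 1) ka k1 h3, val_eq g (a := y) (k2 2) kb k1 h4]
    exact g.op_spec ka kb kc

lemma rel_unique (gm : GN P) {ι : Type} {a b : ι → HN P} {B : ι → LowerSet P}
    (hR : relH a b B ∈ gm.S) {p : P} (hp : p ∈ gm.Γ)
    (hf : ∀ t t', ∀ q ≤ p, q ∈ B t → q ∈ B t' → Feq (a t).1 (a t').1 q → Feq (b t).1 (b t').1 q)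
    {x y y' : gm.M} (h1 : Rel gm.E (gm.val (relH a b B)) x y)
    (h2 : Rel gm.E (gm.val (relH a b B)) x y') : y = y' := by
  obtain ⟨x, hx, rfl⟩ := gm.surj x
  obtain ⟨y, hy, rfl⟩ := gm.surj y
  obtain ⟨y', hy', rfl⟩ := gm.surj y'
  obtain ⟨t, q, k1, k2, k3, k4⟩ := (rel_iff gm hR hx hy).1 h1
  obtain ⟨t', q', l1, l2, l3, l4⟩ := (rel_iff gm hR hx hy').1 h2
  obtain ⟨s, m1, m2, m3, m4⟩ := dir3 gm hp k1 l1
  exact val_eq gm hy hy' m1 (((k4.mono m3).trans (hf t t' s m2 (lmono k2 m3) (lmono l2 m4)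
    ((k3.mono m3).symm.trans (l3.mono m4)))).trans (l4.mono m4).symm)

lemma rel_injective (gm : GN P) {ι : Type} {a b : ι → HN P} {B : ι → LowerSet P}
    (hR : relH a b B ∈ gm.S) {p : P} (hp : p ∈ gm.Γ)
    (hf : ∀ t t', ∀ q ≤ p, q ∈ B t → q ∈ B t' → Feq (b t).1 (b t').1 q → Feq (a t).1 (a t').1 q)
    {x x' y : gm.M} (h1 : Rel gm.E (gm.val (relH a b B)) x y)
    (h2 : Rel gm.E (gm.val (relH a b B)) x' y) : x = x' := by
  obtain ⟨x, hx, rfl⟩ := gm.surj x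
  obtain ⟨y, hy, rfl⟩ := gm.surj y
  obtain ⟨x', hx', rfl⟩ := gm.surj x'
  obtain ⟨t, q, k1, k2, k3, k4⟩ := (rel_iff gm hR hx hy).1 h1
  obtain ⟨t', q', l1, l2, l3, l4⟩ := (rel_iff gm hR hx' hy).1 h2
  obtain ⟨s, m1, m2, m3, m4⟩ := dir3 gm hp k1 l1
  exact val_eq gm hx hx' m1 (((k3.mono m3).trans (hf t t' s m2 (lmono k2 m3) (lmono l2 m4)
    ((k4.mono m3).symm.trans (l4.mono m4)))).trans (l3.mono m4).symm)

lemma def_le (i j : ℕ) : Def (fun _ E v => Le E (v i) (v j)) := Def.ex (Def.inj _ _ _)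

lemma def_up (i j k : ℕ) : Def (fun _ E v => UP E (v i) (v j) (v k)) :=
  Def.all (Def.iff (Def.mem _ _) (Def.or (Def.eq _ _) (Def.eq _ _)))

lemma def_col (i j k : ℕ) : Def (fun _ E v => Col E (v i) (v j) (v k)) := by
  unfold Col
  with_reducible repeat' first
    | exact Def.mem _ _ | exact Def.eq _ _ | exact Def.op _ _ _ | exact Def.rel _ _ _
    | exact def_up _ _ _ | exact (Def.eq _ _).not
    | apply Def.not | apply Def.and | apply Def.or | apply Def.iff | apply Def.imp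
    | apply Def.all | apply Def.ex | apply Def.exu

lemma path_zero {M : Type} (E : M → M → Prop) (c i A C a b : M) :
    Path E c i A C a b 0 ↔ a = b ∧ E a A ∧ ¬ E a C := by
  constructor
  · rintro ⟨γ, rfl, rfl, h, -⟩
    exact ⟨rfl, h 0 le_rfl⟩
  · rintro ⟨rfl, h⟩
    exact ⟨fun _ => a, rfl, rfl, fun _ _ => h, fun j hj => absurd hj (Nat.not_lt_zero j)⟩

lemma path_succ {M : Type} (E : M → M → Prop) (c i A C a b : M) (l : ℕ) :
    Path E c i A C a b (l + 1) ↔ (E a A ∧ ¬ E a C) ∧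
      ∃ a', (∃ u, UP E u a a' ∧ Rel E c u i) ∧ Path E c i A C a' b l := by
  constructor
  · rintro ⟨γ, rfl, rfl, h1, h2⟩
    exact ⟨h1 0 (Nat.zero_le _), γ 1, h2 0 (Nat.succ_pos l), fun j => γ (j + 1), rfl, rfl,
      fun j hj => h1 (j + 1) (Nat.succ_le_succ hj), fun j hj => h2 (j + 1) (Nat.succ_lt_succ hj)⟩
  · rintro ⟨h0, a', h1, γ, rfl, rfl, h2, h3⟩
    refine ⟨cons a γ, rfl, rfl, fun j hj => ?_, fun j hj => ?_⟩
    · cases j with
      | zero => exact h0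
      | succ j => exact h2 j (Nat.le_of_succ_le_succ hj)
    · cases j with
      | zero => exact h1
      | succ j => exact h3 j (Nat.lt_of_succ_lt_succ hj)

lemma def_path (l : ℕ) : ∀ c i A C a b : ℕ,
    Def (fun _ E v => Path E (v c) (v i) (v A) (v C) (v a) (v b) l) := by
  induction l with
  | zero =>
    intro c i A C a b
    exact ((Def.eq a b).and ((Def.mem a A).and (Def.mem a C).not)).congr
      fun _ E v => path_zero E _ _ _ _ _ _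
  | succ l ih =>
    intro c i A C a b
    refine Def.congr ?_ fun _ E v => path_succ E _ _ _ _ _ _ l
    exact ((Def.mem a A).and (Def.mem a C).not).and (Def.ex ((Def.ex ((def_up _ _ _).and
      (Def.rel _ _ _))).and (ih (c + 1) (i + 1) (A + 1) (C + 1) 0 (b + 1))))

lemma def_exlt {Φ : ℕ → Pred} (h : ∀ l, Def (Φ l)) (m : ℕ) :
    Def (fun M E v => ∃ l < m, Φ l M E v) := by
  induction m with
  | zero => exact Def.false.congr fun _ _ _ => by simp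
  | succ m ih => exact (ih.or (h m)).congr fun _ _ _ => Nat.exists_lt_succ_right

/-- the property of a homogeneous set -/
def Body {M : Type} (E : M → M → Prop) (c i A k : M) (m : ℕ) : Prop :=
  ∀ C, Sub E C A → ¬ Le E k C → ∀ a b, E a A → ¬ E a C → E b A → ¬ E b C →
    ∃ l < m, Path E c i A C a b l

lemma def_body (c i A k m : ℕ) : Def (fun _ E v => Body E (v c) (v i) (v A) (v k) m) :=
  Def.all ((Def.sub _ _).imp ((def_le _ _).not.imp (Def.all (Def.all ((Def.mem _ _).imp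
    ((Def.mem _ _).not.imp ((Def.mem _ _).imp ((Def.mem _ _).not.imp
      (def_exlt (fun l => def_path l (c + 1 + 1 + 1) (i + 1 + 1 + 1) (A + 1 + 1 + 1)
        (0 + 1 + 1) (0 + 1) 0) m)))))))))

lemma Inj.rel_mem {M : Type} {E : M → M → Prop} (h : IsZF E) {f X Y x y : M} (h1 : Inj E f X Y)
    (h2 : Rel E f x y) : E x X ∧ E y Y := by
  obtain ⟨p, k1, k2⟩ := h2
  obtain ⟨x', y', k3, k4, k5⟩ := h1.1 p k1
  obtain ⟨rfl, rfl⟩ := k2.inj h.pair k5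
  exact ⟨k3, k4⟩

lemma Le.mono {M : Type} {E : M → M → Prop} {X Y Z : M} (h1 : Le E X Y) (h2 : Sub E Y Z) :
    Le E X Z := by
  obtain ⟨f, k1, k2⟩ := h1
  refine ⟨f, fun p hp => ?_, k2⟩
  obtain ⟨x, y, l1, l2, l3⟩ := k1 p hp
  exact ⟨x, y, l1, h2 y l2, l3⟩

/-- forcing an injection -/
lemma fc_le {ι : Type} (a b : ι → HN P) (B : ι → LowerSet P) {X Y : HN P} {p : P}
    (hdom : ∀ t, ∀ q ≤ p, q ∈ B t → Fmem (a t).1 X.1 q ∧ Fmem (b t).1 Y.1 q)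
    (htot : ∀ x : HN P, ∀ q ≤ p, Fmem x.1 X.1 q → ∃ r ≤ q, ∃ t, r ∈ B t ∧ Feq x.1 (a t).1 r)
    (hf : ∀ t t', ∀ q ≤ p, q ∈ B t → q ∈ B t' → Feq (a t).1 (a t').1 q → Feq (b t).1 (b t').1 q)
    (hi : ∀ t t', ∀ q ≤ p, q ∈ B t → q ∈ B t' → Feq (b t).1 (b t').1 q → Feq (a t).1 (a t').1 q) :
    Fc (fun _ E v => Le E (v 0) (v 1)) (w2 X Y) p := by
  refine Fc.of_extra (def_le 0 1) {relH a b B} (Set.to_countable _) ?_
  intro gm hp hw hR
  have hR : relH a b B ∈ gm.S := hR rfl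
  refine ⟨gm.val (relH a b B), fun z hz => ?_, fun x hx => ?_,
    fun x x' y => rel_injective gm hR hp hi⟩
  · obtain ⟨t, h3, rfl, q, h4, h5⟩ := mkH_elim gm hR hz
    obtain ⟨r, h6, h7, h8⟩ := gm.dir _ _ hp h4
    have hd : Def (fun _ E v => ∃ x y, E x (v 1) ∧ E y (v 2) ∧ OP E (v 0) x y) :=
      Def.ex (Def.ex ((Def.mem _ _).and ((Def.mem _ _).and (Def.op _ _ _))))
    refine Fc.of_extra hd (w := w3 (opH (a t) (b t)) X Y) {a t, b t}
      (Set.to_countable _) ?_ gm h6 (mem3 h3 (hw 0) (hw 1))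
    intro g k1 k2 k3
    have ka : a t ∈ g.S := k3 (by simp)
    have kb : b t ∈ g.S := k3 (by simp)
    have := hdom t r h7 (lmono h5 h8)
    exact ⟨_, _, val_mem g ka (k2 1) k1 this.1, val_mem g kb (k2 2) k1 this.2,
      g.op_spec ka kb (k2 0)⟩
  · obtain ⟨x, hxS, rfl⟩ := gm.surj x
    have hd : Def (fun _ E v => ∃ y, Rel E (v 2) (v 0) y) := Def.ex (Def.rel _ _ _)
    obtain ⟨y, hy⟩ := transfer gm (Def.mem 0 1) hd (mem3 hxS (hw 0) hR) hp (by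
      intro q hq h1
      obtain ⟨r, h2, t, h3, h4⟩ := htot x q hq ((fc_mem 0 1 _ q).1 h1)
      refine ⟨r, h2, Fc.of_extra hd {b t} (Set.to_countable _) fun g k1 k2 k3 => ?_⟩
      exact ⟨_, (rel_iff g (k2 2) (k2 0) (k3 rfl)).2 ⟨t, r, k1, h3, h4, Feq.refl _ _⟩⟩) hx
    exact ⟨y, hy, fun y' hy' => rel_unique gm hR hp hf hy' hy⟩

theorem choice (gm : GN P) : Choice gm.E := by
  intro a ha
  obtain ⟨a, haS, rfl⟩ := gm.surj a
  obtain ⟨p, hp⟩ := gm.nonempty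
  let T := Σ i : a.1.ι, (a.sub i).1.ι
  let Y : T → HN P := fun t => (a.sub t.1).sub t.2
  let B : a.1.ι × T → LowerSet P := fun t => ⟨{q | Fmem (Y t.2).1 (a.sub t.1).1 q ∧
      ∀ t', WellOrderingRel t' t.2 → ∀ s ≤ q, ¬ Fmem (Y t').1 (a.sub t.1).1 s},
    fun _ _ h hq => ⟨hq.1.mono h, fun t' h1 s hs => hq.2 t' h1 s (hs.trans h)⟩⟩
  have hd : Def (fun _ E v => ∃ f, ∀ x, E x (v 0) → (∃ y, E y x) →
      ∃ y, E y x ∧ ∀ z, Rel E f x z ↔ z = y) :=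
    Def.ex (Def.all ((Def.mem _ _).imp ((Def.ex (Def.mem _ _)).imp (Def.ex ((Def.mem _ _).and
      (Def.all ((Def.rel _ _ _).iff (Def.eq _ _))))))))
  obtain ⟨f, hf⟩ := Fc.of_extra hd (w := fun _ => a) (p := p)
    {relH (fun t => a.sub t.1) (fun t => Y t.2) B} (Set.to_countable _) (by
      intro g k1 k2 k3
      have hR := k3 rfl
      refine ⟨g.val (relH (fun t => a.sub t.1) (fun t => Y t.2) B), fun x hx hne => ?_⟩
      obtain ⟨i, h1, rfl, -⟩ := g.std a (k2 0) x hx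
      have hd1 : Def (fun _ E v => ∃ y, E y (v 1)) := Def.ex (Def.mem _ _)
      have hd2 : Def (fun _ E v => ∃ y, E y (v 1) ∧ Rel E (v 0) (v 1) y) :=
        Def.ex ((Def.mem _ _).and (Def.rel _ _ _))
      obtain ⟨y, l1, l2⟩ := transfer g hd1 hd2 (mem2 hR h1) k1 (by
        intro q _ h2
        obtain ⟨g', m1, m2, -⟩ := exists_gm' q
          (w2 (relH (fun t => a.sub t.1) (fun t => Y t.2) B) (a.sub i)) ∅ Set.countable_empty
        obtain ⟨y, hy⟩ := h2 g' m1 m2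
        obtain ⟨j, -, -, r, m3, m4⟩ := g'.std _ (m2 1) y hy
        obtain ⟨s, -, m5, m6⟩ := g'.dir _ _ m1 m3
        obtain ⟨t, ⟨s', n1, n2⟩, n3⟩ := (IsWellFounded.wf (r := (WellOrderingRel : T → T → Prop))).has_min
          {t | ∃ s ≤ q, Fmem (Y t).1 (a.sub i).1 s} ⟨⟨i, j⟩, s, m5, Fmem.of_B (lmono m4 m6)⟩
        refine ⟨s', n1, Fc.of_extra hd2 {Y t} (Set.to_countable _) fun g2 o1 o2 o3 => ?_⟩
        exact ⟨_, val_mem g2 (o3 rfl) (o2 1) o1 n2, (rel_iff g2 (o2 0) (o2 1) (o3 rfl)).2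
          ⟨(i, t), s', o1, ⟨n2, fun t' h s hs h' => n3 t' ⟨s, hs.trans n1, h'⟩ h⟩,
            Feq.refl _ _, Feq.refl _ _⟩⟩) hne
      refine ⟨y, l1, fun z => ⟨fun hz => rel_unique g hR k1 ?_ hz l2, fun h => h ▸ l2⟩⟩
      rintro ⟨i1, t1⟩ ⟨i2, t2⟩ q _ ⟨m1, m2⟩ ⟨m3, m4⟩ e
      rcases trichotomous_of WellOrderingRel t1 t2 with h | h | h
      · exact absurd (m1.congr_right e) (m4 t1 h q le_rfl)
      · subst h; exact Feq.refl _ _
      · exact absurd (m3.congr_right e.symm) (m2 t2 h q le_rfl)) gm hp (fun _ => haS)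
  exact ⟨f, fun x hx => hf x hx (ha x hx)⟩

end Pool.Agent.Lib.MP_fcebdf_lc
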