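import Pool.Agent.Lib.MP_fcebdf_lc.Sys

set_option autoImplicit false

namespace Pool.Agent.Lib.MP_fcebdf_lc

open Filter Set Cond

variable {K F : Type} [LinearOrder K] [Tol F]

/-- coordinates at which two rows are not close -/
def Bad (q : Cond K F) (α γ : K) : Set (K × ℕ) :=
  {c | ¬ (c.1 ∈ q.a ∧ c.1 < α ∧ c.1 < γ → Tol.r (q.x α c) (q.x γ c))}

lemma bad_finite {q : Cond K F} {α γ : K} (h1 : α ∈ q.a) (h2 : γ ∈ q.a) : (Bad q α γ).Finite :=
  eventually_cofinite.1 (q.close α h1 γ h2)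

lemma bad_mono {p q : Cond K F} (h : q ≤ p) {α γ : K} (h1 : α ∈ p.a) (h2 : γ ∈ p.a) :
    Bad q α γ = Bad p α γ := by
  ext c
  refine not_congr ⟨fun k l => ?_, fun k l => ?_⟩
  · rw [← agree h h1 l.1 l.2.1, ← agree h h2 l.1 l.2.2]
    exact k ⟨sub h l.1, l.2⟩
  · by_cases hc : c.1 ∈ p.a
    · rw [agree h h1 hc l.2.1, agree h h2 hc l.2.2]
      exact k ⟨hc, l.2⟩
    · exact r_of_eq (newcol h l.1 hc h1 h2 l.2.1 l.2.2)

lemma bad_symm (q : Cond K F) (α γ : K) : Bad q α γ = Bad q γ α := by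
  ext c
  exact not_congr ⟨fun k l => Tol.symm _ _ (k ⟨l.1, l.2.2, l.2.1⟩),
    fun k l => Tol.symm _ _ (k ⟨l.1, l.2.2, l.2.1⟩)⟩

/-- the colour of a pair -/
noncomputable def col (L : ℕ) (q : Cond K F) (α γ : K) : ℕ × List F :=
  ((Bad q α γ).ncard, (List.range (L * (Bad q α γ).ncard + 1)).map fun k => q.x γ (α, k))

lemma col_mono (L : ℕ) {p q : Cond K F} (h : q ≤ p) {α γ : K} (h1 : α ∈ p.a) (h2 : γ ∈ p.a)
    (hlt : α < γ) : col L q α γ = col L p α γ := by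
  unfold col
  rw [bad_mono h h1 h2]
  congr 2
  funext k
  exact agree h h2 h1 hlt

lemma no_path [Inhabited F] {L : ℕ} (d : F → F → ℕ) (hd0 : ∀ u, d u u = 0)
    (hds : ∀ v u u', Tol.r u u' → d v u' ≤ d v u + 1) {q : Cond K F} {α β : K} (hlt : α < β)
    (hα : α ∈ q.a) (t : ℕ × List F)
    (hβ : ∀ k < L * t.1 + 1, d (t.2.getD k default) (q.x β (α, k)) = L + 1)
    {m : ℕ} (hm : m ≤ L + 1) (γ : ℕ → K) (h0 : γ 0 = α) (h1 : γ m = β)
    (h2 : ∀ k ≤ m, γ k = α ∨ β ≤ γ k)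
    (h3 : ∀ k < m, γ k ∈ q.a ∧ γ (k + 1) ∈ q.a ∧
      ((γ k < γ (k + 1) ∧ col L q (γ k) (γ (k + 1)) = t) ∨
        (γ (k + 1) < γ k ∧ col L q (γ (k + 1)) (γ k) = t))) : False := by
  classical
  let G : ℕ → ℕ → Finset ℕ := fun j e =>
    (Finset.range (L * t.1 + 1)).filter fun k => e < d (t.2.getD k default) (q.x (γ j) (α, k))
  have key : ∀ j ≤ m, γ j = α ∨ ∃ e, e < j ∧ (G j e).card ≤ e * t.1 := by
    intro j
    induction j with
    | zero => exact fun _ => Or.inl h0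
    | succ j ih =>
      intro hj
      obtain ⟨m1, m2, m3⟩ := h3 j hj
      rcases h2 (j + 1) hj with k1 | k1
      · exact Or.inl k1
      right
      have k2 : α < γ (j + 1) := hlt.trans_le k1
      by_cases ha : γ j = α
      · refine ⟨0, Nat.succ_pos j, ?_⟩
        rw [ha] at m3
        obtain ⟨-, m4⟩ := m3.resolve_right fun h => lt_asymm k2 h.1
        have : G (j + 1) 0 = ∅ := by
          refine Finset.filter_eq_empty_iff.2 fun k hk => ?_
          rw [Finset.mem_range] at hk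
          have e1 : t.2.getD k default = q.x (γ (j + 1)) (α, k) := by
            rw [← m4] at hk ⊢
            simp only [col] at hk ⊢
            rw [List.getD_eq_getElem _ _ (by simpa using hk)]
            simp
          rw [e1, hd0]
          exact lt_irrefl 0
        rw [this]
        simp
      · obtain ⟨e, l1, l2⟩ := (ih (Nat.le_of_succ_le hj)).resolve_left ha
        have k3 : α < γ j := hlt.trans_le ((h2 j (Nat.le_of_succ_le hj)).resolve_left ha)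
        have hb : (Bad q (γ j) (γ (j + 1))).ncard = t.1 := by
          rcases m3 with ⟨-, m4⟩ | ⟨-, m4⟩
          · rw [← m4]; rfl
          · rw [← m4, bad_symm]; rfl
        have hfin := bad_finite m1 m2
        refine ⟨e + 1, Nat.succ_lt_succ l1, ?_⟩
        have hsub : G (j + 1) (e + 1) ⊆ G j e ∪ hfin.toFinset.image Prod.snd := by
          intro k hk
          rw [Finset.mem_filter] at hk
          rw [Finset.mem_union]
          by_cases hc : (α, k) ∈ Bad q (γ j) (γ (j + 1))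
          · exact Or.inr (Finset.mem_image.2 ⟨(α, k), hfin.mem_toFinset.2 hc, rfl⟩)
          · left
            have := hds (t.2.getD k default) _ _ (not_not.1 hc ⟨hα, k3, k2⟩)
            exact Finset.mem_filter.2 ⟨hk.1, by have := hk.2; omega⟩
        have c1 := Finset.card_le_card hsub
        have c2 := Finset.card_union_le (G j e) (hfin.toFinset.image Prod.snd)
        have c3 := Finset.card_image_le (s := hfin.toFinset) (f := Prod.snd)
        rw [← Set.ncard_eq_toFinset_card _ hfin, hb] at c3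
        rw [Nat.succ_mul]
        omega
  obtain ⟨e, l1, l2⟩ := (key m le_rfl).resolve_left (h1 ▸ hlt.ne')
  have : G m e = Finset.range (L * t.1 + 1) := by
    refine Finset.filter_true_of_mem fun k hk => ?_
    rw [h1, hβ k (Finset.mem_range.1 hk)]
    omega
  rw [this, Finset.card_range] at l2
  have := Nat.mul_le_mul_right t.1 (show e ≤ L by omega)
  omega

variable (U : Ultrafilter K) [NU U] [Countable F] [Inhabited F]

include U in
theorem lower {L : ℕ} (d : F → F → ℕ) (hd0 : ∀ u, d u u = 0)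
    (hds : ∀ v u u', Tol.r u u' → d v u' ≤ d v u + 1) (anti : F → F)
    (hanti : ∀ v, d v (anti v) = L + 1) :
    ∃ D : K → K → ℕ → Cond K F → Prop, (∀ α β n p q, D α β n p → q ≤ p → D α β n q) ∧
      (∀ α β, α < β → ∀ p, ∃ q ≤ p, ∃ n, D α β n q) ∧
      (∀ α β n p, D α β n p → α < β) ∧
      (∀ α β n n' p, D α β n p → D α β n' p → n = n') ∧
      ∀ (p : Cond K F) (n : ℕ) (S : K → Cond K F → Prop), (∀ β p q, S β p → q ≤ p → S β q) →
        (∀ δ, ∃ β, δ ≤ β ∧ ∃ q ≤ p, S β q) → ∃ q ≤ p, ∃ α β, α < β ∧ S α q ∧ S β q ∧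
          ∀ q' ≤ q, ∀ m ≤ L + 1, ∀ γ : ℕ → K, γ 0 = α → γ m = β →
            (∀ k ≤ m, γ k = α ∨ β ≤ γ k) →
            ¬ ∀ k < m, D (γ k) (γ (k + 1)) n q' ∨ D (γ (k + 1)) (γ k) n q' := by
  classical
  obtain ⟨enc, henc⟩ := exists_injective_nat (ℕ × List F)
  refine ⟨fun α β n q => α < β ∧ α ∈ q.a ∧ β ∈ q.a ∧ enc (col L q α β) = n,
    fun α β n p q ⟨h1, h2, h3, h4⟩ h => ⟨h1, sub h h2, sub h h3, col_mono L h h2 h3 h1 ▸ h4⟩,
    fun α β h p => ?_, fun _ _ _ _ h => h.1, fun _ _ _ _ _ h h' => h.2.2.2.symm.trans h'.2.2.2,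
    fun p n S hS hu => ?_⟩
  · obtain ⟨q, h1, h2⟩ := p.add_points {α, β} (Set.to_countable _)
    exact ⟨q, h1, _, h, h2 (by simp), h2 (by simp), rfl⟩
  obtain ⟨t, ht⟩ : ∃ t, ∀ t', enc t' = n → t' = t := by
    by_cases h : ∃ t, enc t = n
    · obtain ⟨t, rfl⟩ := h
      exact ⟨t, fun t' h => henc h⟩
    · exact ⟨default, fun t' h' => absurd ⟨t', h'⟩ h⟩
  choose b hb W0 h1 h2 using hu
  choose W h3 h4 using fun γ => (W0 γ).add_points {γ, b γ} (Set.to_countable _)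
  have h5 : ∀ γ, γ ∈ (W γ).a := fun γ => h4 γ (by simp)
  have h6 : ∀ γ, b γ ∈ (W γ).a := fun γ => h4 γ (by simp)
  obtain ⟨ρ, hρ⟩ := exists_rt (U := U) (Eventually.of_forall h5)
  obtain ⟨γ0, k1, k2⟩ := ((ae_compat hρ hρ (JC.self hρ)).and (ae_bdd U ρ.ctbl)).exists
  obtain ⟨z, hz⟩ := (W γ0).exists_toprow
  let y : K × ℕ → F := fun c =>
    if c.1 = b γ0 ∧ c.2 < L * t.1 + 1 then anti (t.2.getD c.2 default) else z c
  have hy : ∀ᶠ c : K × ℕ in cofinite, y c = z c := by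
    have : ({c : K × ℕ | c.1 = b γ0 ∧ c.2 < L * t.1 + 1}).Finite :=
      ((Set.finite_singleton (b γ0)).prod (Set.finite_Iio (L * t.1 + 1))).subset
        fun c h => mem_prod.2 h
    filter_upwards [this.compl_mem_cofinite] with c hc
    exact if_neg hc
  obtain ⟨V, l1, l2, l3⟩ := k1 y (fun α hα => by
    filter_upwards [hy, hz α hα] with c m1 m2
    rw [m1]; exact m2)
  obtain ⟨γ1, m1, m2, m3, m4, m5⟩ := (l1.and (l2.and (hρ.and ((NU.tail (U := U) (b γ0)).and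
    (ld_spec U V (W γ0).ctbl))))).exists
  have hlt : b γ0 < b γ1 := m4.trans_le (hb γ1)
  refine ⟨V γ1, m1.trans ((h3 _).trans (h1 _)), b γ0, b γ1, hlt,
    hS _ _ _ (h2 γ0) (m2.2.1.trans (h3 _)), hS _ _ _ (h2 γ1) (m1.trans (h3 _)),
    fun q' hq' m hm γ n1 n2 n3 n4 => ?_⟩
  have hα : b γ0 ∈ (V γ1).a := sub m2.2.1 (h6 γ0)
  refine no_path d hd0 hds hlt (sub hq' hα) t (fun k hk => ?_) hm γ n1 n2 n3 fun k hk => ?_
  · rw [agree hq' (c := (b γ0, k)) (sub m1 (h6 γ1)) hα hlt,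
      newcol m1 (c := (b γ0, k)) hα (fun h => not_lt.2 (hb γ0) (k2 _ (m3.2.2 _ h m4))) (h6 γ1)
        (h5 γ1) hlt m4, m5 (b γ0, k) (h6 γ0), l3 (b γ0, k) (h6 γ0) (hb γ0)]
    simp only [y, hk, and_self, if_true]
    exact hanti _
  · rcases n4 k hk with ⟨p1, p2, p3, p4⟩ | ⟨p1, p2, p3, p4⟩
    · exact ⟨p2, p3, Or.inl ⟨p1, ht _ p4⟩⟩
    · exact ⟨p3, p2, Or.inr ⟨p1, ht _ p4⟩⟩

include U in
omit [Countable F] in
theorem collapse (anti : F → F) (hanti : ∀ v, anti v ≠ v) {w : K} (hw : ¬ (Iio w).Countable)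
    (lam : K) : ∃ H : K → K → Cond K F → Prop, (∀ ξ η p q, H ξ η p → q ≤ p → H ξ η q) ∧
      (∀ ξ η η' p, H ξ η p → H ξ η' p → η = η') ∧
      ∀ η < lam, ∀ p, ∃ q ≤ p, ∃ ξ < w, H ξ η q := by
  classical
  obtain ⟨u, hu1, hu2⟩ := exists_inj_into' U (NU.tail (U := U) lam)
  refine ⟨fun ξ η q => η < lam ∧ η ∈ q.a ∧ u (ξ, false) ∈ q.a ∧ u (ξ, true) ∈ q.a ∧
    q.x (u (ξ, false)) (η, 0) ≠ q.x (u (ξ, true)) (η, 0) ∧
    ∀ η' ∈ q.a, η' < lam → η' ≠ η → q.x (u (ξ, false)) (η', 0) = q.x (u (ξ, true)) (η', 0),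
    ?_, ?_, fun η hη p => ?_⟩
  · rintro ξ η p q ⟨h1, h2, h3, h4, h5, h6⟩ h
    refine ⟨h1, sub h h2, sub h h3, sub h h4, ?_, fun η' k1 k2 k3 => ?_⟩
    · rwa [agree h (c := (η, 0)) h3 h2 (h1.trans (hu2 _)),
        agree h (c := (η, 0)) h4 h2 (h1.trans (hu2 _))]
    · by_cases hc : η' ∈ p.a
      · rw [agree h (c := (η', 0)) h3 hc (k2.trans (hu2 _)),
          agree h (c := (η', 0)) h4 hc (k2.trans (hu2 _))]
        exact h6 η' hc k2 k3
      · exact newcol h (c := (η', 0)) k1 hc h3 h4 (k2.trans (hu2 _)) (k2.trans (hu2 _))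
  · rintro ξ η η' p ⟨h1, h2, -, -, h5, -⟩ ⟨-, -, -, -, -, h6⟩
    by_contra h
    exact h5 (h6 η h2 h1 h)
  obtain ⟨p', h1, h2⟩ := p.add_point η
  have h3 : ({ξ | u (ξ, false) ∈ p'.a} ∪ {ξ | u (ξ, true) ∈ p'.a}).Countable :=
    (p'.ctbl.preimage_of_injOn (f := fun ξ => u (ξ, false))
      fun _ _ _ _ h => (Prod.ext_iff.1 (hu1 h)).1).union
    (p'.ctbl.preimage_of_injOn (f := fun ξ => u (ξ, true))
      fun _ _ _ _ h => (Prod.ext_iff.1 (hu1 h)).1)
  obtain ⟨ξ, k1, k2⟩ : ∃ ξ, ξ < w ∧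
      ξ ∉ {ξ | u (ξ, false) ∈ p'.a} ∪ {ξ | u (ξ, true) ∈ p'.a} := by
    by_contra h
    push Not at h
    exact hw (h3.mono h)
  have k3 : u (ξ, false) ∉ p'.a := fun h => k2 (Or.inl h)
  have k4 : u (ξ, true) ∉ p'.a := fun h => k2 (Or.inr h)
  have k5 : u (ξ, false) ≠ u (ξ, true) := fun h => by simpa using hu1 h
  obtain ⟨z, hz⟩ := p'.exists_toprow
  let t : K → K × ℕ → F := fun δ c => if δ = u (ξ, true) ∧ c = (η, 0) then anti (z c) else z c
  have ht : ∀ δ, ∀ᶠ c : K × ℕ in cofinite, t δ c = z c := by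
    intro δ
    filter_upwards [(Set.finite_singleton (η, 0)).compl_mem_cofinite] with c hc
    exact if_neg fun h => hc h.2
  obtain ⟨q, l1, l2, l3, l4⟩ := p'.add_rows {u (ξ, false), u (ξ, true)} (Set.to_countable _) t
    (fun δ _ α hα => by
      filter_upwards [ht δ, hz α hα] with c m1 m2
      rw [m1]; exact m2)
    (fun δ _ δ' _ => by
      filter_upwards [ht δ, ht δ'] with c m1 m2 _
      rw [m1, m2]; exact Tol.refl _)
  refine ⟨q, l1.trans h1, ξ, k1, hη, sub l1 h2, by rw [l2]; simp, by rw [l2]; simp, ?_,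
    fun η' _ _ m3 => ?_⟩
  · rw [l3 _ k3 (η, 0) h2, l3 _ k4 (η, 0) h2]
    simp only [t, k5, false_and, if_false, and_self, if_true]
    exact (hanti _).symm
  · by_cases hc : η' ∈ p'.a
    · rw [l3 _ k3 (η', 0) hc, l3 _ k4 (η', 0) hc]
      simp [t, m3]
    · rw [l4 _ (η', 0) hc, l4 _ (η', 0) hc]

end Pool.Agent.Lib.MP_fcebdf_lc
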