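import Pool.Agent.Lib.MP_fcebdf_lc.Sys

set_option autoImplicit false

namespace Pool.Agent.Lib.MP_fcebdf_lc

open Filter Set Cond

variable {K F : Type} [LinearOrder K] [Tol F] {U : Ultrafilter K} [NU U] [Countable F]
  [Inhabited F] (D : K → K → ℕ → Cond K F → Prop)

variable (U) in
/-- many members of `W` have edges of colour `n` into `W'` -/
def Edge (n : ℕ) (W W' : K → Cond K F) : Prop :=
  ∀ᶠ γ in (U : Filter K), ∃ V, LeS U V W' ∧
    ∀ᶠ γ' in (U : Filter K), V γ' ≤ W γ ∧ D γ γ' n (V γ')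

/-- edges persist below the pair -/
def Lnk (n : ℕ) (S : Sys U F Bool) : Prop := ∀ S' ≤ S, Edge U D n (S'.W false) (S'.W true)

variable {D}

omit [NU U] [Countable F] [Inhabited F] in
lemma Edge.up {n : ℕ} {W W' V V' : K → Cond K F} (h : Edge U D n V V') (h1 : LeS U V W)
    (h2 : LeS U V' W') : Edge U D n W W' := by
  filter_upwards [h, h1] with γ ⟨X, k1, k2⟩ k3
  exact ⟨X, k1.trans h2, k2.mono fun _ k => ⟨k.1.trans k3, k.2⟩⟩

omit [Inhabited F] in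
lemma Lnk.mono {n : ℕ} {S S' : Sys U F Bool} (h : Lnk D n S) (hS : S' ≤ S) : Lnk D n S' :=
  fun _ h' => h _ (h'.trans hS)

omit [Inhabited F] in
lemma Lnk.edge {ι : Type} {n : ℕ} {S S' : Sys U F ι} {i j : ι} (h : Lnk D n (S.pair i j))
    (hS : S' ≤ S) : Edge U D n (S'.W i) (S'.W j) := h _ (Sys.comap_mono hS _)

omit [Inhabited F] in
lemma pair_le {ι ι' : Type} {S : Sys U F ι} {S' : Sys U F ι'} {i j : ι} {i' j' : ι'}
    (h : S'.ρ ≤ S.ρ) (h1 : LeS U (S'.W i') (S.W i)) (h2 : LeS U (S'.W j') (S.W j))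
    (h3 : ∀ c : K × ℕ, c.1 ∈ S'.ρ.a → c.1 ∉ S.ρ.a →
      Tol.r (ld U (S'.W i') c) (ld U (S'.W j') c)) : S'.pair i' j' ≤ S.pair i j := by
  refine ⟨h, fun b => ?_, fun b b' c hc hn => ?_⟩
  · cases b
    · exact h1
    · exact h2
  · cases b <;> cases b'
    · exact Tol.refl _
    · exact h3 c hc hn
    · exact Tol.symm _ _ (h3 c hc hn)
    · exact Tol.refl _

lemma exists_edge (hd : ∀ α β, α < β → ∀ p, ∃ q ≤ p, ∃ n, D α β n q) (S : Sys U F Bool) :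
    ∃ n, Edge U D n (S.W false) (S.W true) := by
  apply ae_exists
  filter_upwards [ae_compat (S.rt false) (S.rt true) (S.jc true false)] with γ k
  obtain ⟨y, hy⟩ := (S.W false γ).exists_toprow
  obtain ⟨V, l1, l2, -⟩ := k y hy
  have h1 : ∀ᶠ γ' in (U : Filter K), ∃ q, q ≤ V γ' ∧ ∃ n, D γ γ' n q :=
    (NU.tail γ).mono fun γ' h => hd γ γ' h _
  obtain ⟨V', hV'⟩ := Filter.Eventually.choice h1
  obtain ⟨n, hn⟩ := ae_exists U (hV'.mono fun _ h => h.2)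
  refine ⟨n, V', LeS.trans (hV'.mono fun _ h => h.1) l1, ?_⟩
  filter_upwards [hV', hn, l2] with γ' m1 m2 m3
  exact ⟨m1.1.trans m3.2.1, m2⟩

lemma exists_lnk (hd : ∀ α β, α < β → ∀ p, ∃ q ≤ p, ∃ n, D α β n q) (S : Sys U F Bool) :
    ∃ S' ≤ S, ∃ n, Lnk D n S' := by
  by_contra h
  obtain ⟨T, -, hT⟩ := helper81.sigma_meet (P := Sys U F Bool) Sys.exists_lim
    (fun n (T : Sys U F Bool) => ¬ Edge U D n (T.W false) (T.W true)) S
    (fun n T T' h1 h2 h3 => h1 (h3.up (h2.2.1 false) (h2.2.1 true)))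
    (fun n T hT => by
      by_contra h'
      refine h ⟨T, hT, n, fun T' hT' => ?_⟩
      by_contra h''
      exact h' ⟨T', hT', h''⟩)
  obtain ⟨n, hn⟩ := exists_edge hd T
  exact hT n hn

lemma exists_colour (hd : ∀ α β, α < β → ∀ p, ∃ q ≤ p, ∃ n, D α β n q) (X0 : Sys U F Unit) :
    ∃ X ≤ X0, ∃ n, ∀ X' ≤ X, ∃ S ≤ X'.pair () (), Lnk D n S := by
  by_contra h
  obtain ⟨T, -, hT⟩ := helper81.sigma_meet (P := Sys U F Unit) Sys.exists_lim
    (fun n (T : Sys U F Unit) => ¬ ∃ S ≤ T.pair () (), Lnk D n S) X0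
    (fun n T T' h1 h2 ⟨S, h3, h4⟩ => h1 ⟨S, h3.trans (Sys.comap_mono h2 _), h4⟩)
    (fun n T hT => by
      by_contra h'
      refine h ⟨T, hT, n, fun T' hT' => ?_⟩
      by_contra h''
      exact h' ⟨T', hT', h''⟩)
  obtain ⟨S, h1, n, hn⟩ := exists_lnk hd (T.pair () ())
  exact hT n ⟨S, h1, hn⟩

lemma classes_step {n : ℕ} {X : Sys U F Unit} (hX : ∀ X' ≤ X, ∃ S ≤ X'.pair () (), Lnk D n S)
    (k : ℕ) (S : Sys U F ℕ) (h1 : ∀ i, k ≤ i → S.W i = S.W k)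
    (h2 : S.comap (fun _ => k) ≤ X) :
    ∃ S' ≤ S, (∀ i, k + 1 ≤ i → S'.W i = S'.W (k + 1)) ∧ S'.comap (fun _ => k + 1) ≤ X ∧
      ∀ j, k < j → Lnk D n (S'.pair k j) := by
  obtain ⟨S1, l1, l2⟩ := S.plus
  obtain ⟨P, p1, p2⟩ := hX (S1.comap fun _ => k) ((Sys.comap_mono l1 _).trans h2)
  have hY : LeS U (P.W false) (S.W k) := LeS.trans (p1.2.1 false) (l1.2.1 k)
  have hZ : LeS U (P.W true) (S.W k) := LeS.trans (p1.2.1 true) (l1.2.1 k)
  obtain ⟨S2, m1, m2, m3, m4, m5⟩ := S.graft (fun i => (l2 i).mono p1.1) k hZ (P.rt true)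
  have hYZ : ∀ c : K × ℕ, c.1 ∈ P.ρ.a → c.1 ∉ S.ρ.a →
      Tol.r (ld U (P.W false) c) (ld U (P.W true) c) := by
    intro c hc hn
    by_cases hq : c.1 ∈ S1.ρ.a
    · rw [ld_le (p1.2.1 false) (S1.rt k) c hq, ld_le (p1.2.1 true) (S1.rt k) c hq]
      exact Tol.refl _
    · exact p1.2.2 false true c hc hq
  let W : ℕ → K → Cond K F := fun i => if i < k then S2.W i else P.W (decide (k < i))
  have e1 : ∀ i, i < k → W i = S2.W i := fun i h => if_pos h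
  have e2 : ∀ i, k ≤ i → W i = P.W (decide (k < i)) := fun i h => if_neg (not_lt.2 h)
  have e3 : W k = P.W false := by rw [e2 k le_rfl]; simp
  have e4 : ∀ i, k < i → W i = P.W true := fun i h => by rw [e2 i h.le]; simp [h]
  have hrt : ∀ i, Rt U (W i) P.ρ := by
    intro i
    rcases lt_or_ge i k with h | h
    · rw [e1 i h, ← m2]; exact S2.rt i
    · rw [e2 i h]; exact P.rt _
  have hjc : ∀ i j, JC U (W i) (W j) P.ρ := by
    intro i j
    rcases lt_or_ge i k with h | h <;> rcases lt_or_ge j k with h' | h'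
    · rw [e1 i h, e1 j h', ← m2]; exact S2.jc i j
    · rw [e1 i h, e2 j h']; exact m5 _ (P.rt _) (P.jc _ _) i
    · rw [e2 i h, e1 j h']; exact (m5 _ (P.rt _) (P.jc _ _) j).symm
    · rw [e2 i h, e2 j h']; exact P.jc _ _
  have hld : ∀ i (c : K × ℕ), c.1 ∈ P.ρ.a → c.1 ∉ S.ρ.a →
      ld U (W i) c = ld U (P.W false) c ∨ ld U (W i) c = ld U (P.W true) c := by
    intro i c hc hn
    rcases lt_trichotomy i k with h | h | h
    · rw [e1 i h]; exact Or.inr (m4 i c hc hn)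
    · rw [h, e3]; exact Or.inl rfl
    · rw [e4 i h]; exact Or.inr rfl
  have hle : (⟨P.ρ, W, hrt, hjc⟩ : Sys U F ℕ) ≤ S := by
    refine ⟨p1.1.trans l1.1, fun i => ?_, fun i j c hc hn => ?_⟩
    · show LeS U (W i) _
      rcases lt_trichotomy i k with h | h | h
      · rw [e1 i h]; exact m1.2.1 i
      · rw [h, e3]; exact hY
      · rw [e4 i h, h1 i h.le]; exact hZ
    · show Tol.r (ld U (W i) c) (ld U (W j) c)
      rcases hld i c hc hn with h | h <;> rcases hld j c hc hn with h' | h' <;> rw [h, h']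
      · exact Tol.refl _
      · exact hYZ c hc hn
      · exact Tol.symm _ _ (hYZ c hc hn)
      · exact Tol.refl _
  refine ⟨_, hle, fun i hi => ?_, ?_, fun j hj => p2.mono ⟨le_rfl, fun b => ?_,
    fun _ _ _ k1 k2 => absurd k1 k2⟩⟩
  · show W i = W (k + 1)
    rw [e4 i hi, e4 _ (Nat.lt_succ_self k)]
  · refine ⟨hle.1.trans h2.1, fun _ => ?_, fun _ _ _ _ _ => Tol.refl _⟩
    show LeS U (W (k + 1)) _
    rw [e4 _ (Nat.lt_succ_self k)]
    exact hZ.trans (h2.2.1 ())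
  · cases b
    · show LeS U (W k) _
      rw [e3]; exact LeS.refl _
    · show LeS U (W j) _
      rw [e4 j hj]; exact LeS.refl _

lemma exists_classes (hd : ∀ α β, α < β → ∀ p, ∃ q ≤ p, ∃ n, D α β n q) (p : Cond K F) :
    ∃ (T : Sys U F ℕ) (n : ℕ), T.ρ ≤ p ∧ ∀ i j, i < j → Lnk D n (T.pair i j) := by
  choose W0 h1 h2 using fun β => p.add_point β
  obtain ⟨ρ, hρ⟩ := exists_rt (U := U) (Eventually.of_forall h2)
  obtain ⟨X, hX0, n, hX⟩ := exists_colour hd (Sys.const Unit hρ)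
  let I : ℕ → Sys U F ℕ → Prop := fun k S => (∀ i, k ≤ i → S.W i = S.W k) ∧
    S.comap (fun _ => k) ≤ X
  have step : ∀ k (S : {S // I k S}), ∃ S' : {S // I (k + 1) S}, S'.1 ≤ S.1 ∧
      ∀ j, k < j → Lnk D n (S'.1.pair k j) := by
    intro k S
    obtain ⟨S', k1, k2, k3, k4⟩ := classes_step hX k S.1 S.2.1 S.2.2
    exact ⟨⟨S', k2, k3⟩, k1, k4⟩
  choose nx hnx1 hnx2 using step
  let S : (k : ℕ) → {S // I k S} := fun k => Nat.rec
    ⟨X.comap fun _ => (), fun _ _ => rfl, le_refl X⟩ (fun k S => nx k S) k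
  obtain ⟨T, hT⟩ := Sys.exists_lim (fun k => (S k).1)
    (antitone_nat_of_succ_le fun k => hnx1 k (S k))
  refine ⟨T, n, (hT 0).1.trans (hX0.1.trans (hρ.le_of (Eventually.of_forall h1))),
    fun i j hij => (hnx2 i (S i) j hij).mono (Sys.comap_mono (hT (i + 1)) _)⟩

lemma exists_path (hm : ∀ α β n p q, D α β n p → q ≤ p → D α β n q) {n : ℕ} (m : ℕ) :
    ∀ (S : Sys U F ℕ), (∀ k < m, Lnk D n (S.pair k (k + 1))) → ∀ X ∈ U,
    ∃ (γ : ℕ → K) (q : Cond K F), (∀ k ≤ m, γ k ∈ X ∧ q ≤ S.W k (γ k)) ∧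
      ∀ k < m, γ k < γ (k + 1) ∧ D (γ k) (γ (k + 1)) n q := by
  induction m with
  | zero =>
    intro S _ X hX
    obtain ⟨β, hβ⟩ := U.nonempty_of_mem hX
    refine ⟨fun _ => β, S.W 0 β, fun k hk => ?_, fun k hk => absurd hk (Nat.not_lt_zero k)⟩
    rw [Nat.le_zero.1 hk]
    exact ⟨hβ, le_rfl⟩
  | succ m ih =>
    intro S hS X hX
    obtain ⟨S1, l1, l2⟩ := S.plus
    obtain ⟨γ0, ⟨V, k1, k2⟩, k3, k4⟩ :=
      (((hS 0 (Nat.succ_pos m)).edge l1).and ((l1.2.1 0).and hX)).exists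
    obtain ⟨s, hs⟩ := k1.exists_rt (S1.rt 1)
    obtain ⟨S2, m1, -, m3, -, -⟩ := S.graft (fun i => (l2 i).mono (hs.le (S1.rt 1) k1)) 1
      (k1.trans (l1.2.1 1)) hs
    have hX' : X ∩ {γ | γ0 < γ ∧ (V γ ≤ S1.W 0 γ0 ∧ D γ0 γ n (V γ)) ∧
        ∀ k, S2.W k γ ≤ S.W k γ} ∈ U :=
      inter_mem hX ((NU.tail γ0).and (k2.and (eventually_countable_forall.2 m1.2.1)))
    obtain ⟨γ, q, p1, p2⟩ := ih (S2.comap (· + 1))
      (fun k hk => (hS (k + 1) (Nat.succ_lt_succ hk)).mono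
        (pair_le m1.1 (m1.2.1 _) (m1.2.1 _) (m1.2.2 _ _))) _ hX'
    have hq : q ≤ V (γ 0) := m3 ▸ (p1 0 (Nat.zero_le m)).2
    refine ⟨fun k => Nat.rec γ0 (fun k _ => γ k) k, q, fun k hk => ?_, fun k hk => ?_⟩
    · cases k with
      | zero => exact ⟨k4, hq.trans ((p1 0 (Nat.zero_le m)).1.2.2.1.1.trans k3)⟩
      | succ k =>
        have := p1 k (Nat.le_of_succ_le_succ hk)
        exact ⟨this.1.1, this.2.trans (this.1.2.2.2 (k + 1))⟩
    · cases k with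
      | zero =>
        have := (p1 0 (Nat.zero_le m)).1.2
        exact ⟨this.1, hm _ _ _ _ _ this.2.1.2 hq⟩
      | succ k => exact p2 k (Nat.lt_of_succ_lt_succ hk)

variable (U D) in
/-- `α` is a good lower end point -/
def Good (n : ℕ) (T : ℕ → K → Cond K F) (r : Cond K F) (α : K) : Prop :=
  ∀ a b, a < b → ∀ q ≤ r, q ≤ T a α →
    ∃ V, LeS U V (T b) ∧ ∀ᶠ γ in (U : Filter K), V γ ≤ q ∧ D α γ n (V γ)

variable (U D) in
/-- there are densely many paths from `α` to `β` -/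
def Paths (L n : ℕ) (T : ℕ → K → Cond K F) (r : Cond K F) (α β : K) : Prop :=
  ∀ a b, ∀ q ≤ r, q ≤ T a α → q ≤ T b β → ∀ X ∈ U, ∃ q' ≤ q, ∃ γ : ℕ → K,
    (∀ k ≤ L, γ k ∈ X ∧ ∃ i, q' ≤ T i (γ k)) ∧
    (∀ k < L, γ k < γ (k + 1) ∧ D (γ k) (γ (k + 1)) n q') ∧ D α (γ 0) n q' ∧ D β (γ L) n q'

omit [Inhabited F] in
lemma ae_good {n : ℕ} {T : Sys U F ℕ} (hT : ∀ i j, i < j → Lnk D n (T.pair i j)) {r : Cond K F}
    (hr : ∀ i, Abs U r (T.W i) T.ρ) : ∀ᶠ α in (U : Filter K), Good U D n T.W r α := by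
  refine eventually_countable_forall.2 fun a => eventually_countable_forall.2 fun b => ?_
  by_cases hab : a < b
  swap
  · exact Eventually.of_forall fun _ h => absurd h hab
  by_contra h
  have h1 : ∀ᶠ α in (U : Filter K), ∃ q, q ≤ r ∧ q ≤ T.W a α ∧
      ¬ ∃ V, LeS U V (T.W b) ∧ ∀ᶠ γ in (U : Filter K), V γ ≤ q ∧ D α γ n (V γ) := by
    filter_upwards [Ultrafilter.eventually_not.2 h] with α hα
    by_contra h'
    exact hα fun _ q h1 h2 => by_contra fun h3 => h' ⟨q, h1, h2, h3⟩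
  obtain ⟨W, hW⟩ := Filter.Eventually.choice h1
  have h2 : LeS U W (T.W a) := hW.mono fun _ k => k.2.1
  obtain ⟨s, hs⟩ := h2.exists_rt (T.rt a)
  obtain ⟨S, m1, -, m3, -, -⟩ := T.graft
    (fun i => (hr i).mono (hs.le_of (hW.mono fun _ k => k.1))) a h2 hs
  have h3 := (hT a b hab).edge m1
  rw [m3] at h3
  obtain ⟨α, ⟨V, k1, k2⟩, -, -, k3⟩ := (h3.and hW).exists
  exact k3 ⟨V, k1.trans (m1.2.1 b), k2⟩

lemma ae_paths (hm : ∀ α β n p q, D α β n p → q ≤ p → D α β n q) {L : ℕ} (st : ℕ → F → F → F)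
    (h0 : ∀ u v, st 0 u v = u) (hL : ∀ u v, st (L + 1) u v = v)
    (hst : ∀ k u v, Tol.r (st k u v) (st (k + 1) u v))
    {n : ℕ} {T : Sys U F ℕ} (hT : ∀ i j, i < j → Lnk D n (T.pair i j)) {r : Cond K F}
    (hr : ∀ i, Abs U r (T.W i) T.ρ) {α : K} (hα : Good U D n T.W r α) :
    ∀ᶠ β in (U : Filter K), Paths U D L n T.W r α β := by
  classical
  refine eventually_countable_forall.2 fun a => eventually_countable_forall.2 fun b => ?_
  by_contra h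
  have h1 : ∀ᶠ β in (U : Filter K), ∃ q, q ≤ r ∧ q ≤ T.W a α ∧ q ≤ T.W b β ∧ ∃ X ∈ U,
      ¬ ∃ q' ≤ q, ∃ γ : ℕ → K, (∀ k ≤ L, γ k ∈ X ∧ ∃ i, q' ≤ T.W i (γ k)) ∧
        (∀ k < L, γ k < γ (k + 1) ∧ D (γ k) (γ (k + 1)) n q') ∧
        D α (γ 0) n q' ∧ D β (γ L) n q' := by
    filter_upwards [Ultrafilter.eventually_not.2 h] with β hβ
    by_contra h'
    exact hβ fun q h1 h2 h3 X hX => by_contra fun h4 => h' ⟨q, h1, h2, h3, X, hX, h4⟩
  obtain ⟨W, hW⟩ := Filter.Eventually.choice h1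
  have h2 : LeS U W (T.W b) := hW.mono fun _ k => k.2.2.1
  obtain ⟨s, hs⟩ := h2.exists_rt (T.rt b)
  obtain ⟨s', hs1, hs2, -⟩ := exists_abs (ι := Unit) (W := fun _ => W) (fun _ => hs)
    (fun _ _ => JC.self hs)
  have hsr : s' ≤ r := hs1.trans (hs.le_of (hW.mono fun _ k => k.1))
  obtain ⟨W1, a1, a2⟩ := hα a (max a b + 1) (by omega) s' hsr
    (hs1.trans (hs.le_of (hW.mono fun _ k => k.2.1)))
  obtain ⟨s1, a3⟩ := a1.exists_rt (T.rt _)
  have a4 : s1 ≤ s' := a3.le_of (a2.mono fun _ k => k.1)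
  have a5 : Abs U s1 W s := (hs2 ()).mono a4
  obtain ⟨y, b1, b2, b3⟩ := exists_val hs a5 (ld U W1) (fun α hα => Tr.row a3 a3.tr_ld hα)
  obtain ⟨Wt, c1, c2, c3⟩ := exists_ext hs a5.1 y b1 (fun w hw α hα => a5.rows hw hα) b2
  have c4 : JC U Wt W1 s1 := jc_ext a5 c3 a3 fun v hv =>
    b3 v (fun α hα => Tr.row a3 hv hα) (JC.self a3 _ _ a3.tr_ld hv)
  let Y : ℕ → K × ℕ → F := fun k c =>
    if Tol.r (ld U W1 c) (ld U Wt c) then ld U W1 c else st k (ld U W1 c) (ld U Wt c)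
  have hY : ∀ k, ∀ᶠ c : K × ℕ in cofinite, c.1 ∈ s1.a → Y k c = ld U W1 c := by
    intro k
    filter_upwards [c4 _ _ c2.tr_ld a3.tr_ld] with c k1 k2
    exact if_pos (Tol.symm _ _ (k1 k2))
  have hY0 : ∀ c, Y 0 c = ld U W1 c := fun c => by simp only [Y, h0, ite_self]
  have habs : ∀ i, Abs U s1 (T.W i) T.ρ := fun i => (hr i).mono (a4.trans hsr)
  choose V d1 d2 d3 using fun k => exists_ext (T.rt (max a b + 1 + k)) (habs 0).1 (Y k)
    (fun c hc hn η hη hlt => by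
      have e1 := ld_forced a1 (T.rt _) a3 c hc hn η hη hlt
      have e2 := ld_forced (c1.trans h2) (T.rt _) c2 c hc hn η hη hlt
      rw [← e1]
      exact if_pos (r_of_eq (e1.trans e2.symm)))
    (fun w hw η hη => (habs _).rows hw hη)
    (fun η hη => by
      filter_upwards [hY k, Tr.row a3 a3.tr_ld hη] with c k1 k2 k3
      rw [k1 k3.1]
      exact k2 ⟨k3.1, k3.2.2⟩)
  let Z : Option ℕ → K → Cond K F := fun i => match i with
    | none => Wt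
    | some 0 => W1
    | some (k + 1) => V (k + 1)
  have z1 : ∀ i, Rt U (Z i) s1 := by
    rintro (_ | _ | k)
    · exact c2
    · exact a3
    · exact d2 _
  have z2 : ∀ i v, Tr U (Z i) s1 v → AC (fun η => η ∈ s1.a ∧ η ∉ T.ρ.a) (ld U W1) v := by
    rintro (_ | _ | k) v hv
    · exact (c4 _ _ hv a3.tr_ld).symm.mono fun _ k l => k l.1
    · exact (JC.self a3 _ _ a3.tr_ld hv).mono fun _ k l => k l.1
    · filter_upwards [hY (k + 1)] with c k1 k2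
      rw [(d3 _ v hv).2 c k2.1 k2.2, k1 k2.1]
      exact Tol.refl _
  have z3 : ∀ k i, JC U (V k) (Z i) s1 := fun k i => jc_ext (habs _) (d3 k) (z1 i) fun v hv => by
    filter_upwards [hY k, z2 i v hv] with c k1 k2 k3
    rw [k1 k3.1]
    exact k2 k3
  have z4 : ∀ i j, JC U (Z i) (Z j) s1 := by
    rintro (_ | _ | k) (_ | _ | k')
    · exact JC.self c2
    · exact c4
    · exact (z3 _ none).symm
    · exact c4.symm
    · exact JC.self a3
    · exact (z3 _ (some 0)).symm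
    · exact z3 _ none
    · exact z3 _ (some 0)
    · exact z3 _ (some (k' + 1))
  have z5 : ∀ k, LeS U (Z (some k)) (T.W (max a b + 1 + k)) := by
    rintro (_ | k)
    · exact a1
    · exact d1 _
  have z6 : ∀ k (c : K × ℕ), c.1 ∈ s1.a → c.1 ∉ T.ρ.a → ld U (Z (some k)) c = Y k c := by
    rintro (_ | k) c hc hn
    · exact (hY0 c).symm
    · exact (d3 _ _ (d2 _).tr_ld).2 c hc hn
  let S : Sys U F (Option ℕ) := ⟨s1, Z, z1, z4⟩
  have l1 : ∀ k, Lnk D n (S.pair (some k) (some (k + 1))) := fun k =>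
    (hT _ _ (Nat.lt_succ_self (max a b + 1 + k))).mono
      (pair_le (habs 0).1 (z5 k) (z5 (k + 1)) fun c hc hn => by
        show Tol.r (ld U (Z (some k)) c) (ld U (Z (some (k + 1))) c)
        rw [z6 k c hc hn, z6 (k + 1) c hc hn]
        simp only [Y]
        split_ifs
        · exact Tol.refl _
        · exact hst _ _ _)
  have l2 : Lnk D n (S.pair none (some L)) :=
    (hT b (max a b + 1 + L) (by omega)).mono
      (pair_le (habs 0).1 (c1.trans h2) (z5 L) fun c hc hn => by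
        show Tol.r (ld U Wt c) (ld U (Z (some L)) c)
        rw [z6 L c hc hn]
        simp only [Y]
        split_ifs with hh
        · exact Tol.symm _ _ hh
        · have := hst L (ld U W1 c) (ld U Wt c)
          rw [hL] at this
          exact Tol.symm _ _ this)
  obtain ⟨S1, m1, m2⟩ := S.plus
  obtain ⟨β, ⟨V2, k1, k2⟩, k3, -, -, -, X, hX, k4⟩ :=
    ((l2.edge m1).and (((m1.2.1 none).trans c1).and hW)).exists
  obtain ⟨s2, hs2⟩ := k1.exists_rt (S1.rt _)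
  obtain ⟨S2, n1, -, n3, -, -⟩ := S.graft (fun i => (m2 i).mono (hs2.le (S1.rt _) k1)) (some L)
    (k1.trans (m1.2.1 _)) hs2
  have hX' : X ∩ {γ | (∀ k, S2.W (some k) γ ≤ T.W (max a b + 1 + k) γ) ∧
      S2.W (some 0) γ ≤ W1 γ ∧ (W1 γ ≤ s' ∧ D α γ n (W1 γ)) ∧
      (V2 γ ≤ S1.W none β ∧ D β γ n (V2 γ))} ∈ U :=
    inter_mem hX ((eventually_countable_forall.2 fun k => (n1.2.1 (some k)).trans (z5 k)).and
      ((n1.2.1 (some 0)).and (a2.and k2)))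
  obtain ⟨γ, q, p1, p2⟩ := exists_path hm L (S2.comap some)
    (fun k _ => (l1 k).mono (pair_le n1.1 (n1.2.1 _) (n1.2.1 _) (n1.2.2 _ _))) _ hX'
  have hq : q ≤ V2 (γ L) := n3 ▸ (p1 L le_rfl).2
  have t0 := p1 0 (Nat.zero_le L)
  have tL := (p1 L le_rfl).1.2.2.2.2
  exact k4 ⟨q, hq.trans (tL.1.trans k3), γ,
    fun k hk => ⟨(p1 k hk).1.1, _, (p1 k hk).2.trans ((p1 k hk).1.2.1 k)⟩, p2,
    hm _ _ _ _ _ t0.1.2.2.2.1.2 (t0.2.trans t0.1.2.2.1), hm _ _ _ _ _ tL.2 hq⟩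

variable (U) in
include U in
theorem upper {L : ℕ} (st : ℕ → F → F → F)
    (h0 : ∀ u v, st 0 u v = u) (hL : ∀ u v, st (L + 1) u v = v)
    (hst : ∀ k u v, Tol.r (st k u v) (st (k + 1) u v))
    (hm : ∀ α β n p q, D α β n p → q ≤ p → D α β n q)
    (hd : ∀ α β, α < β → ∀ p, ∃ q ≤ p, ∃ n, D α β n q) (p : Cond K F) :
    ∃ r ≤ p, ∃ n, ∃ S : K → Cond K F → Prop, (∀ β p q, S β p → q ≤ p → S β q) ∧
      (∀ q ≤ r, ∀ δ, ∃ q' ≤ q, ∃ β, δ < β ∧ S β q') ∧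
      ∀ q ≤ r, ∀ α β, α < β → S α q → S β q → ∀ δ, ∃ q' ≤ q, ∃ γ : ℕ → K,
        (∀ k ≤ L, δ < γ k ∧ S (γ k) q') ∧
        (∀ k < L, γ k < γ (k + 1) ∧ D (γ k) (γ (k + 1)) n q') ∧
        D α (γ 0) n q' ∧ D β (γ L) n q' := by
  obtain ⟨T, n, h1, hT⟩ := exists_classes (U := U) hd p
  obtain ⟨T1, l1, hr⟩ := T.plus
  have hX : {β | Good U D n T.W T1.ρ β ∧
      ∀ α < β, Good U D n T.W T1.ρ α → Paths U D L n T.W T1.ρ α β} ∈ U := by
    refine (ae_good hT hr).and (ae_diag U fun α => ?_)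
    by_cases hα : Good U D n T.W T1.ρ α
    · exact (ae_paths hm st h0 hL hst hT hr hα).mono fun _ h _ => h
    · exact Eventually.of_forall fun _ h => absurd h hα
  refine ⟨T1.ρ, l1.1.trans h1, n, fun β q => (Good U D n T.W T1.ρ β ∧
      ∀ α < β, Good U D n T.W T1.ρ α → Paths U D L n T.W T1.ρ α β) ∧ ∃ i, q ≤ T.W i β,
    fun β p q ⟨k1, i, k2⟩ k3 => ⟨k1, i, k3.trans k2⟩, fun q hq δ => ?_, ?_⟩
  · have a5 := (hr 0).mono hq
    obtain ⟨z, hz⟩ := q.exists_toprow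
    obtain ⟨y, b1, b2, -⟩ := exists_val (T.rt 0) a5 z hz
    obtain ⟨W, c1, c2, -⟩ := exists_ext (T.rt 0) a5.1 y b1 (fun w hw α hα => a5.rows hw hα) b2
    obtain ⟨β, k1, k2, k3, k4⟩ := (c1.and (c2.and ((NU.tail δ).and hX))).exists
    exact ⟨W β, k2.2.1, β, k3, k4, 0, k1⟩
  · rintro q hq α β hlt ⟨k1, a, k2⟩ ⟨k3, b, k4⟩ δ
    obtain ⟨q', m1, γ, m2, m3⟩ := k3.2 α hlt k1.1 a b q hq k2 k4 _ (inter_mem (NU.tail δ) hX)
    exact ⟨q', m1, γ, fun k hk => ⟨(m2 k hk).1.1, (m2 k hk).1.2, (m2 k hk).2⟩, m3⟩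

end Pool.Agent.Lib.MP_fcebdf_lc
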