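import Pool.Agent.Lib.MP_fcebdf_lc.Trans
import Pool.Agent.Lib.MP_fcebdf_lc.Upper
import Pool.Agent.Lib.MP_fcebdf_lc.Lower

set_option autoImplicit false

namespace Pool.Agent.Lib.MP_fcebdf_lc

open Pool.Agent.Lib.helper81 Set Cardinal

/-- the Hamming cube of diameter `L + 1` -/
def Cube (L : ℕ) : Type := Fin (L + 1) → Bool

/-- Hamming distance -/
def cdist {L : ℕ} (u v : Cube L) : ℕ := hammingDist (β := fun _ : Fin (L + 1) => Bool) u v

instance (L : ℕ) : Countable (Cube L) := inferInstanceAs (Countable (Fin (L + 1) → Bool))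

instance (L : ℕ) : Inhabited (Cube L) := ⟨fun _ => false⟩

instance (L : ℕ) : Tol (Cube L) where
  r u v := cdist u v ≤ 1
  refl u := by simp [cdist]
  symm u v h := by unfold cdist at h ⊢; rwa [hammingDist_comm]

/-- moving coordinate by coordinate -/
def cstep {L : ℕ} (k : ℕ) (u v : Cube L) : Cube L := fun j => if j.1 < k then v j else u j

/-- the antipode -/
def canti {L : ℕ} (v : Cube L) : Cube L := fun j => !(v j)

lemma cstep_zero {L : ℕ} (u v : Cube L) : cstep 0 u v = u := by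
  funext j; simp [cstep]

lemma cstep_top {L : ℕ} (u v : Cube L) : cstep (L + 1) u v = v := by
  funext j; simp [cstep, j.2]

lemma cstep_close {L : ℕ} (k : ℕ) (u v : Cube L) : Tol.r (cstep k u v) (cstep (k + 1) u v) := by
  show hammingDist (β := fun _ : Fin (L + 1) => Bool) _ _ ≤ 1
  unfold hammingDist
  rw [Finset.card_le_one]
  have key : ∀ j : Fin (L + 1), cstep k u v j ≠ cstep (k + 1) u v j → j.1 = k := by
    intro j hj
    by_contra h
    apply hj
    unfold cstep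
    by_cases h1 : j.1 < k
    · rw [if_pos h1, if_pos (by omega)]
    · rw [if_neg h1, if_neg (by omega)]
  intro a ha b hb
  exact Fin.ext ((key a (Finset.mem_filter.1 ha).2).trans (key b (Finset.mem_filter.1 hb).2).symm)

lemma cdist_step {L : ℕ} (v u u' : Cube L) (h : Tol.r u u') : cdist v u' ≤ cdist v u + 1 :=
  (hammingDist_triangle (β := fun _ : Fin (L + 1) => Bool) v u u').trans (Nat.add_le_add_left h _)

lemma cdist_anti {L : ℕ} (v : Cube L) : cdist v (canti v) = L + 1 := by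
  unfold cdist hammingDist
  rw [Finset.filter_true_of_mem fun j _ => by simp [canti]]
  simp

lemma canti_ne {L : ℕ} (v : Cube L) : canti v ≠ v := fun h => by
  have := congrFun h 0
  simp [canti] at this

theorem main (K : Type) (U : Ultrafilter K) (hK : ℵ₀ < #K) (hU : ∀ x, {x} ∉ U)
    (hc : CardinalInterFilter (U : Filter K) #K) (L : ℕ) :
    ∃ (M : Type) (E : M → M → Prop), IsZF E ∧ Choice E ∧ WellFounded E ∧
      ∃ w w1 k : M, Omega E w ∧ Next E w w1 ∧ Next E w1 k ∧ ¬ HC E k w (L + 2 : ℕ) ∧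
        ∀ n : ℕ∞, (L + 2 : ℕ) < n → HC E k w n := by
  obtain ⟨_, _, V, _⟩ := exists_NU K U hK hU hc
  obtain ⟨w1, hw1, hw2⟩ := exists_w1 V
  obtain ⟨D, d1, d2, d3, d4, d5⟩ := lower (F := Cube L) V cdist (fun u => by simp [cdist])
    cdist_step canti cdist_anti
  have hcc := cc_bounded (F := Cube L) V
  obtain ⟨gm, -, hS⟩ := exists_gm (G := Triv (Cond K (Cube L))) Cond.empty
    {colH D d1, oS _ (univ : Set K), ordH _ w1} (to_countable _)
  have a1 : colH D d1 ∈ gm.S := hS (by simp)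
  have a2 : oS _ (univ : Set K) ∈ gm.S := hS (by simp)
  have a3 : ordH _ w1 ∈ gm.S := hS (by simp)
  refine ⟨gm.M, gm.E, gm.isZF, choice gm, gm.wf, gm.omega, gm.val (ordH _ w1),
    gm.val (oS _ (univ : Set K)), gm.omega_spec, ?_, ⟨isOrd_oS gm isLowerSet_univ a2,
      not_le_ord hcc (exists_bound V) gm a2 a3, fun x hx => ?_⟩, fun h => ?_, fun n hn c hc => ?_⟩
  · rw [ordH_eq] at a3 ⊢
    refine ⟨isOrd_oS gm (isLowerSet_Iio w1) a3,
      not_le_omega (fun c hc => (Cond.exists_lim c hc).imp fun _ h => h.1) gm hw1 a3,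
      fun x hx => ?_⟩
    obtain ⟨α, h1, h2, rfl⟩ := oS_elim gm a3 hx
    rw [ordH_eq] at h2 ⊢
    exact le_omega gm (hw2 α h1) h2
  · obtain ⟨lam, -, h2, rfl⟩ := oS_elim gm a2 hx
    obtain ⟨H, h3, h4, h5⟩ := collapse (F := Cube L) V canti canti_ne hw1 lam
    exact le_collapse gm H h3 h4 h5 a3 h2
  · obtain ⟨A, i, h1, h2, h3, h4⟩ := h _ (col_colH d1 d2 d3 d4 gm a1 a2)
    refine lower_gm hcc (exists_bound V) d1 d3 d5 gm a1 a2 h1 h2 h3
      fun C k1 k2 a b k3 k4 k5 k6 => ?_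
    obtain ⟨l, k7, k8⟩ := h4 C k1 k2 a b k3 k4 k5 k6
    exact ⟨l, by exact_mod_cast k7, k8⟩
  · obtain ⟨A, i, h1, h2, h3, h4⟩ := upper_gm hcc (exists_clos V)
      (fun D h1 h2 p => upper V cstep cstep_zero cstep_top cstep_close h1 h2 p) gm a2 hc
    refine ⟨A, i, h1, h2, h3, fun C k1 k2 a b k3 k4 k5 k6 => ?_⟩
    obtain ⟨l, k7, k8⟩ := h4 C k1 k2 a b k3 k4 k5 k6
    exact ⟨l, lt_of_le_of_lt (by exact_mod_cast Nat.le_of_lt_succ k7) hn, k8⟩

end Pool.Agent.Lib.MP_fcebdf_lc
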