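import Mathlib

set_option autoImplicit false

namespace Pool.Agent.Lib.MP_fcebdf_lc

open Filter Set Cardinal

/-- a normal countably complete uniform ultrafilter -/
class NU {K : Type} [LinearOrder K] (U : Ultrafilter K) : Prop where
  cc : CountableInterFilter (U : Filter K)
  tail : ∀ α, ∀ᶠ β in (U : Filter K), α < β
  normal : ∀ f : K → K, (∀ᶠ β in (U : Filter K), f β < β) → ∃ α, ∀ᶠ β in (U : Filter K), f β = α
  big : ∀ X ∈ U, Nonempty (K ↪ X)

theorem exists_NU (K : Type) (U : Ultrafilter K) (hK : ℵ₀ < #K) (hU : ∀ x, {x} ∉ U)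
    (hc : CardinalInterFilter (U : Filter K) #K) :
    ∃ (_ : LinearOrder K) (_ : WellFoundedLT K) (D : Ultrafilter K), NU D := by
  obtain ⟨_, _, hord⟩ := exists_ord_eq_type_lt K
  have hcc : CountableInterFilter (U : Filter K) :=
    CardinalInterFilter.toCountableInterFilter _ hK
  have hne : ∀ x, ∀ᶠ β in (U : Filter K), β ≠ x := fun x =>
    Ultrafilter.eventually_not.2 (hU x)
  have htail : ∀ α, ∀ᶠ β in (U : Filter K), α < β := by
    intro α
    have h1 := (eventually_cardinal_ball (l := (U : Filter K)) (mk_Iio_lt α hord)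
      (p := fun β γ _ => β ≠ γ)).2 fun γ _ => hne γ
    filter_upwards [h1, hne α] with β k1 k2
    by_contra h
    rcases (not_lt.1 h).eq_or_lt with h | h
    · exact k2 h
    · exact k1 β h rfl
  have hconst : ∀ (f : K → K) (δ : K), (∀ᶠ β in (U : Filter K), f β < δ) →
      ∃ α, ∀ᶠ β in (U : Filter K), f β = α := by
    intro f δ hf
    by_contra h
    push Not at h
    have h1 := (eventually_cardinal_ball (l := (U : Filter K)) (mk_Iio_lt δ hord)
      (p := fun β γ _ => f β ≠ γ)).2 fun γ _ => Ultrafilter.eventually_not.2 (by simpa using h γ)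
    obtain ⟨β, k1, k2⟩ := (h1.and hf).exists
    exact k1 (f β) k2 rfl
  have hwf : WellFounded (fun f g : K → K => ∀ᶠ β in (U : Filter K), f β < g β) := by
    rw [wellFounded_iff_isEmpty_descending_chain]
    refine ⟨fun ⟨f, hf⟩ => ?_⟩
    obtain ⟨β, hβ⟩ := (eventually_countable_forall.2 hf).exists
    exact (wellFounded_iff_isEmpty_descending_chain.1 (wellFounded_lt (α := K))).false
      ⟨fun n => f n β, hβ⟩
  obtain ⟨f, hf, hmin⟩ := hwf.has_min {f | ∀ α, ∀ᶠ β in (U : Filter K), α < f β} ⟨id, htail⟩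
  have hcD : CardinalInterFilter (U.map f : Filter K) #K := by
    rw [Ultrafilter.coe_map]; infer_instance
  refine ⟨_, inferInstance, U.map f, CardinalInterFilter.toCountableInterFilter _ hK, hf, ?_, ?_⟩
  · intro g hg
    have h1 : ¬ ∀ α, ∀ᶠ β in (U : Filter K), α < g (f β) := fun h => hmin (g ∘ f) h hg
    obtain ⟨α, hα⟩ := not_forall.1 h1
    obtain ⟨δ, hδ⟩ := (htail α).exists
    refine hconst (g ∘ f) δ ?_
    filter_upwards [Ultrafilter.eventually_not.2 hα] with β hβ
    exact (not_lt.1 hβ).trans_lt hδ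
  · intro X hX
    rw [← Cardinal.le_def]
    by_contra h
    have h1 := (eventually_cardinal_ball (l := (U.map f : Filter K)) (not_le.1 h)
      (p := fun β γ _ => β ≠ γ)).2 fun γ _ => (hf γ).mono fun _ h => h.ne'
    obtain ⟨β, k1, k2⟩ := (h1.and hX).exists
    exact k1 β k2 rfl

variable {K : Type} [LinearOrder K] (U : Ultrafilter K) [NU U]

instance : CountableInterFilter (U : Filter K) := NU.cc

omit [LinearOrder K] [NU U] in
lemma ae_const [CountableInterFilter (U : Filter K)] {T : Type} [Countable T] (f : K → T) :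
    ∃ t, ∀ᶠ β in (U : Filter K), f β = t := by
  by_contra h
  have h1 : ∀ t, ∀ᶠ β in (U : Filter K), f β ≠ t := fun t =>
    Ultrafilter.eventually_not.2 fun h' => h ⟨t, h'⟩
  obtain ⟨β, hβ⟩ := (eventually_countable_forall.2 h1).exists
  exact hβ _ rfl

omit [LinearOrder K] [NU U] in
lemma ae_exists [CountableInterFilter (U : Filter K)] {T : Type} [Countable T] {p : K → T → Prop}
    (h : ∀ᶠ β in (U : Filter K), ∃ t, p β t) : ∃ t, ∀ᶠ β in (U : Filter K), p β t := by
  by_contra h'
  have h1 : ∀ t, ∀ᶠ β in (U : Filter K), ¬ p β t := fun t =>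
    Ultrafilter.eventually_not.2 fun h'' => h' ⟨t, h''⟩
  obtain ⟨β, hβ, t, ht⟩ := ((eventually_countable_forall.2 h1).and h).exists
  exact hβ t ht

lemma ae_diag {p : K → K → Prop} (h : ∀ α, ∀ᶠ β in (U : Filter K), p α β) :
    ∀ᶠ β in (U : Filter K), ∀ α < β, p α β := by
  classical
  by_contra h'
  have h1 : ∀ᶠ β in (U : Filter K), ∃ α, α < β ∧ ¬ p α β := by
    filter_upwards [Ultrafilter.eventually_not.2 h'] with β hβ
    push Not at hβ
    exact hβ
  let f : K → K := fun β => if h : ∃ α, α < β ∧ ¬ p α β then h.choose else β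
  have h2 : ∀ᶠ β in (U : Filter K), f β < β ∧ ¬ p (f β) β := by
    filter_upwards [h1] with β hβ
    simp only [f, dif_pos hβ]
    exact hβ.choose_spec
  obtain ⟨α, hα⟩ := NU.normal (U := U) f (h2.mono fun _ h => h.1)
  obtain ⟨β, k1, k2, k3⟩ := (h2.and (hα.and (h α))).exists
  exact k1.2 (k2 ▸ k3)

lemma ae_below (δ : K) {p : K → K → Prop} (h : ∀ α < δ, ∀ᶠ β in (U : Filter K), p α β) :
    ∀ᶠ β in (U : Filter K), ∀ α < δ, p α β := by
  have h1 : ∀ α, ∀ᶠ β in (U : Filter K), α < δ → p α β := by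
    intro α
    by_cases hα : α < δ
    · exact (h α hα).mono fun _ h _ => h
    · exact Eventually.of_forall fun _ h => absurd h hα
  filter_upwards [ae_diag U h1, NU.tail (U := U) δ] with β k1 k2 α hα
  exact k1 α (hα.trans k2) hα

lemma ae_bdd {a : Set K} (ha : a.Countable) : ∀ᶠ β in (U : Filter K), ∀ η ∈ a, η < β :=
  (eventually_countable_ball ha).2 fun η _ => NU.tail η

include U in
lemma not_countable_univ : ¬ (univ : Set K).Countable := fun h => by
  obtain ⟨β, hβ⟩ := (ae_bdd U h).exists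
  exact lt_irrefl _ (hβ β trivial)

include U in
lemma infinite_K : Infinite K := by
  by_contra h
  rw [not_infinite_iff_finite] at h
  exact not_countable_univ U (Set.to_countable _)

lemma exists_inj_into {X : Set K} (hX : X ∈ U) (ι : Type) [Countable ι] :
    ∃ δ : ι → K, Function.Injective δ ∧ ∀ i, δ i ∈ X := by
  have := infinite_K U
  obtain ⟨e⟩ := NU.big X hX
  obtain ⟨f, hf⟩ := exists_injective_nat ι
  exact ⟨fun i => e (Infinite.natEmbedding K (f i)),
    Subtype.val_injective.comp (e.injective.comp ((Infinite.natEmbedding K).injective.comp hf)),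
    fun i => (e _).2⟩

lemma exists_inj_into' {X : Set K} (hX : X ∈ U) :
    ∃ δ : K × Bool → K, Function.Injective δ ∧ ∀ i, δ i ∈ X := by
  have := infinite_K U
  obtain ⟨e⟩ := NU.big X hX
  have h : #(K × Bool) ≤ #K := by
    simp only [mk_prod, lift_id, mk_bool]
    rw [mul_comm]
    exact (Cardinal.mul_eq_right (aleph0_le_mk K) ((natCast_lt_aleph0 (n := 2)).le.trans (aleph0_le_mk K))
      two_ne_zero).le
  obtain ⟨f⟩ := (Cardinal.le_def _ _).1 h
  exact ⟨fun i => e (f i), Subtype.val_injective.comp (e.injective.comp f.injective),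
    fun i => (e _).2⟩

include U in
lemma exists_w1 [WellFoundedLT K] :
    ∃ w : K, ¬ (Iio w).Countable ∧ ∀ α < w, (Iio α).Countable := by
  classical
  have h : ∃ w : K, ¬ (Iio w).Countable := by
    by_contra h
    push Not at h
    have h1 : ∀ β : K, ∃ e : K → ℕ, InjOn e (Iio β) := fun β =>
      Set.countable_iff_exists_injOn.1 (h β)
    choose e he using h1
    choose n hn using fun α => ae_const U (fun β => e β α)
    apply not_countable_univ U
    refine Set.countable_iff_exists_injOn.2 ⟨n, fun α _ α' _ hh => ?_⟩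
    obtain ⟨β, k1, k2, k3, k4⟩ :=
      ((hn α).and ((hn α').and ((NU.tail (U := U) α).and (NU.tail (U := U) α')))).exists
    exact he β k3 k4 (by rw [k1, k2, hh])
  obtain ⟨w, hw, hmin⟩ := (wellFounded_lt (α := K)).has_min {w | ¬ (Iio w).Countable} h
  exact ⟨w, hw, fun α hα => by_contra fun h' => hmin α h' hα⟩

include U in
lemma exists_bound (δ : K) (b : K → K) : ∃ β, ∀ ξ < δ, b ξ < β :=
  (ae_below U δ (p := fun ξ β => b ξ < β) fun ξ _ => NU.tail (b ξ)).exists

include U in
lemma exists_clos (b : K → K) :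
    ∃ h : K → K, Function.Injective h ∧ ∀ ξ ξ', h ξ < h ξ' → b (h ξ) < h ξ' := by
  obtain ⟨e⟩ := NU.big (U := U) _ (ae_diag U (p := fun α β => b α < β) fun α => NU.tail (b α))
  exact ⟨fun ξ => e ξ, Subtype.val_injective.comp e.injective, fun ξ ξ' h => (e ξ').2 _ h⟩

end Pool.Agent.Lib.MP_fcebdf_lc
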