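import Pool.Agent.Lib.MP_fcebdf_lc.Cond
import Pool.Agent.Lib.MP_fcebdf_lc.Ultra

set_option autoImplicit false

namespace Pool.Agent.Lib.MP_fcebdf_lc

open Filter Set Cond

variable {K F : Type} [LinearOrder K] [Tol F] (U : Ultrafilter K)

/-- `ρ` is the root of `W` -/
def Rt (W : K → Cond K F) (ρ : Cond K F) : Prop :=
  ∀ᶠ β in (U : Filter K), β ∈ (W β).a ∧ W β ≤ ρ ∧ ∀ η ∈ (W β).a, η < β → η ∈ ρ.a

/-- the order almost everywhere -/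
def LeS (W' W : K → Cond K F) : Prop := ∀ᶠ β in (U : Filter K), W' β ≤ W β

/-- `w` is the trace on the root of an upper row of `W` -/
def Tr (W : K → Cond K F) (ρ : Cond K F) (w : K × ℕ → F) : Prop :=
  ∀ᶠ β in (U : Filter K), ∃ α ∈ (W β).a, β ≤ α ∧ ∀ c : K × ℕ, c.1 ∈ ρ.a → w c = (W β).x α c

/-- the traces are jointly almost close -/
def JC (W W' : K → Cond K F) (ρ : Cond K F) : Prop :=
  ∀ w w', Tr U W ρ w → Tr U W' ρ w' → AC (fun η => η ∈ ρ.a) w w'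

/-- `s` contains copies of all traces of `W` -/
def Abs (s : Cond K F) (W : K → Cond K F) (ρ : Cond K F) : Prop :=
  s ≤ ρ ∧ ∀ w, Tr U W ρ w →
    ∃ δ ∈ s.a, (∀ η ∈ ρ.a, η < δ) ∧ (∀ c : K × ℕ, c.1 ∈ ρ.a → w c = s.x δ c) ∧
      ∀ c : K × ℕ, c.1 ∈ s.a → c.1 ∉ ρ.a → ∀ α ∈ ρ.a, c.1 < α → s.x δ c = s.x α c

variable {U}

lemma LeS.refl (W : K → Cond K F) : LeS U W W := Eventually.of_forall fun _ => le_rfl

lemma LeS.trans {W W' W'' : K → Cond K F} (h1 : LeS U W'' W') (h2 : LeS U W' W) : LeS U W'' W := by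
  filter_upwards [h1, h2] with β k1 k2 using k1.trans k2

lemma JC.symm {W W' : K → Cond K F} {ρ : Cond K F} (h : JC U W W' ρ) : JC U W' W ρ :=
  fun w w' h1 h2 => (h w' w h2 h1).symm

lemma Tr.congr {W : K → Cond K F} {ρ : Cond K F} {w w' : K × ℕ → F} (h : Tr U W ρ w)
    (e : ∀ c : K × ℕ, c.1 ∈ ρ.a → w' c = w c) : Tr U W ρ w' :=
  h.mono fun _ ⟨α, h1, h2, h3⟩ => ⟨α, h1, h2, fun c hc => (e c hc).trans (h3 c hc)⟩

lemma Abs.mono {s s' ρ : Cond K F} {W : K → Cond K F} (h : Abs U s W ρ) (hs : s' ≤ s) :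
    Abs U s' W ρ := by
  refine ⟨hs.trans h.1, fun w hw => ?_⟩
  obtain ⟨δ, h1, h2, h3, h4⟩ := h.2 w hw
  refine ⟨δ, sub hs h1, h2, fun c hc =>
    (h3 c hc).trans (agree hs h1 (sub h.1 hc) (h2 _ hc)).symm, fun c hc hn α hα hlt => ?_⟩
  have k := hlt.trans (h2 α hα)
  by_cases hcs : c.1 ∈ s.a
  · rw [agree hs h1 hcs k, agree hs (sub h.1 hα) hcs hlt]
    exact h4 c hcs hn α hα hlt
  · exact newcol hs hc hcs h1 (sub h.1 hα) k hlt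

lemma Abs.rows {s ρ : Cond K F} {W : K → Cond K F} (h : Abs U s W ρ) {w : K × ℕ → F}
    (hw : Tr U W ρ w) {α : K} (hα : α ∈ s.a) : AC (fun η => η ∈ ρ.a ∧ η < α) w (s.x α) := by
  obtain ⟨δ, h1, h2, h3, -⟩ := h.2 w hw
  filter_upwards [s.close δ h1 α hα] with c hc k
  rw [h3 c k.1]
  exact hc ⟨sub h.1 k.1, h2 _ k.1, k.2⟩

variable [NU U]

lemma Rt.le_of {W : K → Cond K F} {ρ p : Cond K F} (h : Rt U W ρ)
    (hp : ∀ᶠ β in (U : Filter K), W β ≤ p) : ρ ≤ p := by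
  obtain ⟨β, ⟨-, h1, h2⟩, h3, h4⟩ := (h.and (hp.and (ae_bdd U p.ctbl))).exists
  have hs : p.a ⊆ ρ.a := fun η hη => h2 η (sub h3 hη) (h4 η hη)
  refine ⟨hs, fun α hα c hc hlt => ?_, fun c hc hn α hα α' hα' l1 l2 => ?_⟩
  · rw [← agree h1 (hs hα) (hs hc) hlt, agree h3 hα hc hlt]
  · rw [← agree h1 (hs hα) hc l1, ← agree h1 (hs hα') hc l2]
    exact newcol h3 (sub h1 hc) hn hα hα' l1 l2

lemma Rt.le {W W' : K → Cond K F} {ρ ρ' : Cond K F} (h' : Rt U W' ρ') (h : Rt U W ρ)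
    (hl : LeS U W' W) : ρ' ≤ ρ := by
  apply h'.le_of
  filter_upwards [h, hl] with β k1 k2 using k2.trans k1.2.1

lemma Tr.row {V : K → Cond K F} {s : Cond K F} (h : Rt U V s) {v : K × ℕ → F} (hv : Tr U V s v)
    {α : K} (hα : α ∈ s.a) : AC (fun η => η ∈ s.a ∧ η < α) v (s.x α) := by
  obtain ⟨β, ⟨-, h1, -⟩, ⟨δ, h3, h4, h5⟩, h6⟩ := (h.and (hv.and (ae_bdd U s.ctbl))).exists
  filter_upwards [(V β).close δ h3 α (sub h1 hα)] with c hc k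
  rw [h5 c k.1, ← agree h1 hα k.1 k.2]
  exact hc ⟨sub h1 k.1, (h6 _ k.1).trans_le h4, k.2⟩

lemma JC.self {W : K → Cond K F} {ρ : Cond K F} (h : Rt U W ρ) : JC U W W ρ := by
  intro w w' hw hw'
  obtain ⟨β, ⟨-, h1, -⟩, ⟨δ, h3, h4, h5⟩, ⟨δ', h3', h4', h5'⟩, h6⟩ :=
    (h.and (hw.and (hw'.and (ae_bdd U ρ.ctbl)))).exists
  filter_upwards [(W β).close δ h3 δ' h3'] with c hc k
  rw [h5 c k, h5' c k]
  exact hc ⟨sub h1 k, (h6 _ k).trans_le h4, (h6 _ k).trans_le h4'⟩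

lemma Abs.jc {s ρ : Cond K F} {W V : K → Cond K F} (h : Abs U s W ρ) (hV : Rt U V s)
    {w v : K × ℕ → F} (hw : Tr U W ρ w) (hv : Tr U V s v) : AC (fun η => η ∈ ρ.a) w v := by
  obtain ⟨δ, h1, h2, h3, -⟩ := h.2 w hw
  filter_upwards [Tr.row hV hv h1] with c hc k
  rw [h3 c k]
  exact Tol.symm _ _ (hc ⟨sub h.1 k, h2 _ k⟩)

variable [Countable F]

variable (U) in
lemma ae_const_on (f : K → K × ℕ → F) {a : Set K} (ha : a.Countable) :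
    ∃ g : K × ℕ → F, ∀ᶠ β in (U : Filter K), ∀ c : K × ℕ, c.1 ∈ a → f β c = g c := by
  choose g hg using fun c : K × ℕ => ae_const U (fun β => f β c)
  have hc : ({c : K × ℕ | c.1 ∈ a}).Countable := by
    exact (ha.prod (countable_univ (α := ℕ))).mono fun c h => mem_prod.2 ⟨h, mem_univ _⟩
  exact ⟨g, (eventually_countable_ball hc).2 fun c _ => hg c⟩

variable (U) in
/-- the leading row -/
noncomputable def ld (W : K → Cond K F) (c : K × ℕ) : F :=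
  (ae_const U (fun β => (W β).x β c)).choose

variable (U) in
lemma ld_spec (W : K → Cond K F) {a : Set K} (ha : a.Countable) :
    ∀ᶠ β in (U : Filter K), ∀ c : K × ℕ, c.1 ∈ a → (W β).x β c = ld U W c := by
  have hc : ({c : K × ℕ | c.1 ∈ a}).Countable := by
    exact (ha.prod (countable_univ (α := ℕ))).mono fun c h => mem_prod.2 ⟨h, mem_univ _⟩
  exact (eventually_countable_ball hc).2 fun c _ => (ae_const U (fun β => (W β).x β c)).choose_spec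

lemma exists_rt {W : K → Cond K F} (h : ∀ᶠ β in (U : Filter K), β ∈ (W β).a) :
    ∃ ρ, Rt U W ρ := by
  classical
  have h1 : ∀ β, ∃ e : ℕ → K, ((W β).a ∩ Iio β).Nonempty → (W β).a ∩ Iio β = range e := by
    intro β
    by_cases hne : ((W β).a ∩ Iio β).Nonempty
    · obtain ⟨e, he⟩ := ((W β).ctbl.mono inter_subset_left).exists_eq_range hne
      exact ⟨e, fun _ => he⟩
    · exact ⟨fun _ => β, fun h => absurd h hne⟩
  choose e he using h1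
  have h2 : ∃ a : Set K, a.Countable ∧ ∀ᶠ β in (U : Filter K), (W β).a ∩ Iio β = a := by
    rcases U.em (fun β => ((W β).a ∩ Iio β).Nonempty) with k | k
    · have k2 : ∀ n, ∃ α, ∀ᶠ β in (U : Filter K), e β n = α := by
        intro n
        apply NU.normal
        filter_upwards [k] with β hβ
        have : e β n ∈ (W β).a ∩ Iio β := by rw [he β hβ]; exact mem_range_self n
        exact this.2
      choose g hg using k2
      refine ⟨range g, countable_range g, ?_⟩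
      filter_upwards [k, eventually_countable_forall.2 hg] with β k1 k3
      rw [he β k1, funext k3]
    · refine ⟨∅, countable_empty, k.mono fun β hβ => not_nonempty_iff_eq_empty.1 hβ⟩
  obtain ⟨a, ha, h3⟩ := h2
  choose g hg using fun α => ae_const_on U (fun β => (W β).x α) ha
  have h4 := (eventually_countable_ball ha).2 fun α _ => hg α
  obtain ⟨β0, k1, k2⟩ := (h3.and h4).exists
  refine ⟨(W β0).res β0, ?_⟩
  filter_upwards [h, h3, h4] with β l1 l2 l3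
  have e1 : ((W β0).res β0).a = ((W β).res β).a := k1.trans l2.symm
  refine ⟨l1, ((W β).le_res β).trans ⟨e1.le, fun α hα c hc _ => ?_, fun c hc hn => ?_⟩,
    fun η h1 h2 => e1 ▸ ⟨h1, h2⟩⟩
  · have m1 : α ∈ a := k1 ▸ hα
    have m2 : c.1 ∈ a := k1 ▸ hc
    exact (l3 α m1 c m2).trans (k2 α m1 c m2).symm
  · exact absurd (e1 ▸ hc) hn

lemma Rt.tr_ld {W : K → Cond K F} {ρ : Cond K F} (h : Rt U W ρ) : Tr U W ρ (ld U W) := by
  filter_upwards [h, ld_spec U W ρ.ctbl] with β k1 k2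
  exact ⟨β, k1.1, le_rfl, fun c hc => (k2 c hc).symm⟩

lemma Rt.tr_enum {W : K → Cond K F} {ρ : Cond K F} (h : Rt U W ρ) :
    ∃ t : ℕ → K × ℕ → F, (∀ n, Tr U W ρ (t n)) ∧ ∀ᶠ β in (U : Filter K), ∀ α ∈ (W β).a, β ≤ α →
      ∃ n, ∀ c : K × ℕ, c.1 ∈ ρ.a → (W β).x α c = t n c := by
  have h1 : ∀ β, ∃ e : ℕ → K, β ∈ (W β).a → (W β).a ∩ Ici β = range e := by
    intro β
    by_cases hne : β ∈ (W β).a
    · obtain ⟨e, he⟩ := ((W β).ctbl.mono (inter_subset_left (t := Ici β))).exists_eq_range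
        ⟨β, hne, le_rfl⟩
      exact ⟨e, fun _ => he⟩
    · exact ⟨fun _ => β, fun h => absurd h hne⟩
  choose e he using h1
  choose t ht using fun n => ae_const_on U (fun β => (W β).x (e β n)) ρ.ctbl
  refine ⟨t, fun n => ?_, ?_⟩
  · filter_upwards [h, ht n] with β k1 k2
    have : e β n ∈ (W β).a ∩ Ici β := by rw [he β k1.1]; exact mem_range_self n
    exact ⟨e β n, this.1, this.2, fun c hc => (k2 c hc).symm⟩
  · filter_upwards [h, eventually_countable_forall.2 ht] with β k1 k2 α hα hle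
    have : α ∈ range (e β) := by rw [← he β k1.1]; exact ⟨hα, hle⟩
    obtain ⟨n, rfl⟩ := this
    exact ⟨n, k2 n⟩

lemma Rt.tr_ae {W : K → Cond K F} {ρ : Cond K F} (h : Rt U W ρ) :
    ∀ᶠ β in (U : Filter K), ∀ α ∈ (W β).a, β ≤ α → Tr U W ρ ((W β).x α) := by
  obtain ⟨t, h1, h2⟩ := h.tr_enum
  filter_upwards [h2] with β k α hα hle
  obtain ⟨n, hn⟩ := k α hα hle
  exact (h1 n).congr hn

lemma Rt.tr_enum' {W : K → Cond K F} {ρ : Cond K F} (h : Rt U W ρ) :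
    ∃ t : ℕ → K × ℕ → F, (∀ n, Tr U W ρ (t n)) ∧ ∀ w, Tr U W ρ w →
      ∃ n, ∀ c : K × ℕ, c.1 ∈ ρ.a → w c = t n c := by
  obtain ⟨t, h1, h2⟩ := h.tr_enum
  refine ⟨t, h1, fun w hw => ?_⟩
  obtain ⟨β, k1, α, k2, k3, k4⟩ := (h2.and hw).exists
  obtain ⟨n, hn⟩ := k1 α k2 k3
  exact ⟨n, fun c hc => (k4 c hc).trans (hn c hc)⟩

lemma ld_le {W W' : K → Cond K F} {ρ : Cond K F} (hl : LeS U W' W) (h : Rt U W ρ)
    (c : K × ℕ) (hc : c.1 ∈ ρ.a) : ld U W' c = ld U W c := by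
  obtain ⟨β, k1, k2, k3, k4, k5⟩ := (hl.and (h.and ((ld_spec U W ρ.ctbl).and
    ((ld_spec U W' ρ.ctbl).and (ae_bdd U ρ.ctbl))))).exists
  rw [← k3 c hc, ← k4 c hc]
  exact agree k1 k2.1 (sub k2.2.1 hc) (k5 _ hc)

lemma ld_forced {W W' : K → Cond K F} {ρ s : Cond K F} (hl : LeS U W' W) (h : Rt U W ρ)
    (h' : Rt U W' s) (c : K × ℕ) (hc : c.1 ∈ s.a) (hn : c.1 ∉ ρ.a) (α : K) (hα : α ∈ ρ.a)
    (hlt : c.1 < α) : ld U W' c = s.x α c := by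
  obtain ⟨β, k1, k2, k3, k4, k5⟩ := (hl.and (h.and (h'.and
    ((ld_spec U W' s.ctbl).and (ae_bdd U s.ctbl))))).exists
  rw [← k4 c hc, ← agree k3.2.1 (sub (h'.le h hl) hα) hc hlt]
  exact newcol k1 (sub k3.2.1 hc) (fun m => hn (k2.2.2 _ m (k5 _ hc))) k2.1 (sub k2.2.1 hα)
    (k5 _ hc) hlt

omit [Countable F] in
lemma exists_ext0 {W : K → Cond K F} {ρ s : Cond K F} (h : Rt U W ρ) (hs : s ≤ ρ) (y : K × ℕ → F)
    (htr : ∀ᶠ β in (U : Filter K), ∀ α ∈ (W β).a, β ≤ α → Tr U W ρ ((W β).x α))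
    (hforced : ∀ c : K × ℕ, c.1 ∈ s.a → c.1 ∉ ρ.a → ∀ α ∈ ρ.a, c.1 < α → y c = s.x α c)
    (hrows : ∀ w, Tr U W ρ w → ∀ α' ∈ s.a, AC (fun η => η ∈ ρ.a ∧ η < α') w (s.x α'))
    (hval : ∀ α' ∈ s.a, AC (fun η => η ∈ s.a ∧ η ∉ ρ.a ∧ η < α') y (s.x α')) :
    ∃ W' : K → Cond K F, ∀ᶠ β in (U : Filter K), W' β ≤ W β ∧ W' β ≤ s ∧
      (W' β).a = (W β).a ∪ s.a ∧
      ∀ α, β ≤ α → ∀ c : K × ℕ, c.1 ∉ (W β).a → (W' β).x α c = y c := by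
  apply Filter.Eventually.choice (r := fun β (q : Cond K F) => q ≤ W β ∧ q ≤ s ∧
      q.a = (W β).a ∪ s.a ∧ ∀ α, β ≤ α → ∀ c : K × ℕ, c.1 ∉ (W β).a → q.x α c = y c)
  filter_upwards [h, htr, ae_bdd U s.ctbl] with β k1 k2 k3
  exact amalg y k1.2.1 hs k1.2.2 k3 hforced (fun α hα hle => hrows _ (k2 α hα hle)) hval

/-- extension of `W` to the root `s` with value `y` -/
lemma exists_ext {W : K → Cond K F} {ρ s : Cond K F} (h : Rt U W ρ) (hs : s ≤ ρ) (y : K × ℕ → F)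
    (hforced : ∀ c : K × ℕ, c.1 ∈ s.a → c.1 ∉ ρ.a → ∀ α ∈ ρ.a, c.1 < α → y c = s.x α c)
    (hrows : ∀ w, Tr U W ρ w → ∀ α' ∈ s.a, AC (fun η => η ∈ ρ.a ∧ η < α') w (s.x α'))
    (hval : ∀ α' ∈ s.a, AC (fun η => η ∈ s.a ∧ η ∉ ρ.a ∧ η < α') y (s.x α')) :
    ∃ W', LeS U W' W ∧ Rt U W' s ∧ ∀ w', Tr U W' s w' →
      Tr U W ρ w' ∧ ∀ c : K × ℕ, c.1 ∈ s.a → c.1 ∉ ρ.a → w' c = y c := by
  obtain ⟨W', hW'⟩ := exists_ext0 h hs y h.tr_ae hforced hrows hval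
  refine ⟨W', hW'.mono fun _ k => k.1, ?_, fun w' hw' => ⟨?_, fun c hc hn => ?_⟩⟩
  · filter_upwards [h, hW'] with β k1 k2
    refine ⟨sub k2.1 k1.1, k2.2.1, fun η hη hlt => ?_⟩
    rw [k2.2.2.1] at hη
    exact hη.elim (fun m => sub hs (k1.2.2 η m hlt)) id
  · filter_upwards [h, hW', hw', ae_bdd U s.ctbl] with β k1 k2 ⟨α, k3, k4, k5⟩ k6
    rw [k2.2.2.1] at k3
    have hα : α ∈ (W β).a := k3.resolve_right fun m => not_lt.2 k4 (k6 α m)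
    refine ⟨α, hα, k4, fun c hc => (k5 c (sub hs hc)).trans ?_⟩
    exact agree k2.1 hα (sub k1.2.1 hc) ((k6 _ (sub hs hc)).trans_le k4)
  · obtain ⟨β, k1, k2, ⟨α, -, k4, k5⟩, k6⟩ := (h.and (hW'.and (hw'.and (ae_bdd U s.ctbl)))).exists
    rw [k5 c hc]
    exact k2.2.2.2 α k4 c fun m => hn (k1.2.2 _ m (k6 _ hc))

omit [Countable F] in
lemma jc_ext {W W' V : K → Cond K F} {ρ s : Cond K F} (ha : Abs U s W ρ) {y : K × ℕ → F}
    (hW' : ∀ w', Tr U W' s w' →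
      Tr U W ρ w' ∧ ∀ c : K × ℕ, c.1 ∈ s.a → c.1 ∉ ρ.a → w' c = y c)
    (hV : Rt U V s) (hy : ∀ v, Tr U V s v → AC (fun η => η ∈ s.a ∧ η ∉ ρ.a) y v) :
    JC U W' V s := by
  intro w' v h1 h2
  filter_upwards [ha.jc hV (hW' w' h1).1 h2, hy v h2] with c k1 k2 hc
  by_cases hn : c.1 ∈ ρ.a
  · exact k1 hn
  · rw [(hW' w' h1).2 c hc hn]; exact k2 ⟨hc, hn⟩

lemma exists_val {W : K → Cond K F} {ρ s : Cond K F} (h : Rt U W ρ) (ha : Abs U s W ρ)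
    (z : K × ℕ → F) (hz : ∀ α ∈ s.a, AC (fun η => η ∈ s.a ∧ η < α) z (s.x α)) :
    ∃ y : K × ℕ → F,
      (∀ c : K × ℕ, c.1 ∈ s.a → c.1 ∉ ρ.a → ∀ α ∈ ρ.a, c.1 < α → y c = s.x α c) ∧
      (∀ α' ∈ s.a, AC (fun η => η ∈ s.a ∧ η ∉ ρ.a ∧ η < α') y (s.x α')) ∧
      ∀ v, (∀ α ∈ s.a, AC (fun η => η ∈ s.a ∧ η < α) v (s.x α)) → AC (fun η => η ∈ s.a) z v →
        AC (fun η => η ∈ s.a ∧ η ∉ ρ.a) y v := by
  classical
  obtain ⟨δ, h1, h2, -, h4⟩ := ha.2 _ h.tr_ld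
  refine ⟨fun c => if c.1 < δ then s.x δ c else z c, fun c hc hn α hα hlt => ?_,
    fun α hα => ?_, fun v h5 h6 => ?_⟩
  · simp only [if_pos (hlt.trans (h2 α hα))]
    exact h4 c hc hn α hα hlt
  · filter_upwards [s.close δ h1 α hα, hz α hα] with c k1 k2 k
    split_ifs with hd
    · exact k1 ⟨k.1, hd, k.2.2⟩
    · exact k2 ⟨k.1, k.2.2⟩
  · filter_upwards [h5 δ h1, h6] with c k1 k2 k
    split_ifs with hd
    · exact Tol.symm _ _ (k1 ⟨k.1, hd⟩)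
    · exact k2 k.1

variable [Inhabited F]

lemma exists_abs {ι : Type} [Countable ι] {W : ι → K → Cond K F} {ρ : Cond K F}
    (h : ∀ i, Rt U (W i) ρ) (hj : ∀ i j, JC U (W i) (W j) ρ) :
    ∃ s ≤ ρ, (∀ i, Abs U s (W i) ρ) ∧ ∀ η ∈ s.a, η ∉ ρ.a → ∀ α ∈ ρ.a, α < η := by
  classical
  choose t ht1 ht2 using fun i => (h i).tr_enum'
  obtain ⟨δ, hδ1, hδ2⟩ := exists_inj_into U (ae_bdd U ρ.ctbl) (ι × ℕ)
  let g : K → K × ℕ → F := fun η => if h : ∃ m, δ m = η then t h.choose.1 h.choose.2 else default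
  have hg : ∀ m, g (δ m) = t m.1 m.2 := by
    intro m
    have h' : ∃ m', δ m' = δ m := ⟨m, rfl⟩
    simp only [g, dif_pos h']
    rw [hδ1 h'.choose_spec]
  obtain ⟨s, h1, h2, h3, -⟩ := ρ.add_rows (range δ) (countable_range δ) g (by
      rintro _ ⟨m, rfl⟩ α hα
      rw [hg]
      exact Tr.row (h m.1) (ht1 m.1 m.2) hα) (by
      rintro _ ⟨m, rfl⟩ _ ⟨m', rfl⟩
      rw [hg, hg]
      exact hj _ _ _ _ (ht1 m.1 m.2) (ht1 m'.1 m'.2))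
  have h4 : ∀ η ∈ s.a, η ∉ ρ.a → ∀ α ∈ ρ.a, α < η := by
    intro η hη hn α hα
    rw [h2] at hη
    obtain ⟨m, rfl⟩ := hη.resolve_left hn
    exact hδ2 m α hα
  refine ⟨s, h1, fun i => ⟨h1, fun w hw => ?_⟩, h4⟩
  obtain ⟨n, hn⟩ := ht2 i w hw
  refine ⟨δ (i, n), h2 ▸ Or.inr ⟨_, rfl⟩, hδ2 _, fun c hc => ?_, fun c hc hn α hα hlt => ?_⟩
  · rw [h3 _ (fun m => lt_irrefl _ (hδ2 _ _ m)) c hc, hg, hn c hc]
  · exact absurd hlt (not_lt.2 (h4 _ hc hn α hα).le)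

omit [NU U] [Countable F] [Inhabited F] in
lemma le_lim {c : ℕ → Cond K F} (hc : Antitone c) {ρ q : Cond K F} (h1 : ∀ n, ρ ≤ c n)
    (h2 : ∀ η ∈ ρ.a, ∃ n, η ∈ (c n).a) (hq : ∀ n, q ≤ c n) : q ≤ ρ := by
  have key : ∀ α ∈ ρ.a, ∀ β ∈ ρ.a, ∃ n, α ∈ (c n).a ∧ β ∈ (c n).a := by
    intro α hα β hβ
    obtain ⟨n, hn⟩ := h2 α hα
    obtain ⟨m, hm⟩ := h2 β hβ
    exact ⟨max n m, sub (hc (le_max_left n m)) hn, sub (hc (le_max_right n m)) hm⟩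
  refine ⟨fun η hη => ?_, fun α hα d hd hlt => ?_, fun d hd hn α hα β hβ l1 l2 => ?_⟩
  · obtain ⟨n, hn⟩ := h2 η hη
    exact sub (hq n) hn
  · obtain ⟨n, k1, k2⟩ := key α hα _ hd
    rw [agree (hq n) k1 k2 hlt, agree (h1 n) k1 k2 hlt]
  · obtain ⟨n, k1, k2⟩ := key α hα β hβ
    exact newcol (hq n) hd (fun m => hn (sub (h1 n) m)) k1 k2 l1 l2

lemma exists_qlim {W : ℕ → K → Cond K F} {c : ℕ → Cond K F} (hc : Antitone c)
    (h : ∀ n, Rt U (W n) (c n)) (hl : ∀ n, LeS U (W (n + 1)) (W n)) {ρ : Cond K F}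
    (h1 : ∀ n, ρ ≤ c n) (h2 : ∀ η ∈ ρ.a, ∃ n, η ∈ (c n).a) :
    ∃ V, (∀ n, LeS U V (W n)) ∧ Rt U V ρ ∧ ∀ v, Tr U V ρ v → ∃ n, ∀ m, n ≤ m →
      Tr U (W m) (c m) v ∧ ∀ d : K × ℕ, d.1 ∈ ρ.a → d.1 ∉ (c m).a → v d = ld U V d := by
  have hanti : ∀ᶠ β in (U : Filter K), Antitone (fun n => W n β) :=
    (eventually_countable_forall.2 hl).mono fun β k => antitone_nat_of_succ_le k
  obtain ⟨V, hV⟩ := Filter.Eventually.choice (r := fun β (q : Cond K F) => (∀ n, q ≤ W n β) ∧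
      ∀ η ∈ q.a, ∃ n, η ∈ (W n β).a) (hanti.mono fun β k => exists_lim _ k)
  have hall := eventually_countable_forall.2 h
  have hrt : Rt U V ρ := by
    filter_upwards [hV, hall] with β k1 k2
    refine ⟨sub (k1.1 0) (k2 0).1, le_lim hc h1 h2 fun n => (k1.1 n).trans (k2 n).2.1,
      fun η hη hlt => ?_⟩
    obtain ⟨n, hn⟩ := k1.2 η hη
    exact sub (h1 n) ((k2 n).2.2 η hn hlt)
  refine ⟨V, fun n => hV.mono fun _ k => k.1 n, hrt, fun v hv => ?_⟩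
  have h3 : ∀ᶠ β in (U : Filter K), ∃ n, ∃ α ∈ (W n β).a, β ≤ α ∧
      ∀ d : K × ℕ, d.1 ∈ ρ.a → v d = (V β).x α d := by
    filter_upwards [hV, hv] with β k1 ⟨α, k2, k3, k4⟩
    obtain ⟨n, hn⟩ := k1.2 α k2
    exact ⟨n, α, hn, k3, k4⟩
  obtain ⟨n, hn⟩ := ae_exists U h3
  refine ⟨n, fun m hm => ⟨?_, fun d hd hd' => ?_⟩⟩
  · filter_upwards [hn, hV, hall, hanti, ae_bdd U ρ.ctbl] with β ⟨α, k1, k2, k3⟩ k4 k5 k6 k7
    refine ⟨α, sub (k6 hm) k1, k2, fun d hd => (k3 d (sub (h1 m) hd)).trans ?_⟩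
    exact agree (k4.1 m) (sub (k6 hm) k1) (sub (k5 m).2.1 hd) ((k7 _ (sub (h1 m) hd)).trans_le k2)
  · obtain ⟨β, ⟨α, k1, k2, k3⟩, k4, k5, k6, k7, k8, k9⟩ := (hn.and (hV.and (hall.and (hanti.and
      ((ae_bdd U ρ.ctbl).and ((ld_spec U V ρ.ctbl).and hrt)))))).exists
    rw [k3 d hd, ← k8 d hd]
    exact newcol (k4.1 m) (sub k9.2.1 hd) (fun l => hd' ((k5 m).2.2 _ l (k7 _ hd)))
      (sub (k6 hm) k1) (k5 m).1 ((k7 _ hd).trans_le k2) (k7 _ hd)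

end Pool.Agent.Lib.MP_fcebdf_lc
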