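import Pool.Agent.Lib.MP_fcebdf_lc.QCond
import Pool.Agent.Lib.helper81.Pairs

set_option autoImplicit false

namespace Pool.Agent.Lib.MP_fcebdf_lc

open Filter Set Cond

variable {K : Type} [LinearOrder K] (U : Ultrafilter K) (F : Type) [Tol F]

/-- families with a common root and jointly close traces -/
structure Sys (ι : Type) where
  ρ : Cond K F
  W : ι → K → Cond K F
  rt : ∀ i, Rt U (W i) ρ
  jc : ∀ i j, JC U (W i) (W j) ρ

variable {U F} [NU U] [Countable F]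

instance (ι : Type) : Preorder (Sys U F ι) where
  le S' S := S'.ρ ≤ S.ρ ∧ (∀ i, LeS U (S'.W i) (S.W i)) ∧
    ∀ i j (c : K × ℕ), c.1 ∈ S'.ρ.a → c.1 ∉ S.ρ.a → Tol.r (ld U (S'.W i) c) (ld U (S'.W j) c)
  le_refl S := ⟨le_rfl, fun _ => LeS.refl _, fun _ _ _ h1 h2 => absurd h1 h2⟩
  le_trans S3 S2 S1 h1 h2 := by
    refine ⟨h1.1.trans h2.1, fun i => (h1.2.1 i).trans (h2.2.1 i), fun i j c hc hn => ?_⟩
    by_cases hq : c.1 ∈ S2.ρ.a
    · rw [ld_le (h1.2.1 i) (S2.rt i) c hq, ld_le (h1.2.1 j) (S2.rt j) c hq]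
      exact h2.2.2 i j c hq hn
    · exact h1.2.2 i j c hc hq

namespace Sys

variable {ι ι' : Type}

lemma le_def {S' S : Sys U F ι} : S' ≤ S ↔ S'.ρ ≤ S.ρ ∧ (∀ i, LeS U (S'.W i) (S.W i)) ∧
    ∀ i j (c : K × ℕ), c.1 ∈ S'.ρ.a → c.1 ∉ S.ρ.a →
      Tol.r (ld U (S'.W i) c) (ld U (S'.W j) c) := Iff.rfl

/-- reindexing -/
def comap (S : Sys U F ι) (f : ι' → ι) : Sys U F ι' where
  ρ := S.ρ
  W := fun i => S.W (f i)
  rt := fun i => S.rt (f i)
  jc := fun i j => S.jc (f i) (f j)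

lemma comap_mono {S' S : Sys U F ι} (h : S' ≤ S) (f : ι' → ι) : S'.comap f ≤ S.comap f :=
  ⟨h.1, fun i => h.2.1 (f i), fun i j => h.2.2 (f i) (f j)⟩

/-- the pair of two members -/
def pair (S : Sys U F ι) (i j : ι) : Sys U F Bool := S.comap fun b => bif b then j else i

/-- the constant system -/
def const (ι : Type) {W : K → Cond K F} {ρ : Cond K F} (h : Rt U W ρ) : Sys U F ι where
  ρ := ρ
  W := fun _ => W
  rt := fun _ => h
  jc := fun _ _ => JC.self h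

variable [Inhabited F]

theorem exists_lim (S : ℕ → Sys U F ι) (hS : Antitone S) : ∃ T, ∀ n, T ≤ S n := by
  have hc : Antitone fun n => (S n).ρ := fun n m h => (hS h).1
  obtain ⟨ρ, h1, h2⟩ := Cond.exists_lim _ hc
  choose V hV1 hV2 hV3 using fun i => exists_qlim (W := fun n => (S n).W i) hc
    (fun n => (S n).rt i) (fun n => (hS (Nat.le_succ n)).2.1 i) h1 h2
  have key : ∀ n i j (c : K × ℕ), c.1 ∈ ρ.a → c.1 ∉ (S n).ρ.a →
      Tol.r (ld U (V i) c) (ld U (V j) c) := by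
    intro n i j c hc' hn
    obtain ⟨m, hm⟩ := h2 _ hc'
    have k : c.1 ∈ (S (max n m)).ρ.a := sub (hc (le_max_right n m)) hm
    rw [ld_le (hV1 i _) ((S _).rt i) c k, ld_le (hV1 j _) ((S _).rt j) c k]
    exact (hS (le_max_left n m)).2.2 i j c k hn
  refine ⟨⟨ρ, V, hV2, fun i j v v' hv hv' => ?_⟩, fun n => ⟨h1 n, fun i => hV1 i n, key n⟩⟩
  obtain ⟨n, hn⟩ := hV3 i v hv
  obtain ⟨m, hm⟩ := hV3 j v' hv'
  obtain ⟨k1, k2⟩ := hn _ (le_max_left n m)
  obtain ⟨k3, k4⟩ := hm _ (le_max_right n m)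
  filter_upwards [(S (max n m)).jc i j v v' k1 k3] with c k hc'
  by_cases hq : c.1 ∈ (S (max n m)).ρ.a
  · exact k hq
  · rw [k2 c hc' hq, k4 c hc' hq]
    exact key _ i j c hc' hq

theorem plus [Countable ι] (S : Sys U F ι) :
    ∃ S' ≤ S, ∀ i, Abs U S'.ρ (S.W i) S.ρ := by
  obtain ⟨s, h1, h2, h3⟩ := exists_abs S.rt S.jc
  obtain ⟨y, hy⟩ := s.exists_toprow
  choose W hW1 hW2 hW3 using fun i => exists_ext (S.rt i) h1 y
    (fun c hc hn α hα hlt => absurd hlt (not_lt.2 (h3 _ hc hn α hα).le))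
    (fun w hw α hα => (h2 i).rows hw hα)
    (fun α hα => (hy α hα).mono fun _ k l => k ⟨l.1, l.2.2⟩)
  refine ⟨⟨s, W, hW2, fun i j => jc_ext (h2 i) (hW3 i) (hW2 j) fun v hv => ?_⟩,
    ⟨h1, hW1, fun i j c hc hn => ?_⟩, h2⟩
  · exact Eventually.of_forall fun c k => r_of_eq ((hW3 j v hv).2 c k.1 k.2).symm
  · exact r_of_eq (((hW3 i _ (hW2 i).tr_ld).2 c hc hn).trans
      ((hW3 j _ (hW2 j).tr_ld).2 c hc hn).symm)

omit [Inhabited F] in
theorem graft (S : Sys U F ι) {s : Cond K F} (hs : ∀ i, Abs U s (S.W i) S.ρ) (j : ι)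
    {V : K → Cond K F} (hV : LeS U V (S.W j)) (hr : Rt U V s) :
    ∃ S' ≤ S, S'.ρ = s ∧ S'.W j = V ∧
      (∀ i (c : K × ℕ), c.1 ∈ s.a → c.1 ∉ S.ρ.a → ld U (S'.W i) c = ld U V c) ∧
      ∀ V', Rt U V' s → JC U V V' s → ∀ i, JC U (S'.W i) V' s := by
  classical
  choose W hW1 hW2 hW3 using fun i => exists_ext (S.rt i) (hs i).1 (ld U V)
    (ld_forced hV (S.rt j) hr) (fun w hw α hα => (hs i).rows hw hα)
    (fun α hα => (Tr.row hr hr.tr_ld hα).mono fun _ k l => k ⟨l.1, l.2.2⟩)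
  let W' : ι → K → Cond K F := fun i => if i = j then V else W i
  have e1 : W' j = V := if_pos rfl
  have e2 : ∀ i, i ≠ j → W' i = W i := fun i h => if_neg h
  have k1 : ∀ i, Rt U (W' i) s := by
    intro i
    by_cases h : i = j
    · rw [h, e1]; exact hr
    · rw [e2 i h]; exact hW2 i
  have k2 : ∀ V', Rt U V' s → JC U V V' s → ∀ i, JC U (W' i) V' s := by
    intro V' l1 l2 i
    by_cases h : i = j
    · rw [h, e1]; exact l2
    · rw [e2 i h]
      exact jc_ext (hs i) (hW3 i) l1 fun v hv =>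
        (l2 _ v hr.tr_ld hv).mono fun _ k l => k l.1
  have k3 : ∀ i (c : K × ℕ), c.1 ∈ s.a → c.1 ∉ S.ρ.a → ld U (W' i) c = ld U V c := by
    intro i c hc hn
    by_cases h : i = j
    · rw [h, e1]
    · rw [e2 i h]; exact (hW3 i _ (hW2 i).tr_ld).2 c hc hn
  refine ⟨⟨s, W', k1, fun i i' => k2 _ (k1 i') (k2 V hr (JC.self hr) i').symm i⟩,
    ⟨(hs j).1, fun i => ?_, fun i i' c hc hn => ?_⟩, rfl, e1, k3, k2⟩
  · show LeS U (W' i) _
    by_cases h : i = j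
    · rw [h, e1]; exact hV
    · rw [e2 i h]; exact hW1 i
  · exact r_of_eq ((k3 i c hc hn).trans (k3 i' c hc hn).symm)

end Sys

lemma LeS.exists_rt {V W : K → Cond K F} {ρ : Cond K F} (h : LeS U V W) (hW : Rt U W ρ) :
    ∃ s, Rt U V s := by
  apply Pool.Agent.Lib.MP_fcebdf_lc.exists_rt
  filter_upwards [h, hW] with β k1 k2 using sub k1 k2.1

/-- almost every member of `W` is compatible with `W'` -/
lemma ae_compat {W W' : K → Cond K F} {ρ : Cond K F} (h : Rt U W ρ) (h' : Rt U W' ρ)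
    (hj : JC U W' W ρ) : ∀ᶠ γ in (U : Filter K), ∀ y : K × ℕ → F,
      (∀ α ∈ (W γ).a, AC (fun η => η ∈ (W γ).a ∧ η < α) y ((W γ).x α)) →
      ∃ V, LeS U V W' ∧ Rt U V (W γ) ∧
        ∀ c : K × ℕ, c.1 ∈ (W γ).a → γ ≤ c.1 → ld U V c = y c := by
  filter_upwards [h, h.tr_ae, ae_bdd U ρ.ctbl] with γ k1 k2 k3 y hy
  obtain ⟨V, l1, l2, l3⟩ := exists_ext h' k1.2.1 y
    (fun c hc hn α hα hlt => absurd (k1.2.2 _ hc (hlt.trans (k3 α hα))) hn)
    (fun w hw α hα => by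
      rcases lt_or_ge α γ with l | l
      · have m := k1.2.2 α hα l
        filter_upwards [Tr.row h' hw m] with c k kk
        rw [agree k1.2.1 m kk.1 kk.2]
        exact k kk
      · exact (hj w _ hw (k2 α hα l)).mono fun _ k kk => k kk.1)
    (fun α hα => (hy α hα).mono fun _ k l => k ⟨l.1, l.2.2⟩)
  exact ⟨V, l1, l2, fun c hc hle => (l3 _ l2.tr_ld).2 c hc fun m => not_lt.2 hle (k3 _ m)⟩

variable [Inhabited F]

variable (U) in
/-- the chain condition -/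
lemma ae_cc (W : K → Cond K F) :
    ∀ᶠ γ in (U : Filter K), ∀ᶠ γ' in (U : Filter K), ∃ q, q ≤ W γ ∧ q ≤ W γ' := by
  choose W' h1 h2 using fun β => (W β).add_point β
  obtain ⟨ρ, hρ⟩ := exists_rt (U := U) (Eventually.of_forall h2)
  filter_upwards [ae_compat hρ hρ (JC.self hρ)] with γ k
  obtain ⟨y, hy⟩ := (W' γ).exists_toprow
  obtain ⟨V, l1, l2, -⟩ := k y hy
  filter_upwards [l1, l2] with γ' m1 m2
  exact ⟨V γ', m2.2.1.trans (h1 γ), m1.trans (h1 γ')⟩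

variable (U) in
include U in
lemma cc_bounded (S : K → Cond K F → Prop) (hm : ∀ β p q, S β p → q ≤ p → S β q)
    (hd : ∀ β β' p, S β p → S β' p → β = β') : ∃ δ, ∀ β p, S β p → β < δ := by
  by_contra h
  push Not at h
  choose b W h1 h2 using h
  obtain ⟨γ, hγ⟩ := (ae_cc U W).exists
  obtain ⟨γ', ⟨q, k1, k2⟩, k3⟩ := (hγ.and (NU.tail (U := U) (b γ))).exists
  exact (k3.trans_le (h2 γ')).ne (hd _ _ q (hm _ _ _ (h1 γ) k1) (hm _ _ _ (h1 γ') k2))

end Pool.Agent.Lib.MP_fcebdf_lc
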