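import Pool.Agent.Lib.MP_fcebdf_lc.Ords

set_option autoImplicit false

namespace Pool.Agent.Lib.MP_fcebdf_lc

open Pool.Agent.Lib.helper81 Pool.Agent.Lib.helper81.Name Set

variable {P : Type} [Preorder P] {K : Type} [LinearOrder K] [WellFoundedLT K]

/-- `c {a, b} = i` -/
def Val {M : Type} (E : M → M → Prop) (c a b i : M) : Prop := ∃ u, UP E u a b ∧ Rel E c u i

lemma def_val (c a b i : ℕ) : Def (fun _ E v => Val E (v c) (v a) (v b) (v i)) :=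
  Def.ex ((def_up _ _ _).and (Def.rel _ _ _))

lemma Val.symm {M : Type} {E : M → M → Prop} {c a b i : M} (h : Val E c a b i) : Val E c b a i :=
  h.imp fun _ k => ⟨fun z => (k.1 z).trans or_comm, k.2⟩

/-- `q` forces `c {α, β} = n` -/
abbrev FV (c : HN P) (α β : K) (n : ℕ) (q : P) : Prop :=
  Fc (fun _ E v => Val E (v 0) (v 1) (v 2) (v 3))
    (w4 c (ordH P α) (ordH P β) (natH (Triv P) n)) q

lemma fv_dense {c : HN P} {p : P}
    (h : Fc (fun _ E v => Col E (v 0) (v 1) (v 2))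
      (w3 c (oS P (univ : Set K)) (omegaH (Triv P))) p) {α β : K} (hne : α ≠ β) :
    ∃ q ≤ p, ∃ n, FV c α β n q := by
  obtain ⟨g, k1, k2, k3⟩ := exists_gm' p (w3 c (oS P (univ : Set K)) (omegaH (Triv P)))
    {ordH P α, ordH P β} (to_countable _)
  have ha : ordH P α ∈ g.S := k3 (by simp)
  have hb : ordH P β ∈ g.S := k3 (by simp)
  obtain ⟨h1, h2⟩ := h g k1 k2
  obtain ⟨u, hu⟩ := g.isZF.pair (g.val (ordH P α)) (g.val (ordH P β))
  obtain ⟨i, ⟨z, h3, h4⟩, -⟩ := h2 _ _ u (oS_intro g (k2 1) ha (mem_univ _))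
    (oS_intro g (k2 1) hb (mem_univ _)) (fun e => hne (ord_inj g ha hb e)) hu
  obtain ⟨-, -, u', i', -, -, -, -, h5, h6⟩ := h1 z h3
  obtain ⟨rfl, rfl⟩ := h4.inj g.isZF.pair h6
  obtain ⟨n, rfl⟩ := (g.mem_omega _).1 h5
  obtain ⟨q, -, h7, h8⟩ := g.truthDef_le (def_val 0 1 2 3)
    (w := w4 c (ordH P α) (ordH P β) (natH (Triv P) n)) (mem4 (k2 0) ha hb (g.nat_mem n))
    ⟨u, hu, z, h3, h4⟩ k1
  exact ⟨q, h7, n, h8⟩

omit [LinearOrder K] [WellFoundedLT K] in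
lemma join_path {L : ℕ} {α β : K} {γ : ℕ → K} {A : K → Prop} {D : K → K → Prop}
    (h1 : ∀ k ≤ L, A (γ k)) (h2 : ∀ k < L, D (γ k) (γ (k + 1))) (h3 : D α (γ 0))
    (h4 : D (γ L) β) : ∃ σ : ℕ → K, σ 0 = α ∧ σ (L + 2) = β ∧
      (∀ k ≤ L + 2, σ k = α ∨ σ k = β ∨ A (σ k)) ∧ ∀ k < L + 2, D (σ k) (σ (k + 1)) := by
  refine ⟨cons α fun k => if k ≤ L then γ k else β, rfl, by simp, fun k _ => ?_, fun k hk => ?_⟩
  · cases k with
    | zero => exact Or.inl rfl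
    | succ k =>
      simp only [cons_succ]
      split_ifs with h
      · exact Or.inr (Or.inr (h1 k h))
      · exact Or.inr (Or.inl rfl)
  · cases k with
    | zero => simpa using h3
    | succ k =>
      simp only [cons_succ]
      rcases Nat.lt_or_ge k L with h | h
      · rw [if_pos h.le, if_pos (Nat.succ_le_of_lt h)]
        exact h2 k h
      · obtain rfl : k = L := by omega
        rw [if_pos le_rfl, if_neg (by omega)]
        exact h4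

lemma Path.symm {M : Type} {E : M → M → Prop} {c i A C a b : M} {l : ℕ}
    (h : Path E c i A C a b l) : Path E c i A C b a l := by
  obtain ⟨γ, h1, h2, h3, h4⟩ := h
  refine ⟨fun j => γ (l - j), h2, by simpa using h1, fun j _ => h3 _ (Nat.sub_le _ _),
    fun j hj => ?_⟩
  have := Val.symm (h4 (l - (j + 1)) (by omega))
  rw [show l - (j + 1) + 1 = l - j by omega] at this
  exact this

theorem upper_gm {L : ℕ}
    (hcc : ∀ S : K → P → Prop, (∀ β p q, S β p → q ≤ p → S β q) →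
      (∀ β β' p, S β p → S β' p → β = β') → ∃ δ, ∀ β p, S β p → β < δ)
    (hclos : ∀ b : K → K, ∃ h : K → K, Function.Injective h ∧
      ∀ ξ ξ', h ξ < h ξ' → b (h ξ) < h ξ')
    (hub : ∀ D : K → K → ℕ → P → Prop, (∀ α β n p q, D α β n p → q ≤ p → D α β n q) →
      (∀ α β, α < β → ∀ p, ∃ q ≤ p, ∃ n, D α β n q) → ∀ p,
      ∃ r ≤ p, ∃ n, ∃ S : K → P → Prop, (∀ β p q, S β p → q ≤ p → S β q) ∧
      (∀ q ≤ r, ∀ δ, ∃ q' ≤ q, ∃ β, δ < β ∧ S β q') ∧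
      ∀ q ≤ r, ∀ α β, α < β → S α q → S β q → ∀ δ, ∃ q' ≤ q, ∃ γ : ℕ → K,
        (∀ k ≤ L, δ < γ k ∧ S (γ k) q') ∧
        (∀ k < L, γ k < γ (k + 1) ∧ D (γ k) (γ (k + 1)) n q') ∧
        D α (γ 0) n q' ∧ D β (γ L) n q')
    (gm : GN P) (hk : oS P (univ : Set K) ∈ gm.S) {c : gm.M}
    (hc : Col gm.E c (gm.val (oS P (univ : Set K))) gm.omega) :
    ∃ A i, Sub gm.E A (gm.val (oS P (univ : Set K))) ∧
      Le gm.E (gm.val (oS P (univ : Set K))) A ∧ gm.E i gm.omega ∧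
      Body gm.E c i A (gm.val (oS P (univ : Set K))) (L + 3) := by
  obtain ⟨c, hcS, rfl⟩ := gm.surj c
  obtain ⟨p, hp⟩ := gm.nonempty
  have hd : Def (fun _ E v => ∃ A i, Sub E A (v 1) ∧ Le E (v 1) A ∧ E i (v 2) ∧
      Body E (v 0) i A (v 1) (L + 3)) :=
    Def.ex (Def.ex ((Def.sub _ _).and ((def_le _ _).and ((Def.mem _ _).and
      (def_body (0 + 1 + 1) 0 (0 + 1) (1 + 1 + 1) (L + 3))))))
  refine transfer gm (def_col 0 1 2) hd (w := w3 c (oS P (univ : Set K)) (omegaH (Triv P)))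
    (mem3 hcS hk gm.omega_mem) hp (fun q _ hq => ?_) hc
  obtain ⟨r, h1, n, S, h2, h3, h4⟩ := hub (fun α β n s => ∀ s' ≤ s, s' ≤ q → FV c α β n s')
    (fun _ _ _ _ _ h hs s' l => h s' (l.trans hs))
    (fun α β hlt s => by
      by_cases h : ∃ s' ≤ s, s' ≤ q
      · obtain ⟨s', k1, k2⟩ := h
        obtain ⟨t, k3, n, k4⟩ := fv_dense (hq.mono k2) hlt.ne
        exact ⟨t, k3.trans k1, n, fun t' l _ => k4.mono l⟩
      · exact ⟨s, le_rfl, 0, fun s' l1 l2 => absurd ⟨s', l1, l2⟩ h⟩) q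
  let A : HN P := mkH (ordH P) fun β => ⟨{s | S β s}, fun _ _ h hs => h2 _ _ _ hs h⟩
  have hA : ∀ β s, S β s → Fmem (ordH P β).1 A.1 s := fun β s h => fmem_mkH (A := ordH P) h
  refine ⟨r, h1, Fc.of_extra hd {A} (to_countable _) fun g k1 k2 k3 => ?_⟩
  have hAS : A ∈ g.S := k3 rfl
  refine ⟨g.val A, g.nat n, fun x hx => ?_, ?_, (g.mem_omega _).2 ⟨n, rfl⟩, ?_⟩
  · obtain ⟨β, l1, rfl, -⟩ := mkH_elim g hAS hx
    exact oS_intro g (k2 1) l1 (mem_univ _)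
  · refine fc_le_unb hcc hclos (Y := A) (fun s hs δ => ?_) g k1 (mem2 (k2 1) hAS)
    obtain ⟨s', l1, β, l2, l3⟩ := h3 s hs δ
    exact ⟨s', l1, β, l2, hA β s' l3⟩
  intro C _ hC
  obtain ⟨C, hCS, rfl⟩ := g.surj C
  suffices key : ∀ α β : K, α < β → ordH P α ∈ g.S → ordH P β ∈ g.S →
      (∃ s ∈ g.Γ, S α s) → (∃ s ∈ g.Γ, S β s) → ¬ g.E (g.val (ordH P α)) (g.val C) →
      ¬ g.E (g.val (ordH P β)) (g.val C) →
      Path g.E (g.val c) (g.nat n) (g.val A) (g.val C) (g.val (ordH P α)) (g.val (ordH P β))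
        (L + 2) by
    intro a b ha ha' hb hb'
    obtain ⟨α, l1, rfl, l2⟩ := mkH_elim g hAS ha
    obtain ⟨β, l3, rfl, l4⟩ := mkH_elim g hAS hb
    rcases lt_trichotomy α β with l | l | l
    · exact ⟨L + 2, by omega, key α β l l1 l3 l2 l4 ha' hb'⟩
    · subst l
      exact ⟨0, by omega, (path_zero _ _ _ _ _ _ _).2 ⟨rfl, ha, ha'⟩⟩
    · exact ⟨L + 2, by omega, (key β α l l3 l1 l4 l2 hb' ha').symm⟩
  rintro α β hlt ha hb ⟨s1, m1, m2⟩ ⟨s2, m3, m4⟩ ha' hb'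
  obtain ⟨s, m5, m6, m7, m8⟩ := dir3 g k1 m1 m3
  let w : ℕ → HN P := cons c (cons (natH (Triv P) n) (cons A
    (w4 C (ordH P α) (ordH P β) (oS P (univ : Set K)))))
  have hw : ∀ i, w i ∈ g.S := forall_cons (Q := fun x => x ∈ g.S) (k2 0)
    (forall_cons (Q := fun x => x ∈ g.S) (g.nat_mem n)
      (forall_cons (Q := fun x => x ∈ g.S) hAS (mem4 hCS ha hb (k2 1))))
  refine transfer g ((def_le 6 3).not.and ((Def.mem 4 3).not.and (Def.mem 5 3).not))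
    (def_path (L + 2) 0 1 2 3 4 5) hw m5 (fun t ht hf => ?_) ⟨hC, ha', hb'⟩
  have hb : ∃ t' ≤ t, ∃ δ : K, ∀ t'' ≤ t', ∀ γ, δ < γ → ¬ Fmem (ordH P γ).1 C.1 t'' := by
    by_contra h
    push Not at h
    obtain ⟨g', n1, n2, -⟩ := exists_gm' t w ∅ countable_empty
    exact (hf g' n1 n2).1 (fc_le_unb hcc hclos (Y := C) h g' n1 (mem2 (n2 6) (n2 3)))
  obtain ⟨t', n1, δ, n2⟩ := hb
  have n3 : t' ≤ s := n1.trans ht
  obtain ⟨t'', n4, γ, n5, n6, n7, n8⟩ := h4 t' (n3.trans m6) α β hlt (h2 _ _ _ m2 (n3.trans m7))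
    (h2 _ _ _ m4 (n3.trans m8)) δ
  have n9 : t'' ≤ q := (n4.trans (n3.trans m6)).trans h1
  obtain ⟨σ, o1, o2, o3, o4⟩ := join_path (A := fun x => δ < x ∧ S x t'')
    (D := fun x y => FV c x y n t'' ∨ FV c y x n t'') n5
    (fun k hk => Or.inl ((n6 k hk).2 t'' le_rfl n9)) (Or.inl (n7 t'' le_rfl n9))
    (Or.inr (n8 t'' le_rfl n9))
  refine ⟨t'', n4.trans n1, Fc.of_extra (def_path (L + 2) 0 1 2 3 4 5)
    (range fun k => ordH P (σ k)) (countable_range _) fun g' p1 p2 p3 => ?_⟩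
  have p4 : ∀ k, ordH P (σ k) ∈ g'.S := fun k => p3 (mem_range_self k)
  have p5 := hf.mono (n4.trans n1) g' p1 p2
  refine ⟨fun k => g'.val (ordH P (σ k)), by simp only [o1]; rfl, by simp only [o2]; rfl,
    fun k hk => ?_, fun k hk => ?_⟩
  · rcases o3 k hk with e | e | e
    · refine ⟨val_mem g' (p4 k) (p2 2) p1 (hA _ _ ?_), by simp only [e]; exact p5.2.1⟩
      rw [e]
      exact h2 _ _ _ m2 (n4.trans (n3.trans m7))
    · refine ⟨val_mem g' (p4 k) (p2 2) p1 (hA _ _ ?_), by simp only [e]; exact p5.2.2⟩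
      rw [e]
      exact h2 _ _ _ m4 (n4.trans (n3.trans m8))
    · refine ⟨val_mem g' (p4 k) (p2 2) p1 (hA _ _ e.2), fun h => ?_⟩
      obtain ⟨u, q1, q2⟩ := (g'.mem_iff (p4 k) (p2 3)).1 h
      obtain ⟨u', -, q3, q4⟩ := g'.dir _ _ p1 q1
      exact n2 u' (q3.trans n4) _ e.1 (q2.mono q4)
  · rcases o4 k hk with e | e
    · exact e g' p1 (mem4 (p2 0) (p4 k) (p4 (k + 1)) (g'.nat_mem n))
    · exact Val.symm (e g' p1 (mem4 (p2 0) (p4 (k + 1)) (p4 k) (g'.nat_mem n)))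

/-- the name of a colouring -/
noncomputable def colH (D : K → K → ℕ → P → Prop)
    (hm : ∀ α β n p q, D α β n p → q ≤ p → D α β n q) : HN P :=
  relH (fun t : K × K × ℕ => upH (ordH P t.1) (ordH P t.2.1)) (fun t => natH (Triv P) t.2.2)
    (fun t => ⟨{q | D t.1 t.2.1 t.2.2 q}, fun _ _ h hq => hm _ _ _ _ _ hq h⟩)

lemma up_cases {u : HN P} {α β α' β' : K} {q : P}
    (h1 : Fc (fun _ E v => UP E (v 0) (v 1) (v 2)) (w3 u (ordH P α) (ordH P β)) q)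
    (h2 : Feq u.1 (upH (ordH P α') (ordH P β')).1 q) (hne : α' ≠ β') :
    (α = α' ∧ β = β') ∨ (α = β' ∧ β = α') := by
  obtain ⟨g, k1, k2, k3⟩ := exists_gm' q (w3 u (ordH P α) (ordH P β))
    {ordH P α', ordH P β', upH (ordH P α') (ordH P β')} (to_countable _)
  have a1 : ordH P α' ∈ g.S := k3 (by simp)
  have a2 : ordH P β' ∈ g.S := k3 (by simp)
  have a3 : upH (ordH P α') (ordH P β') ∈ g.S := k3 (by simp)
  have a4 : ordH P α ∈ g.S := k2 1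
  have a5 : ordH P β ∈ g.S := k2 2
  have e : ∀ z, (z = g.val (ordH P α) ∨ z = g.val (ordH P β)) ↔
      (z = g.val (ordH P α') ∨ z = g.val (ordH P β')) := by
    intro z
    rw [← g.mem_upH a1 a2 a3, ← val_eq g (a := u) (k2 0) a3 k1 h2]
    exact (h1 g k1 k2 z).symm
  have e1 : α' = α ∨ α' = β :=
    ((e _).2 (Or.inl rfl)).imp (ord_inj g a1 a4) (ord_inj g a1 a5)
  have e2 : β' = α ∨ β' = β :=
    ((e _).2 (Or.inr rfl)).imp (ord_inj g a2 a4) (ord_inj g a2 a5)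
  rcases e1 with rfl | rfl <;> rcases e2 with rfl | rfl
  · exact absurd rfl hne
  · exact Or.inl ⟨rfl, rfl⟩
  · exact Or.inr ⟨rfl, rfl⟩
  · exact absurd rfl hne

omit [LinearOrder K] [WellFoundedLT K] in
lemma fc_up (a b : HN P) (q : P) :
    Fc (fun _ E v => UP E (v 0) (v 1) (v 2)) (w3 (upH a b) a b) q :=
  fun g _ k2 => g.mem_upH (k2 1) (k2 2) (k2 0)

lemma col_colH {D : K → K → ℕ → P → Prop} (hm : ∀ α β n p q, D α β n p → q ≤ p → D α β n q)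
    (hd : ∀ α β, α < β → ∀ p, ∃ q ≤ p, ∃ n, D α β n q) (hlt : ∀ α β n p, D α β n p → α < β)
    (hf : ∀ α β n n' p, D α β n p → D α β n' p → n = n') (gm : GN P) (hc : colH D hm ∈ gm.S)
    (hk : oS P (univ : Set K) ∈ gm.S) :
    Col gm.E (gm.val (colH D hm)) (gm.val (oS P (univ : Set K))) gm.omega := by
  obtain ⟨p, hp⟩ := gm.nonempty
  constructor
  · intro z hz
    obtain ⟨⟨α, β, n⟩, h3, rfl, q, h4, h5⟩ := mkH_elim gm hc hz
    have hd : Def (fun _ E v => ∃ a b u i, E a (v 1) ∧ E b (v 1) ∧ a ≠ b ∧ UP E u a b ∧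
        E i (v 2) ∧ OP E (v 0) u i) :=
      Def.ex (Def.ex (Def.ex (Def.ex ((Def.mem _ _).and ((Def.mem _ _).and ((Def.eq _ _).not.and
        ((def_up _ _ _).and ((Def.mem _ _).and (Def.op _ _ _)))))))))
    refine Fc.of_extra hd (w := w3 (opH (upH (ordH P α) (ordH P β)) (natH (Triv P) n))
      (oS P (univ : Set K)) (omegaH (Triv P))) {ordH P α, ordH P β, upH (ordH P α) (ordH P β)}
      (to_countable _) ?_ gm h4 (mem3 h3 hk gm.omega_mem)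
    intro g _ k2 k3
    have a1 : ordH P α ∈ g.S := k3 (by simp)
    have a2 : ordH P β ∈ g.S := k3 (by simp)
    have a3 : upH (ordH P α) (ordH P β) ∈ g.S := k3 (by simp)
    exact ⟨_, _, _, _, oS_intro g (k2 1) a1 (mem_univ _), oS_intro g (k2 1) a2 (mem_univ _),
      fun e => (hlt _ _ _ _ h5).ne (ord_inj g a1 a2 e), g.mem_upH a1 a2 a3,
      (g.mem_omega _).2 ⟨n, rfl⟩, g.op_spec a3 (g.nat_mem n) (k2 0)⟩
  · have key : ∀ α β : K, α < β → ordH P α ∈ gm.S → ordH P β ∈ gm.S → ∀ u,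
        UP gm.E u (gm.val (ordH P α)) (gm.val (ordH P β)) →
        ∃ i, Rel gm.E (gm.val (colH D hm)) u i := by
      intro α β l a1 a2 u hu
      obtain ⟨u, a3, rfl⟩ := gm.surj u
      have hd1 : Def (fun _ E v => ∃ i, Rel E (v 3) (v 0) i) := Def.ex (Def.rel _ _ _)
      refine transfer gm (def_up 0 1 2) hd1 (w := w4 u (ordH P α) (ordH P β) (colH D hm))
        (mem4 a3 a1 a2 hc) hp (fun q _ h1 => ?_) hu
      obtain ⟨r, h2, n, h3⟩ := hd α β l q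
      refine ⟨r, h2, fun g k1 k2 => ⟨_, (rel_iff g (k2 3) (k2 0) (g.nat_mem n)).2
        ⟨(α, β, n), r, k1, h3, ?_, Feq.refl _ _⟩⟩⟩
      refine feq_of_gm {ordH P α, ordH P β, colH D hm} (to_countable _) fun g' l1 l2 l3 l4 => ?_
      have b1 : ordH P α ∈ g'.S := l4 (by simp)
      have b2 : ordH P β ∈ g'.S := l4 (by simp)
      exact g'.ext _ _ fun z => (h1.mono h2 g' l1 (mem4 l2 b1 b2 (l4 (by simp))) z).trans
        (g'.mem_upH b1 b2 l3 z).symm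
    intro a b u ha hb hne hu
    obtain ⟨α, -, a1, rfl⟩ := oS_elim gm hk ha
    obtain ⟨β, -, a2, rfl⟩ := oS_elim gm hk hb
    obtain ⟨i, hi⟩ : ∃ i, Rel gm.E (gm.val (colH D hm)) u i := by
      rcases lt_trichotomy α β with l | l | l
      · exact key α β l a1 a2 u hu
      · exact absurd (l ▸ rfl) hne
      · exact key β α l a2 a1 u fun z => (hu z).trans or_comm
    refine ⟨i, hi, fun i' hi' => rel_unique gm hc hp ?_ hi' hi⟩
    rintro ⟨α1, β1, n1⟩ ⟨α2, β2, n2⟩ q _ h1 h2 e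
    have l1 := hlt _ _ _ _ h1
    have l2 := hlt _ _ _ _ h2
    rcases up_cases (fc_up _ _ q) e l2.ne with ⟨rfl, rfl⟩ | ⟨rfl, rfl⟩
    · obtain rfl : n1 = n2 := hf _ _ _ _ _ h1 h2
      exact Feq.refl _ _
    · exact absurd l1 (lt_asymm l2)

lemma val_colH {D : K → K → ℕ → P → Prop} (hm : ∀ α β n p q, D α β n p → q ≤ p → D α β n q)
    (hlt : ∀ α β n p, D α β n p → α < β) (gm : GN P) (hc : colH D hm ∈ gm.S) {α β : K}
    (a1 : ordH P α ∈ gm.S) (a2 : ordH P β ∈ gm.S) {n : ℕ}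
    (h : Val gm.E (gm.val (colH D hm)) (gm.val (ordH P α)) (gm.val (ordH P β)) (gm.nat n)) :
    ∃ q ∈ gm.Γ, D α β n q ∨ D β α n q := by
  obtain ⟨u, h1, h2⟩ := h
  obtain ⟨u, a3, rfl⟩ := gm.surj u
  obtain ⟨⟨α', β', n'⟩, q, k1, k2, k3, k4⟩ := (rel_iff gm hc a3 (gm.nat_mem n)).1 h2
  obtain rfl : n = n' := feq_nat k4
  obtain ⟨r, -, k5, k6⟩ := gm.truthDef_le (def_up 0 1 2) (w := w3 u (ordH P α) (ordH P β))
    (mem3 a3 a1 a2) h1 k1
  rcases up_cases k6 (k3.mono k5) (hlt _ _ _ _ k2).ne with ⟨rfl, rfl⟩ | ⟨rfl, rfl⟩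
  · exact ⟨q, k1, Or.inl k2⟩
  · exact ⟨q, k1, Or.inr k2⟩

theorem lower_gm {L : ℕ}
    (hcc : ∀ S : K → P → Prop, (∀ β p q, S β p → q ≤ p → S β q) →
      (∀ β β' p, S β p → S β' p → β = β') → ∃ δ, ∀ β p, S β p → β < δ)
    (hreg : ∀ (δ : K) (b : K → K), ∃ β, ∀ ξ < δ, b ξ < β)
    {D : K → K → ℕ → P → Prop} (hm : ∀ α β n p q, D α β n p → q ≤ p → D α β n q)
    (hlt : ∀ α β n p, D α β n p → α < β)
    (hlb : ∀ (p : P) (n : ℕ) (S : K → P → Prop), (∀ β p q, S β p → q ≤ p → S β q) →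
        (∀ δ, ∃ β, δ ≤ β ∧ ∃ q ≤ p, S β q) → ∃ q ≤ p, ∃ α β, α < β ∧ S α q ∧ S β q ∧
          ∀ q' ≤ q, ∀ m ≤ L + 1, ∀ γ : ℕ → K, γ 0 = α → γ m = β →
            (∀ k ≤ m, γ k = α ∨ β ≤ γ k) →
            ¬ ∀ k < m, D (γ k) (γ (k + 1)) n q' ∨ D (γ (k + 1)) (γ k) n q')
    (gm : GN P) (hc : colH D hm ∈ gm.S) (hk : oS P (univ : Set K) ∈ gm.S) {A i : gm.M}
    (h1 : Sub gm.E A (gm.val (oS P (univ : Set K))))
    (h2 : Le gm.E (gm.val (oS P (univ : Set K))) A) (h3 : gm.E i gm.omega) :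
    ¬ Body gm.E (gm.val (colH D hm)) i A (gm.val (oS P (univ : Set K))) (L + 2) := by
  intro h4
  obtain ⟨n, rfl⟩ := (gm.mem_omega _).1 h3
  obtain ⟨A, hA, rfl⟩ := gm.surj A
  obtain ⟨p, -, hp⟩ := gm.truthDef ((Def.sub 2 3).and ((def_le 3 2).and (def_body 0 1 2 3 (L + 2))))
    (w := w4 (colH D hm) (natH (Triv P) n) A (oS P (univ : Set K)))
    (mem4 hc (gm.nat_mem n) hA hk) ⟨h1, h2, h4⟩
  obtain ⟨q, k1, α, β, k2, k3, k4, k5⟩ := hlb p n (fun β q => Fmem (ordH P β).1 A.1 q)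
    (fun _ _ _ h hq => h.mono hq) (fun δ => by
      by_contra h
      obtain ⟨g, l1, l2, l3⟩ := exists_gm' p
        (w4 (colH D hm) (natH (Triv P) n) A (oS P (univ : Set K))) {ordH P δ} (to_countable _)
      obtain ⟨m1, m2, -⟩ := hp g l1 l2
      refine not_le_ord hcc hreg g (l2 3) (l3 rfl) (Le.mono m2 fun x hx => ?_)
      obtain ⟨β, -, m3, rfl⟩ := oS_elim g (l2 3) (m1 x hx)
      obtain ⟨s, m4, m5⟩ := (g.mem_iff m3 (l2 2)).1 hx
      obtain ⟨t, -, m6, m7⟩ := g.dir _ _ l1 m4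
      exact ord_lt g m3 (l3 rfl) (not_le.1 fun l => h ⟨β, l, t, m6, m5.mono m7⟩))
  obtain ⟨g, l1, l2, l3⟩ := exists_gm' q
    (w4 (colH D hm) (natH (Triv P) n) A (oS P (univ : Set K))) {ordH P α, ordH P β}
    (to_countable _)
  have a1 : ordH P α ∈ g.S := l3 (by simp)
  have a2 : ordH P β ∈ g.S := l3 (by simp)
  obtain ⟨m1, -, m3⟩ := hp.mono k1 g l1 l2
  obtain ⟨C, hC⟩ := g.isZF.sepDef ((Def.mem 0 2).and (Def.eq 0 1).not)
    (w2 (g.val (ordH P α)) (g.val (ordH P β))) (g.val A)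
  have irr : ∀ x, ¬ g.E x x := fun x => g.wf.irrefl.irrefl x
  obtain ⟨m, m4, γ, m5, m6, m7, m8⟩ := m3 C (fun x hx => ((hC x).1 hx).1)
    (fun h => not_le_ord hcc hreg g (l2 3) a2 (Le.mono h fun x hx => ((hC x).1 hx).2.1))
    _ _ (val_mem g a1 (l2 2) l1 k3) (fun h => ((hC _).1 h).2.2 rfl)
    (val_mem g a2 (l2 2) l1 k4) (fun h => irr _ ((hC _).1 h).2.1)
  have m9 : ∀ j, ∃ σ : K, j ≤ m → ordH P σ ∈ g.S ∧ g.val (ordH P σ) = γ j := by
    intro j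
    by_cases hj : j ≤ m
    · obtain ⟨σ, -, n1, n2⟩ := oS_elim g (l2 3) (m1 _ (m7 j hj).1)
      exact ⟨σ, fun _ => ⟨n1, n2⟩⟩
    · exact ⟨α, fun h => absurd h hj⟩
  choose σ hσ using m9
  obtain ⟨q', n1, n2⟩ := dir_fin g l1
    (fun k q' => D (σ k) (σ (k + 1)) n q' ∨ D (σ (k + 1)) (σ k) n q')
    (fun _ _ _ h hr => h.imp (fun h => hm _ _ _ _ _ h hr) fun h => hm _ _ _ _ _ h hr) m
    (fun k hk => by
      refine val_colH hm hlt g (l2 0) (hσ k hk.le).1 (hσ (k + 1) hk).1 ?_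
      rw [(hσ k hk.le).2, (hσ (k + 1) hk).2]
      exact m8 k hk)
  refine k5 q' n1 m (by omega) σ
    (ord_inj g (hσ 0 (Nat.zero_le m)).1 a1 ((hσ 0 (Nat.zero_le m)).2.trans m5))
    (ord_inj g (hσ m le_rfl).1 a2 ((hσ m le_rfl).2.trans m6)) (fun k hk => ?_) n2
  by_contra h
  rw [not_or, not_le] at h
  refine (m7 k hk).2 ((hC _).2 ⟨(m7 k hk).1, ?_, fun e => h.1 ?_⟩)
  · rw [← (hσ k hk).2]
    exact ord_lt g (hσ k hk).1 a2 h.2
  · exact ord_inj g (hσ k hk).1 a1 ((hσ k hk).2.trans e)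

end Pool.Agent.Lib.MP_fcebdf_lc
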